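import Mathlib

namespace Pool.Agent.H80.E1

open MvPolynomial

section Noeth

variable {ι : Type} {r : ℕ}

/-- index type of the universal coordinates -/
abbrev Idx (ι : Type) (r : ℕ) := (ι × Bool) × (Fin r × Fin r)

/-- universal matrix of a letter -/
noncomputable def U (r : ℕ) (x : ι × Bool) :
    Matrix (Fin r) (Fin r) (MvPolynomial (Idx ι r) ℤ) :=
  Matrix.of fun p q => X (x, (p, q))

/-- universal matrix of a word -/
noncomputable def W (r : ℕ) (L : List (ι × Bool)) :
    Matrix (Fin r) (Fin r) (MvPolynomial (Idx ι r) ℤ) :=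
  (L.map (U r)).prod

/-- evaluation of the universal matrices at a representation -/
noncomputable def ev {R : Type*} [CommRing R] (τ : FreeGroup ι →* Matrix.GeneralLinearGroup (Fin r) R) :
    MvPolynomial (Idx ι r) ℤ →+* R :=
  eval₂Hom (Int.castRingHom R)
    (fun z => ((τ (FreeGroup.mk [z.1]) : Matrix.GeneralLinearGroup (Fin r) R) :
      Matrix (Fin r) (Fin r) R) z.2.1 z.2.2)

theorem ev_W {R : Type*} [CommRing R] (τ : FreeGroup ι →* Matrix.GeneralLinearGroup (Fin r) R)
    (L : List (ι × Bool)) :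
    (W r L).map (ev τ) = ((τ (FreeGroup.mk L) : Matrix.GeneralLinearGroup (Fin r) R) :
      Matrix (Fin r) (Fin r) R) := by
  induction L with
  | nil =>
    have : (FreeGroup.mk ([] : List (ι × Bool))) = 1 := rfl
    rw [this, map_one]
    simp [W]
  | cons x L ih =>
    have h1 : FreeGroup.mk (x :: L) = FreeGroup.mk [x] * FreeGroup.mk L := by
      rw [FreeGroup.mul_mk]; rfl
    rw [h1, map_mul, Units.val_mul, ← ih]
    have h2 : W r (x :: L) = U r x * W r L := by simp [W]
    rw [h2, Matrix.map_mul]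
    congr 1
    ext p q
    simp [U, ev]

end Noeth

/-- Linear groups over commutative rings are equationally Noetherian, in the form used here. -/
theorem eqNoeth {H : Type*} [Group H] [hfg : Group.FG H] (r : ℕ) (S : Set H) :
    ∃ T : Finset H, ↑T ⊆ S ∧ ∀ (R : Type*) [CommRing R]
      (σ : H →* Matrix.GeneralLinearGroup (Fin r) R),
      (∀ s ∈ T, σ s = 1) → ∀ s ∈ S, σ s = 1 := by
  classical
  obtain ⟨d, X₀, hX₀⟩ : ∃ (d : ℕ) (X₀ : Fin d → H), Subgroup.closure (Set.range X₀) = ⊤ := by
    obtain ⟨B, hB⟩ := hfg.1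
    refine ⟨B.card, fun i => (B.equivFin.symm i : H), ?_⟩
    rw [← hB]
    congr 1
    ext x
    constructor
    · rintro ⟨i, rfl⟩
      exact (B.equivFin.symm i).2
    · intro hx
      exact ⟨B.equivFin ⟨x, hx⟩, by simp⟩
  have hsurj : Function.Surjective (FreeGroup.lift X₀) := by
    rw [← MonoidHom.range_eq_top, FreeGroup.range_lift_eq_closure, hX₀]
  have hL : ∀ h : H, ∃ L : List (Fin d × Bool), FreeGroup.lift X₀ (FreeGroup.mk L) = h := by
    intro h
    obtain ⟨w, hw⟩ := hsurj h
    exact ⟨w.toWord, by rw [FreeGroup.mk_toWord]; exact hw⟩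
  choose L hLs using hL
  let G0 : Set (MvPolynomial (Idx (Fin d) r) ℤ) :=
    {f | ∃ s ∈ S, ∃ p q, f = (W r (L s) - 1 : Matrix (Fin r) (Fin r) _) p q}
  have hFG : (Submodule.span (MvPolynomial (Idx (Fin d) r) ℤ) G0).FG :=
    IsNoetherian.noetherian _
  obtain ⟨F0, hF0, hspan⟩ := (Submodule.fg_span_iff_fg_span_finset_subset G0).1 hFG
  have hch : ∀ f : F0, ∃ s ∈ S, ∃ p q, (f : MvPolynomial (Idx (Fin d) r) ℤ) =
      (W r (L s) - 1 : Matrix (Fin r) (Fin r) _) p q := fun f => hF0 f.2
  choose sf hsf pf qf hfeq using hch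
  refine ⟨Finset.univ.image sf, ?_, ?_⟩
  · intro x hx
    simp only [Finset.coe_image, Finset.coe_univ, Set.image_univ, Set.mem_range] at hx
    obtain ⟨f, rfl⟩ := hx
    exact hsf f
  · intro R _ σ hσ s hs
    let τ : FreeGroup (Fin d) →* Matrix.GeneralLinearGroup (Fin r) R :=
      σ.comp (FreeGroup.lift X₀)
    have hτ : ∀ h : H, τ (FreeGroup.mk (L h)) = σ h := by
      intro h
      simp only [τ, MonoidHom.comp_apply, hLs]
    have hent : ∀ (h : H) (p q : Fin r),
        ev τ ((W r (L h) - 1 : Matrix (Fin r) (Fin r) _) p q) =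
          (((σ h : Matrix.GeneralLinearGroup (Fin r) R) : Matrix (Fin r) (Fin r) R) - 1) p q := by
      intro h p q
      rw [Matrix.sub_apply, Matrix.sub_apply, map_sub, ← hτ, ← ev_W τ (L h), Matrix.map_apply]
      congr 1
      by_cases hpq : p = q
      · subst hpq; simp
      · simp [Matrix.one_apply_ne hpq]
    have hker : G0 ⊆ (RingHom.ker (ev τ) : Set _) := by
      have h1 : (F0 : Set (MvPolynomial (Idx (Fin d) r) ℤ)) ⊆ (RingHom.ker (ev τ) : Set _) := by
        intro f hf
        have h2 := hfeq ⟨f, hf⟩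
        simp only at h2
        rw [SetLike.mem_coe, RingHom.mem_ker, h2, hent, hσ (sf ⟨f, hf⟩) (by simp)]
        simp
      have h3 : Submodule.span _ G0 ≤ RingHom.ker (ev τ) := by
        rw [hspan]
        exact Submodule.span_le.2 h1
      exact fun f hf => h3 (Submodule.subset_span hf)
    apply Units.ext
    rw [Units.val_one, ← sub_eq_zero]
    ext p q
    rw [← hent]
    have : (W r (L s) - 1 : Matrix (Fin r) (Fin r) _) p q ∈ G0 := ⟨s, hs, p, q, rfl⟩
    have h4 := hker this
    rw [SetLike.mem_coe, RingHom.mem_ker] at h4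
    rw [h4]
    simp

end Pool.Agent.H80.E1
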