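import Pool.Agent.H80.E1

namespace Pool.Agent.H80.E2

/-- The condition `C(N,n)` with respect to the family `a`: every product `x₁ x₂ ⋯ x_N`
with all `x_i` in `{a_1, …, a_k} ∪ {1}` has trivial `n`-th power. -/
def CondC {G : Type*} [Group G] {k : ℕ} (a : Fin k → G) (N n : ℕ) : Prop :=
  ∀ l : List G, l.length = N → (∀ x ∈ l, x ∈ Set.range a ∨ x = 1) → l.prod ^ n = 1

/-- `G^n`: the subgroup generated by all `n`-th powers. -/
def powSub (G : Type*) [Group G] (n : ℕ) : Subgroup G :=
  Subgroup.closure (Set.range fun g : G => g ^ n)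

theorem condC_short {G : Type*} [Group G] {k : ℕ} {a : Fin k → G} {N n : ℕ}
    (h : CondC a N n) (l : List (Fin k)) (hl : l.length ≤ N) : (l.map a).prod ^ n = 1 := by
  have := h (l.map a ++ List.replicate (N - l.length) 1) (by simp; omega) (by
    intro x hx
    rcases List.mem_append.1 hx with h1 | h1
    · obtain ⟨i, -, rfl⟩ := List.mem_map.1 h1
      exact Or.inl ⟨i, rfl⟩
    · exact Or.inr (List.eq_of_mem_replicate h1))
  simpa using this

/-- under `C(N,n)` every word of length `ℓ` with `n * ℓ + 1 ≤ N` has trivial `n`-th power. -/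
theorem condC_word {G : Type*} [Group G] {k : ℕ} {a : Fin k → G} {N n : ℕ} (hn : 0 < n)
    (h : CondC a N n) (L : List (Fin k × Bool)) (hL : n * L.length + 1 ≤ N) :
    (FreeGroup.lift a (FreeGroup.mk L)) ^ n = 1 := by
  have key : ∀ L : List (Fin k × Bool), ∃ l : List (Fin k), l.length ≤ n * L.length ∧
      (l.map a).prod = FreeGroup.lift a (FreeGroup.mk L) := by
    intro L
    induction L with
    | nil => exact ⟨[], by simp, by simp⟩
    | cons x L ih =>
      obtain ⟨l, hl, hp⟩ := ih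
      have h1 : FreeGroup.mk (x :: L) = FreeGroup.mk [x] * FreeGroup.mk L := by
        rw [FreeGroup.mul_mk]; rfl
      obtain ⟨i, b⟩ := x
      cases b with
      | true =>
        refine ⟨i :: l, ?_, ?_⟩
        · simp only [List.length_cons]
          nlinarith
        · rw [h1, map_mul, ← hp]
          simp
      | false =>
        refine ⟨List.replicate (n - 1) i ++ l, ?_, ?_⟩
        · simp only [List.length_append, List.length_replicate, List.length_cons]
          have : n * (L.length + 1) = n * L.length + n := by ring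
          omega
        · rw [h1, map_mul, ← hp]
          have h2 : a i ^ n = 1 := by
            have := condC_short h [i] (by simp; omega)
            simpa using this
          have h3 : a i ^ (n - 1) = (a i)⁻¹ := by
            rw [eq_inv_iff_mul_eq_one, ← pow_succ, Nat.sub_add_cancel hn, h2]
          simp [h3]
  obtain ⟨l, hl, hp⟩ := key L
  rw [← hp]
  exact condC_short h l (by omega)

/-- a finitely generated free group has only finitely many subgroups of given finite index -/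
theorem finite_index_eq (k m : ℕ) :
    {H : Subgroup (FreeGroup (Fin k)) | H.index = m ∧ m ≠ 0}.Finite := by
  classical
  let F := FreeGroup (Fin k)
  have hfin : Finite (Fin k → Equiv.Perm (Fin m)) := inferInstance
  have : Finite ((Fin k → Equiv.Perm (Fin m)) × Fin m) := inferInstance
  let Φ : (Fin k → Equiv.Perm (Fin m)) × Fin m → Subgroup F := fun z =>
    (MulAction.stabilizer (Equiv.Perm (Fin m)) z.2).comap (FreeGroup.lift z.1)
  refine (Set.finite_range Φ).subset ?_
  rintro H ⟨hH, hm⟩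
  have hfq : Finite (F ⧸ H) := @Subgroup.finite_quotient_of_finiteIndex _ _ H ⟨by rw [hH]; exact hm⟩
  have hcard : Nat.card (F ⧸ H) = m := hH
  let e : (F ⧸ H) ≃ Fin m := Finite.equivFinOfCardEq hcard
  let θ : F →* Equiv.Perm (Fin m) :=
    (e.permCongrHom.toMonoidHom).comp (MulAction.toPermHom F (F ⧸ H))
  refine ⟨(fun i => θ (FreeGroup.of i), e ((1 : F) : F ⧸ H)), ?_⟩
  have hθ : FreeGroup.lift (fun i => θ (FreeGroup.of i)) = θ := by
    ext i; simp
  ext g
  simp only [Φ, Subgroup.mem_comap, MulAction.mem_stabilizer_iff, hθ]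
  have h1 : θ g • e ((1 : F) : F ⧸ H) = e ((g : F) : F ⧸ H) := by
    simp [θ]
  rw [h1, e.apply_eq_iff_eq]
  rw [eq_comm, QuotientGroup.eq]
  simp

theorem finite_index_le (k M : ℕ) :
    {H : Subgroup (FreeGroup (Fin k)) | H.index ≠ 0 ∧ H.index ≤ M}.Finite := by
  have : {H : Subgroup (FreeGroup (Fin k)) | H.index ≠ 0 ∧ H.index ≤ M} ⊆
      ⋃ m ∈ Set.Iic M, {H : Subgroup (FreeGroup (Fin k)) | H.index = m ∧ m ≠ 0} := by
    rintro H ⟨h1, h2⟩
    simp only [Set.mem_iUnion]
    exact ⟨H.index, h2, rfl, h1⟩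
  exact (Set.Finite.biUnion (Set.finite_Iic M) fun m _ => finite_index_eq k m).subset this


universe u v

theorem local_bound {k n : ℕ} (hn : 0 < n) (r : ℕ) (K : Subgroup (FreeGroup (Fin k)))
    (hK : K.index ≠ 0) :
    ∃ N₀ : ℕ, ∀ (G : Type u) [Group G] (a : Fin k → G) (N : ℕ), N₀ ≤ N → CondC a N n →
      ((FreeGroup.lift a).ker ≤ K → ∀ w : FreeGroup (Fin k), w ^ n ∈ K) ∧
      ∀ (R : Type v) [CommRing R] (σ : K →* Matrix.GeneralLinearGroup (Fin r) R),
        (∀ x : K, FreeGroup.lift a (x : FreeGroup (Fin k)) = 1 → σ x = 1) →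
        ∀ (w : FreeGroup (Fin k)) (hw : w ^ n ∈ K), σ ⟨w ^ n, hw⟩ = 1 := by
  classical
  haveI : K.FiniteIndex := ⟨hK⟩
  haveI : Group.FG K := inferInstance
  obtain ⟨T, hTS, hT⟩ := E1.eqNoeth (H := K) r {h : K | ∃ w : FreeGroup (Fin k), w ^ n = h}
  have h0 : ∃ N₁ : ℕ, (∃ w : FreeGroup (Fin k), w ^ n ∉ K) →
      ∃ w : FreeGroup (Fin k), w ^ n ∉ K ∧ n * w.toWord.length + 1 ≤ N₁ := by
    by_cases hex : ∃ w : FreeGroup (Fin k), w ^ n ∉ K
    · obtain ⟨w, hw⟩ := hex
      exact ⟨n * w.toWord.length + 1, fun _ => ⟨w, hw, le_rfl⟩⟩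
    · exact ⟨0, fun h => absurd h hex⟩
  obtain ⟨N₁, hN₁⟩ := h0
  have hT' : ∀ t : T, ∃ w : FreeGroup (Fin k), w ^ n = ((t : K) : FreeGroup (Fin k)) := fun t => hTS t.2
  choose wt hwt using hT'
  refine ⟨N₁ + ∑ t : T, (n * (wt t).toWord.length + 1), ?_⟩
  intro G _ a N hN hC
  refine ⟨?_, ?_⟩
  · intro hker
    by_contra hcon
    push Not at hcon
    obtain ⟨w, hw, hlen⟩ := hN₁ hcon
    apply hw
    apply hker
    rw [MonoidHom.mem_ker, map_pow]
    have := condC_word hn hC w.toWord (by omega)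
    rwa [FreeGroup.mk_toWord] at this
  · intro R _ σ hσ w hw
    have h1 := hT R σ (fun s hs => ?_) ⟨w ^ n, hw⟩ ⟨w, rfl⟩
    · exact h1
    · apply hσ
      rw [← hwt ⟨s, hs⟩, map_pow]
      have h2 : n * (wt ⟨s, hs⟩).toWord.length + 1 ≤
          ∑ t : T, (n * (wt t).toWord.length + 1) :=
        Finset.single_le_sum (f := fun t : T => n * (wt t).toWord.length + 1)
          (fun _ _ => Nat.zero_le _) (Finset.mem_univ _)
      have := condC_word hn hC (wt ⟨s, hs⟩).toWord (by omega)
      rwa [FreeGroup.mk_toWord] at this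

theorem main {k n : ℕ} (hn : 0 < n) (M r : ℕ) :
    ∃ N : ℕ, ∀ (G : Type u) [Group G] (a : Fin k → G), Subgroup.closure (Set.range a) = ⊤ →
      CondC a N n → ∀ H : Subgroup G, H.index ≠ 0 → H.index ≤ M →
      ∀ (R : Type v) [CommRing R] (ρ : H →* Matrix.GeneralLinearGroup (Fin r) R),
        powSub G n ≤ ρ.ker.map H.subtype := by
  classical
  have hfin := finite_index_le k M
  choose N₀ hN₀ using fun K : {K : Subgroup (FreeGroup (Fin k)) | K.index ≠ 0 ∧ K.index ≤ M} =>
    local_bound.{u, v} hn r K.1 K.2.1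
  haveI : Fintype {K : Subgroup (FreeGroup (Fin k)) | K.index ≠ 0 ∧ K.index ≤ M} := hfin.fintype
  refine ⟨∑ K, N₀ K, ?_⟩
  intro G _ a hgen hC H hH0 hHM R _ ρ
  have hsurj : Function.Surjective (FreeGroup.lift a) := by
    rw [← MonoidHom.range_eq_top, FreeGroup.range_lift_eq_closure, hgen]
  have hidx : (H.comap (FreeGroup.lift a)).index = H.index :=
    Subgroup.index_comap_of_surjective _ hsurj
  let K : {K : Subgroup (FreeGroup (Fin k)) | K.index ≠ 0 ∧ K.index ≤ M} :=
    ⟨H.comap (FreeGroup.lift a), by rw [hidx]; exact hH0, by rw [hidx]; exact hHM⟩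
  obtain ⟨h1, h2⟩ := hN₀ K G a (∑ K, N₀ K)
    (Finset.single_le_sum (f := N₀) (fun _ _ => Nat.zero_le _) (Finset.mem_univ K)) hC
  have hker : (FreeGroup.lift a).ker ≤ K.1 := by
    intro x hx
    change FreeGroup.lift a x ∈ H
    rw [MonoidHom.mem_ker.1 hx]
    exact H.one_mem
  have h3 := h1 hker
  let σ : K.1 →* Matrix.GeneralLinearGroup (Fin r) R :=
    ρ.comp ((FreeGroup.lift a).subgroupComap H)
  have hσ : ∀ x : K.1, FreeGroup.lift a (x : FreeGroup (Fin k)) = 1 → σ x = 1 := by
    intro x hx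
    have : (FreeGroup.lift a).subgroupComap H x = 1 := Subtype.ext hx
    change ρ ((FreeGroup.lift a).subgroupComap H x) = 1
    rw [this, map_one]
  unfold powSub
  rw [Subgroup.closure_le]
  rintro _ ⟨g, rfl⟩
  obtain ⟨w, rfl⟩ := hsurj g
  have h4 := h2 R σ hσ w (h3 w)
  refine ⟨(FreeGroup.lift a).subgroupComap H ⟨w ^ n, h3 w⟩, ?_, ?_⟩
  · exact h4
  · change FreeGroup.lift a (w ^ n) = (FreeGroup.lift a w) ^ n
    rw [map_pow]

end Pool.Agent.H80.E2
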