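import Pool.Agent.H80.E2

namespace Pool.Agent.H80.E3

open Pool.Agent.H80.E2

universe u v

theorem pow_mem_powSub {G : Type*} [Group G] {n : ℕ} (g : G) : g ^ n ∈ powSub G n :=
  Subgroup.subset_closure ⟨g, rfl⟩

theorem powSub_normal {G : Type*} [Group G] {n : ℕ} : (powSub G n).Normal := by
  refine ⟨fun x hx g => ?_⟩
  have h1 : (powSub G n).map (MulAut.conj g).toMonoidHom ≤ powSub G n := by
    unfold powSub
    rw [MonoidHom.map_closure, Subgroup.closure_le]
    rintro _ ⟨_, ⟨y, rfl⟩, rfl⟩
    simp only [map_pow]
    exact Subgroup.subset_closure ⟨_, rfl⟩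
  exact h1 ⟨x, hx, by simp⟩

theorem powSub_eq_bot {G : Type*} [Group G] {n : ℕ} (h : powSub G n = ⊥) (g : G) : g ^ n = 1 := by
  have := pow_mem_powSub (n := n) g
  rw [h] at this
  exact Subgroup.mem_bot.1 this

theorem map_powSub {G H : Type*} [Group G] [Group H] (f : G →* H) (hf : Function.Surjective f)
    (n : ℕ) : (powSub G n).map f = powSub H n := by
  unfold powSub
  rw [MonoidHom.map_closure]
  congr 1
  ext x
  constructor
  · rintro ⟨_, ⟨g, rfl⟩, rfl⟩
    exact ⟨f g, by simp⟩
  · rintro ⟨h, rfl⟩
    obtain ⟨g, rfl⟩ := hf h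
    exact ⟨g ^ n, ⟨g, rfl⟩, by simp⟩

/-- torsion f.g. groups: each derived subgroup has finite index -/
theorem derived_finite_index {G : Type*} [Group G] [Group.FG G] {n : ℕ} (hn : 0 < n)
    (ht : ∀ g : G, g ^ n = 1) (s : ℕ) : (derivedSeries G s).index ≠ 0 := by
  induction s with
  | zero => simp
  | succ s ih =>
    have : (derivedSeries G s).FiniteIndex := ⟨ih⟩
    have : Group.FG (derivedSeries G s) := inferInstance
    set D := derivedSeries G s with hD
    have h1 : (commutator D).index ≠ 0 := by
      have : Finite (D ⧸ commutator D) := by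
        have hsurj : Function.Surjective (Abelianization.of (G := D)) :=
          QuotientGroup.mk_surjective
        have hfg : Group.FG (Abelianization D) := Group.fg_of_surjective hsurj
        have : Finite (Abelianization D) := by
          apply CommGroup.finite_of_fg_isMulTorsion
          intro x
          rw [isOfFinOrder_iff_pow_eq_one]
          refine ⟨n, hn, ?_⟩
          obtain ⟨z, rfl⟩ := hsurj x
          have : z ^ n = 1 := Subtype.ext (ht z)
          rw [← map_pow, this, map_one]
        exact this
      exact Subgroup.index_ne_zero_of_finite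
    have h2 : derivedSeries G (s + 1) = (commutator D).map D.subtype := by
      rw [derivedSeries_succ, commutator_def, Subgroup.map_commutator, ← MonoidHom.range_eq_map,
        Subgroup.range_subtype]
    rw [h2, Subgroup.index_map_of_injective _ D.subtype_injective, Subgroup.range_subtype]
    exact mul_ne_zero h1 ih

/-- uniform bound for the order of `G/G^n` when it is soluble of bounded derived length -/
theorem solv_bound {k n : ℕ} (hn : 0 < n) (s : ℕ) :
    ∃ M : ℕ, ∀ (G : Type u) [Group G] (a : Fin k → G), Subgroup.closure (Set.range a) = ⊤ →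
      derivedSeries G s ≤ powSub G n → (powSub G n).index ≠ 0 ∧ (powSub G n).index ≤ M := by
  let F := FreeGroup (Fin k)
  have hnorm : (powSub F n).Normal := powSub_normal
  let B := F ⧸ powSub F n
  have hB : ∀ g : B, g ^ n = 1 := by
    intro g
    induction g using QuotientGroup.induction_on with
    | H z =>
      rw [← QuotientGroup.mk_pow, QuotientGroup.eq_one_iff]
      exact pow_mem_powSub z
  have hidx := derived_finite_index (G := B) hn hB s
  refine ⟨(derivedSeries B s).index, ?_⟩
  intro G _ a hgen hder
  have hnormG : (powSub G n).Normal := powSub_normal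
  have hsurj : Function.Surjective (FreeGroup.lift a) := by
    rw [← MonoidHom.range_eq_top, FreeGroup.range_lift_eq_closure, hgen]
  let q : B →* G ⧸ powSub G n :=
    QuotientGroup.map (powSub F n) (powSub G n) (FreeGroup.lift a) (by
      rw [← Subgroup.map_le_iff_le_comap, map_powSub _ hsurj])
  have hq : Function.Surjective q := by
    intro y
    induction y using QuotientGroup.induction_on with
    | H z =>
      obtain ⟨w, rfl⟩ := hsurj z
      exact ⟨(w : B), rfl⟩
  have h1 : derivedSeries B s ≤ q.ker := by
    have h2 : (derivedSeries B s).map q = derivedSeries (G ⧸ powSub G n) s :=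
      map_derivedSeries_eq hq s
    have h3 : derivedSeries (G ⧸ powSub G n) s = ⊥ := by
      have h4 : (derivedSeries G s).map (QuotientGroup.mk' (powSub G n)) =
          derivedSeries (G ⧸ powSub G n) s :=
        map_derivedSeries_eq (QuotientGroup.mk'_surjective _) s
      rw [← h4, Subgroup.map_eq_bot_iff, QuotientGroup.ker_mk']
      exact hder
    rw [← Subgroup.map_eq_bot_iff, h2, h3]
  have h5 : q.ker.index = Nat.card (G ⧸ powSub G n) := by
    rw [Subgroup.index_ker, MonoidHom.range_eq_top.2 hq]
    exact Nat.card_congr Subgroup.topEquiv.toEquiv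
  have h6 : q.ker.index ∣ (derivedSeries B s).index := Subgroup.index_dvd_of_le h1
  have h7 : (powSub G n).index = q.ker.index := h5.symm
  rw [h7]
  exact ⟨fun h => hidx (by rw [h] at h6; exact Nat.eq_zero_of_zero_dvd h6),
    Nat.le_of_dvd (Nat.pos_of_ne_zero hidx) h6⟩

/-- the natural injection of a commutative group in the units of its integral group ring,
as a homomorphism to `GL_1`. -/
theorem exists_GL1 (A : Type u) [CommGroup A] :
    ∃ ρ : A →* Matrix.GeneralLinearGroup (Fin 1) (MonoidAlgebra ℤ A), Function.Injective ρ := by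
  let R := MonoidAlgebra ℤ A
  let f : A →* Matrix (Fin 1) (Fin 1) R :=
    (Matrix.scalar (Fin 1) : R →+* Matrix (Fin 1) (Fin 1) R).toMonoidHom.comp
      (MonoidAlgebra.of ℤ A)
  refine ⟨f.toHomUnits, ?_⟩
  intro x y hxy
  have h1 : f x = f y := by
    have := congrArg (fun u : (Matrix (Fin 1) (Fin 1) R)ˣ => (u : Matrix (Fin 1) (Fin 1) R)) hxy
    simpa using this
  have h2 := congrFun (congrFun h1 0) 0
  simp only [f, MonoidHom.comp_apply] at h2
  have h3 : MonoidAlgebra.of ℤ A x = MonoidAlgebra.of ℤ A y := by
    have h4 : ∀ z : R, (Matrix.scalar (Fin 1) z) 0 0 = z := fun z => by simp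
    have h5 := h4 (MonoidAlgebra.of ℤ A x)
    have h6 := h4 (MonoidAlgebra.of ℤ A y)
    exact h5.symm.trans (h2.trans h6)
  exact MonoidAlgebra.of_injective h3

end Pool.Agent.H80.E3
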