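import Pool.Agent.H80.E3

/-! Condition `C(N,n)`: groups whose large sections are linear of bounded degree. -/

namespace Pool.Agent.H80.E4

open Pool.Agent.H80.E2 Pool.Agent.H80.E3

universe u v

/-- `a` generates `G`. -/
def Generates {G : Type*} [Group G] {k : ℕ} (a : Fin k → G) : Prop :=
  Subgroup.closure (Set.range a) = ⊤

/-- The simple group `S` is non-abelian and embeds in `GL_r(R)` for no commutative ring
`R : Type v`. -/
def BigSimple (r : ℕ) (S : Type u) [Group S] : Prop :=
  IsSimpleGroup S ∧ (∃ x y : S, x * y ≠ y * x) ∧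
    ∀ (R : Type v) [CommRing R] (ρ : S →* Matrix.GeneralLinearGroup (Fin r) R),
      ¬ Function.Injective ρ

/-- Some simple quotient of a normal subgroup of `G` is big: for finite `G`, a non-abelian
composition factor of `G` that is not linear of degree `r` over a commutative ring. -/
def HasBigFactor (r : ℕ) (G : Type u) [Group G] : Prop :=
  ∃ (P : Subgroup G) (_ : P.Normal) (Q : Subgroup P) (_ : Q.Normal), BigSimple.{u, v} r (P ⧸ Q)

theorem perfect_of {G : Type u} [Group G] (P : Subgroup G)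
    (h : ∀ (R : Type u) [CommRing R] (ρ : P →* Matrix.GeneralLinearGroup (Fin 1) R),
      P ≤ ρ.ker.map P.subtype) : commutator P = ⊤ := by
  obtain ⟨ρ, hρ⟩ := exists_GL1 (Abelianization P)
  have h1 := h _ (ρ.comp Abelianization.of)
  rw [eq_top_iff]
  rintro x -
  obtain ⟨y, hy, hyx⟩ := h1 x.2
  have hyx' : y = x := Subtype.ext hyx
  subst hyx'
  have h2 : ρ (Abelianization.of y) = 1 := hy
  have h3 : Abelianization.of y = 1 := hρ (by rw [h2, map_one])
  rwa [← MonoidHom.mem_ker, Abelianization.ker_of] at h3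

/-- Main theorem. -/
theorem thmA {k n : ℕ} (hn : 0 < n) (M r : ℕ) :
    ∃ N : ℕ, ∀ (G : Type u) [Group G] (a : Fin k → G), Generates a → CondC a N n →
      ∀ H : Subgroup G, H.index ≠ 0 → H.index ≤ M →
        powSub G n ≤ H ∧
        ∀ (R : Type v) [CommRing R] (ρ : H →* Matrix.GeneralLinearGroup (Fin r) R) (x : H),
          (x : G) ∈ powSub G n → ρ x = 1 := by
  obtain ⟨N, hN⟩ := main.{u, v} (k := k) hn M r
  refine ⟨N, fun G _ a hgen hC H h0 hM => ?_⟩
  have h1 := hN G a hgen hC H h0 hM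
  refine ⟨?_, ?_⟩
  · exact (h1 (PUnit) 1).trans (by
      rintro _ ⟨y, -, rfl⟩
      exact y.2)
  · intro R _ ρ x hx
    obtain ⟨y, hy, hyx⟩ := h1 R ρ hx
    have hyx' : y = x := Subtype.ext hyx
    subst hyx'
    exact hy

theorem condC_mono {G : Type*} [Group G] {k : ℕ} {a : Fin k → G} {N N' n : ℕ} (h : N' ≤ N)
    (hC : CondC a N n) : CondC a N' n := by
  intro l hl hx
  have := hC (l ++ List.replicate (N - N') 1) (by simp; omega) (by
    intro x hx'
    rcases List.mem_append.1 hx' with h1 | h1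
    · exact hx x h1
    · exact Or.inr (List.eq_of_mem_replicate h1))
  simpa using this

/-- `G/G^n` is small: it has at most `M` elements or it is soluble of derived length at most
`s`. -/
def SmallTop (n M s : ℕ) (G : Type*) [Group G] : Prop :=
  ((powSub G n).index ≠ 0 ∧ (powSub G n).index ≤ M) ∨ derivedSeries G s ≤ powSub G n

theorem thmB {k n : ℕ} (hn : 0 < n) (M s r : ℕ) :
    ∃ N : ℕ, ∀ (G : Type u) [Group G] (a : Fin k → G), Generates a → CondC a N n →
      SmallTop n M s G →
        ⁅powSub G n, powSub G n⁆ = powSub G n ∧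
        ∀ (R : Type v) [CommRing R] (ρ : powSub G n →* Matrix.GeneralLinearGroup (Fin r) R),
          ρ = 1 := by
  obtain ⟨M', hM'⟩ := solv_bound.{u} (k := k) hn s
  obtain ⟨N₁, hN₁⟩ := main.{u, v} (k := k) hn (max M M') r
  obtain ⟨N₂, hN₂⟩ := main.{u, u} (k := k) hn (max M M') 1
  refine ⟨max N₁ N₂, fun G _ a hgen hC hs => ?_⟩
  obtain ⟨h0, hM⟩ : (powSub G n).index ≠ 0 ∧ (powSub G n).index ≤ max M M' := by
    rcases hs with h | h
    · exact ⟨h.1, h.2.trans (le_max_left _ _)⟩
    · obtain ⟨h1, h2⟩ := hM' G a hgen h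
      exact ⟨h1, h2.trans (le_max_right _ _)⟩
  have h1 := hN₁ G a hgen (condC_mono (le_max_left _ _) hC) (powSub G n) h0 hM
  have h2 := hN₂ G a hgen (condC_mono (le_max_right _ _) hC) (powSub G n) h0 hM
  refine ⟨?_, ?_⟩
  · have h3 := perfect_of (powSub G n) h2
    have h4 : (commutator (powSub G n)).map (powSub G n).subtype = powSub G n := by
      rw [h3, ← MonoidHom.range_eq_map, Subgroup.range_subtype]
    rw [commutator_def, Subgroup.map_commutator, ← MonoidHom.range_eq_map,
      Subgroup.range_subtype] at h4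
    exact h4
  · intro R _ ρ
    ext1 x
    obtain ⟨y, hy, hyx⟩ := h1 R ρ x.2
    have hyx' : y = x := Subtype.ext hyx
    subst hyx'
    exact hy

theorem perfect_iff {G : Type*} [Group G] (P : Subgroup G) (h : ⁅P, P⁆ = P) :
    commutator P = ⊤ := by
  apply Subgroup.map_injective P.subtype_injective
  rw [commutator_def, Subgroup.map_commutator, ← MonoidHom.range_eq_map, Subgroup.range_subtype, h]

theorem solv_trivial {G : Type*} [Group G] [Group.IsSolvable G] (P : Subgroup G) (h : ⁅P, P⁆ = P) :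
    P = ⊥ := by
  by_contra hP
  have : Nontrivial P := (Subgroup.nontrivial_iff_ne_bot P).2 hP
  have h1 : commutator P < ⊤ := Group.IsSolvable.commutator_lt_top_of_nontrivial P
  exact h1.ne (perfect_iff P h)

theorem thmC {k n : ℕ} (hn : 0 < n) (M s : ℕ) :
    ∃ N : ℕ, ∀ (G : Type u) [Group G] (a : Fin k → G), Generates a → CondC a N n →
      SmallTop n M s G → Group.IsSolvable G → ∀ g : G, g ^ n = 1 := by
  obtain ⟨N, hN⟩ := thmB.{u, u} (k := k) hn M s 1
  refine ⟨N, fun G _ a hgen hC hs hsol => powSub_eq_bot ?_⟩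
  exact solv_trivial _ (hN G a hgen hC hs).1

/-- a nontrivial finite group has a simple quotient -/
theorem exists_simple_quotient (P : Type*) [Group P] [Finite P] [Nontrivial P] :
    ∃ (Q : Subgroup P) (_ : Q.Normal), IsSimpleGroup (P ⧸ Q) := by
  classical
  obtain ⟨Q, hQ⟩ := Set.Finite.exists_maximal
    (s := {Q : Subgroup P | Q.Normal ∧ Q ≠ ⊤}) (Set.toFinite _)
    ⟨⊥, inferInstance, bot_ne_top⟩
  have hQn : Q.Normal := hQ.1.1
  refine ⟨Q, hQn, ?_⟩
  have hnt : Nontrivial (P ⧸ Q) := QuotientGroup.nontrivial_iff.2 hQ.1.2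
  refine ⟨fun K hK => ?_⟩
  have h1 : (K.comap (QuotientGroup.mk' Q)).Normal := inferInstance
  have h2 : Q ≤ K.comap (QuotientGroup.mk' Q) := by
    intro x hx
    rw [Subgroup.mem_comap, QuotientGroup.mk'_apply, (QuotientGroup.eq_one_iff x).2 hx]
    exact K.one_mem
  have hsurj : Function.Surjective (QuotientGroup.mk' Q) := QuotientGroup.mk'_surjective Q
  by_cases h3 : K.comap (QuotientGroup.mk' Q) = ⊤
  · right
    rw [← Subgroup.map_comap_eq_self_of_surjective hsurj K, h3]
    exact Subgroup.map_top_of_surjective _ hsurj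
  · left
    have h4 : K.comap (QuotientGroup.mk' Q) ≤ Q := hQ.2 ⟨h1, h3⟩ h2
    rw [← Subgroup.map_comap_eq_self_of_surjective hsurj K, Subgroup.map_eq_bot_iff,
      QuotientGroup.ker_mk']
    exact h4

theorem thmD {k n : ℕ} (hn : 0 < n) (M s r : ℕ) :
    ∃ N : ℕ, ∀ (G : Type u) [Group G] [Finite G] (a : Fin k → G), Generates a →
      CondC a N n → SmallTop n M s G → ¬ HasBigFactor.{u, v} r G → ∀ g : G, g ^ n = 1 := by
  obtain ⟨N, hN⟩ := thmB.{u, v} (k := k) hn M s r
  refine ⟨N, fun G _ _ a hgen hC hs hbig => powSub_eq_bot ?_⟩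
  obtain ⟨hperf, hrep⟩ := hN G a hgen hC hs
  by_contra hP
  have hnt : Nontrivial (powSub G n) := (Subgroup.nontrivial_iff_ne_bot _).2 hP
  obtain ⟨Q, hQn, hQs⟩ := exists_simple_quotient (powSub G n)
  have hperf' := perfect_iff _ hperf
  have hQtop : Q ≠ ⊤ := QuotientGroup.nontrivial_iff.1 hQs.toNontrivial
  by_cases hab : ∃ x y : (powSub G n) ⧸ Q, x * y ≠ y * x
  · apply hbig
    refine ⟨powSub G n, powSub_normal, Q, hQn, hQs, hab, ?_⟩
    intro R _ ρ hρ
    have h1 := hrep R (ρ.comp (QuotientGroup.mk' Q))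
    apply hQtop
    rw [eq_top_iff]
    rintro x -
    have h2 : ρ (QuotientGroup.mk' Q x) = 1 := by
      have := DFunLike.congr_fun h1 x
      simpa using this
    have h3 : QuotientGroup.mk' Q x = 1 := hρ (by rw [h2, map_one])
    exact (QuotientGroup.eq_one_iff x).1 h3
  · push Not at hab
    apply hQtop
    rw [eq_top_iff, ← hperf', commutator_def, Subgroup.commutator_le]
    intro x _ y _
    rw [← QuotientGroup.eq_one_iff, commutatorElement_def, QuotientGroup.mk_mul,
      QuotientGroup.mk_mul, QuotientGroup.mk_mul, hab (x : (powSub G n) ⧸ Q) y]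
    simp


end Pool.Agent.H80.E4
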