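import Mathlib

/-! Engel conditions: commuting actions and the nilpotent case. -/

namespace Pool.Agent.H80.N1

/-- the map `z ↦ [z,g] = z⁻¹g⁻¹zg` -/
def E {G : Type*} [Group G] (g : G) (z : G) : G := z⁻¹ * g⁻¹ * z * g

theorem E_one {G : Type*} [Group G] (g : G) : E g 1 = 1 := by simp [E]

theorem E_iter_one {G : Type*} [Group G] (g : G) (n : ℕ) : (E g)^[n] 1 = 1 :=
  Function.iterate_fixed (E_one g) n

theorem E_iter_le {G : Type*} [Group G] {g z : G} {m n : ℕ} (h : (E g)^[m] z = 1) (hmn : m ≤ n) :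
    (E g)^[n] z = 1 := by
  obtain ⟨k, rfl⟩ := Nat.exists_eq_add_of_le hmn
  rw [add_comm, Function.iterate_add_apply, h, E_iter_one]

theorem map_E {G Q : Type*} [Group G] [Group Q] (f : G →* Q) (g z : G) :
    f (E g z) = E (f g) (f z) := by simp [E]

theorem map_E_iter {G Q : Type*} [Group G] [Group Q] (f : G →* Q) (g z : G) (n : ℕ) :
    f ((E g)^[n] z) = (E (f g))^[n] (f z) := by
  induction n generalizing z with
  | zero => rfl
  | succ n ih => rw [Function.iterate_succ_apply, Function.iterate_succ_apply, ih, map_E]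

/-- the homomorphism `u ↦ u⁻¹ f(u)` -/
def dh {U : Type*} [CommGroup U] (f : U →* U) : U →* U :=
  MonoidHom.mk' (fun u => u⁻¹ * f u) (by
    intro a b
    rw [map_mul, mul_inv]
    exact mul_mul_mul_comm _ _ _ _)

theorem dh_apply {U : Type*} [CommGroup U] (f : U →* U) (u : U) : dh f u = u⁻¹ * f u := rfl

/-- two commuting endomorphisms of an abelian group acting locally unipotently -/
theorem comm_unipotent {U : Type*} [CommGroup U] (f g : U →* U) (hfg : ∀ u, f (g u) = g (f u)) :
    ∀ (s m l : ℕ), m + l = s → ∀ u : U, (dh f)^[m] u = 1 →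
      (dh g)^[l] u = 1 → (dh (g.comp f))^[s] u = 1 := by
  have hW : ∀ u, dh (g.comp f) u = dh g (f u) * dh f u := by
    intro u
    simp only [dh_apply, MonoidHom.comp_apply]
    have : (f u)⁻¹ * g (f u) * (u⁻¹ * f u) = ((f u)⁻¹ * f u) * (u⁻¹ * g (f u)) := by
      simp only [mul_assoc, mul_comm, mul_left_comm]
    rw [this, inv_mul_cancel, one_mul]
  have hKF : Function.Commute (dh f) (dh g) := by
    intro u
    simp only [dh_apply, map_mul, map_inv, hfg]
    simp only [mul_inv, inv_inv, mul_assoc, mul_comm, mul_left_comm]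
  have hKf : Function.Commute f (dh g) := by
    intro u
    simp only [dh_apply, map_mul, map_inv, hfg]
  have hFf : Function.Commute f (dh f) := by
    intro u
    simp only [dh_apply, map_mul, map_inv]
  intro s
  induction s with
  | zero =>
    intro m l hml u hu _
    have : m = 0 := by omega
    subst this
    exact hu
  | succ s ih =>
    intro m l hml u hm hl
    rw [Function.iterate_succ_apply, hW, iterate_map_mul]
    have e1 : (dh (g.comp f))^[s] (dh g (f u)) = 1 := by
      rcases l with _ | l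
      · have hu1 : u = 1 := hl
        rw [hu1, map_one, map_one]
        exact iterate_map_one _ s
      · apply ih m l (by omega)
        · rw [(hKF.iterate_left m).eq, (hFf.symm.iterate_left m).eq, hm, map_one, map_one]
        · rw [← Function.iterate_succ_apply, (hKf.symm.iterate_left (l + 1)).eq, hl, map_one]
    have e2 : (dh (g.comp f))^[s] (dh f u) = 1 := by
      rcases m with _ | m
      · have hu1 : u = 1 := hm
        rw [hu1, map_one]
        exact iterate_map_one _ s
      · apply ih m l (by omega)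
        · rw [← Function.iterate_succ_apply]; exact hm
        · rw [(hKF.symm.iterate_left l).eq, hl, map_one]
    rw [e1, e2, one_mul]

/-- The abelian step. `U` is an abelian normal subgroup of `Q` commuting with
`h⁻¹k⁻¹hk`, on an element `u` of which `h` and `k` act nilpotently. -/
theorem abelian_step {Q : Type*} [Group Q] (U : Subgroup Q) [hU : U.Normal]
    (hUc : ∀ x ∈ U, ∀ y ∈ U, x * y = y * x) (h k : Q)
    (hc : ∀ x ∈ U, x * (h⁻¹ * k⁻¹ * h * k) = (h⁻¹ * k⁻¹ * h * k) * x)
    (u : Q) (hu : u ∈ U) (hh : ∃ m, (E h)^[m] u = 1) (hk : ∃ m, (E k)^[m] u = 1) :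
    ∃ n, (E (h * k))^[n] u = 1 := by
  obtain ⟨m, hm⟩ := hh
  obtain ⟨l, hl⟩ := hk
  let _ : CommGroup U := { (inferInstance : Group U) with
    mul_comm := fun x y => Subtype.ext (hUc x x.2 y y.2) }
  -- conjugation as an endomorphism
  let cj : Q → (U →* U) := fun a =>
    MonoidHom.mk' (fun x : U => (⟨a⁻¹ * x * a, by
      have := hU.conj_mem x x.2 a⁻¹
      simpa using this⟩ : U)) (by
        intro x y
        apply Subtype.ext
        change a⁻¹ * (x * y) * a = (a⁻¹ * x * a) * (a⁻¹ * y * a)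
        group)
  have hcj : ∀ (a : Q) (x : U), ((cj a x : U) : Q) = a⁻¹ * x * a := fun a x => rfl
  have hE : ∀ (a : Q) (n : ℕ) (x : U), (((dh (cj a))^[n] x : U) : Q) = (E a)^[n] (x : Q) := by
    intro a n
    induction n with
    | zero => intro x; rfl
    | succ n ih =>
      intro x
      rw [Function.iterate_succ_apply, Function.iterate_succ_apply, ih]
      congr 1
      change (x : Q)⁻¹ * (a⁻¹ * x * a) = (x : Q)⁻¹ * a⁻¹ * x * a
      group
  have hcomm : ∀ x : U, cj h (cj k x) = cj k (cj h x) := by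
    intro x
    apply Subtype.ext
    rw [hcj, hcj, hcj, hcj]
    -- `hk = kh c`
    have h1 := hc (h⁻¹ * (k⁻¹ * x * k) * h) (by
      have h2 : k⁻¹ * (x : Q) * k ∈ U := by
        have := hU.conj_mem x x.2 k⁻¹
        simpa using this
      have := hU.conj_mem _ h2 h⁻¹
      simpa using this)
    have h3 : k⁻¹ * (h⁻¹ * (x : Q) * h) * k =
        (h⁻¹ * k⁻¹ * h * k)⁻¹ * (h⁻¹ * (k⁻¹ * x * k) * h * (h⁻¹ * k⁻¹ * h * k)) := by group
    rw [h3, h1]
    group
  refine ⟨m + l, ?_⟩
  have h5 := comm_unipotent (cj h) (cj k) hcomm (m + l) m l rfl ⟨u, hu⟩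
    (Subtype.ext (by rw [hE]; exact hm)) (Subtype.ext (by rw [hE]; exact hl))
  have h6 : (cj k).comp (cj h) = cj (h * k) := by
    ext x
    change k⁻¹ * (h⁻¹ * (x : Q) * h) * k = (h * k)⁻¹ * x * (h * k)
    group
  rw [h6] at h5
  have h7 := congrArg Subtype.val h5
  rw [hE] at h7
  exact h7

/-- The nilpotent case. -/
theorem nilpotent_case {X : Type*} [Group X] (M : Subgroup X) [hM : M.Normal]
    [hnil : Group.IsNilpotent M] (h k : X) (hc : h⁻¹ * k⁻¹ * h * k ∈ M)
    (hh : ∀ z ∈ M, ∃ m, (E h)^[m] z = 1) (hk : ∀ z ∈ M, ∃ m, (E k)^[m] z = 1) :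
    ∀ z ∈ M, ∃ n, (E (h * k))^[n] z = 1 := by
  let W : ℕ → Subgroup X := fun i => (Subgroup.upperCentralSeries M i).map M.subtype
  have hWn : ∀ i, (W i).Normal := fun i => inferInstance
  have hWle : ∀ i, W i ≤ M := by
    rintro i _ ⟨y, -, rfl⟩
    exact y.2
  have hWsucc : ∀ i, ∀ z ∈ W (i + 1), ∀ y ∈ M, z * y * z⁻¹ * y⁻¹ ∈ W i := by
    rintro i _ ⟨z, hz, rfl⟩ y hy
    exact ⟨_, (Subgroup.mem_upperCentralSeries_succ_iff.1 hz) ⟨y, hy⟩, rfl⟩
  have hstep : ∀ i, ∀ z ∈ W (i + 1), ∃ n, (E (h * k))^[n] z ∈ W i := by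
    intro i z hz
    have : (W i).Normal := hWn i
    let π : X →* X ⧸ W i := QuotientGroup.mk' (W i)
    have hπ : Function.Surjective π := QuotientGroup.mk'_surjective _
    have hUn : ((W (i + 1)).map π).Normal := (hWn (i + 1)).map _ hπ
    have hcomm : ∀ x ∈ (W (i + 1)).map π, ∀ y ∈ M, x * π y = π y * x := by
      rintro _ ⟨x, hx, rfl⟩ y hy
      have h1 := hWsucc i x hx y hy
      have h2 : π (x * y * x⁻¹ * y⁻¹) = 1 := (QuotientGroup.eq_one_iff _).2 h1
      rw [map_mul, map_mul, map_mul, map_inv, map_inv, mul_inv_eq_one, mul_inv_eq_iff_eq_mul] at h2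
      exact h2
    obtain ⟨n, hn⟩ := abelian_step ((W (i + 1)).map π) (by
      rintro x hx _ ⟨y, hy, rfl⟩
      exact hcomm x hx y (hWle _ hy)) (π h) (π k) (by
      intro x hx
      have h1 := hcomm x hx _ hc
      rw [map_mul, map_mul, map_mul, map_inv, map_inv] at h1
      exact h1) (π z) ⟨z, hz, rfl⟩ (by
      obtain ⟨m, hm⟩ := hh z (hWle _ hz)
      exact ⟨m, by rw [← map_E_iter, hm, map_one]⟩) (by
      obtain ⟨m, hm⟩ := hk z (hWle _ hz)
      exact ⟨m, by rw [← map_E_iter, hm, map_one]⟩)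
    refine ⟨n, ?_⟩
    rw [← map_mul, ← map_E_iter] at hn
    exact (QuotientGroup.eq_one_iff _).1 hn
  have hall : ∀ i, ∀ z ∈ W i, ∃ n, (E (h * k))^[n] z = 1 := by
    intro i
    induction i with
    | zero =>
      rintro _ ⟨z, hz, rfl⟩
      refine ⟨0, ?_⟩
      have : z = 1 := by simpa using hz
      rw [this]
      rfl
    | succ i ih =>
      intro z hz
      obtain ⟨n, hn⟩ := hstep i z hz
      obtain ⟨m, hm⟩ := ih _ hn
      exact ⟨m + n, by rw [Function.iterate_add_apply]; exact hm⟩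
  obtain ⟨c, hcl⟩ := hnil.nilpotent'
  intro z hz
  apply hall c z
  refine ⟨⟨z, hz⟩, ?_, rfl⟩
  rw [hcl]
  trivial

end Pool.Agent.H80.N1
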