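import Pool.Agent.H80.N1

/-! Engel conditions: finitely generated invariant subgroups and the main theorem. -/

namespace Pool.Agent.H80.N2

open Pool.Agent.H80.N1

/-- the subgroup generated by all conjugates of elements of `N` under powers of `a` -/
def cl {G : Type*} [Group G] (a : G) (N : Subgroup G) : Subgroup G :=
  Subgroup.closure {x | ∃ (j : ℤ) (s : G), s ∈ N ∧ x = a ^ (-j) * s * a ^ j}

theorem mem_cl {G : Type*} [Group G] (a : G) (N : Subgroup G) (j : ℤ) {s : G} (hs : s ∈ N) :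
    a ^ (-j) * s * a ^ j ∈ cl a N := Subgroup.subset_closure ⟨j, s, hs, rfl⟩

theorem le_cl {G : Type*} [Group G] (a : G) (N : Subgroup G) : N ≤ cl a N := by
  intro s hs
  have := mem_cl a N 0 hs
  simpa using this

/-- conjugation by `b` maps `closure S` into `P` as soon as it maps `S` into `P` -/
theorem conj_closure {G : Type*} [Group G] (b : G) (S : Set G) (P : Subgroup G)
    (h : ∀ s ∈ S, b⁻¹ * s * b ∈ P) : ∀ x ∈ Subgroup.closure S, b⁻¹ * x * b ∈ P := by
  intro x hx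
  have h1 : Subgroup.closure S ≤ P.comap (MulAut.conj b⁻¹).toMonoidHom := by
    rw [Subgroup.closure_le]
    intro s hs
    change b⁻¹ * s * b⁻¹⁻¹ ∈ P
    rw [inv_inv]
    exact h s hs
  have h2 := h1 hx
  change b⁻¹ * x * b⁻¹⁻¹ ∈ P at h2
  rwa [inv_inv] at h2

theorem cl_conj {G : Type*} [Group G] (a : G) (N : Subgroup G) (i : ℤ) :
    ∀ x ∈ cl a N, a ^ (-i) * x * a ^ i ∈ cl a N := by
  intro x hx
  have := conj_closure (a ^ i) _ (cl a N) (by
    rintro _ ⟨j, s, hs, rfl⟩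
    have h1 := mem_cl a N (j + i) hs
    have h2 : (a ^ i)⁻¹ * (a ^ (-j) * s * a ^ j) * a ^ i = a ^ (-(j + i)) * s * a ^ (j + i) := by
      rw [zpow_add, neg_add_rev, zpow_add, zpow_neg a i]
      group
    rw [h2]; exact h1) x hx
  rw [zpow_neg]
  exact this

theorem cl_le {G : Type*} [Group G] (a : G) (N D : Subgroup G) [hD : D.Normal] (hND : N ≤ D) :
    cl a N ≤ D := by
  unfold cl
  rw [Subgroup.closure_le]
  rintro _ ⟨j, s, hs, rfl⟩
  have := hD.conj_mem s (hND hs) (a ^ (-j))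
  rw [← zpow_neg, neg_neg] at this
  exact this

/-- one-sided finiteness -/
theorem half {G : Type*} [Group G] (a s : G) (m : ℕ) (hm : (E a)^[m] s = 1) :
    ∀ i : ℕ, (a⁻¹) ^ i * s * a ^ i ∈
      Subgroup.closure {x | ∃ i : ℕ, i < m ∧ x = (a⁻¹) ^ i * s * a ^ i} := by
  let P : ℕ → Subgroup G := fun j =>
    Subgroup.closure {x | ∃ i : ℕ, i < j ∧ x = (a⁻¹) ^ i * s * a ^ i}
  have hmono : ∀ j, P j ≤ P (j + 1) := by
    intro j
    apply Subgroup.closure_mono
    rintro x ⟨i, hi, rfl⟩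
    exact ⟨i, by omega, rfl⟩
  have hshift : ∀ j, ∀ x ∈ P j, a⁻¹ * x * a ∈ P (j + 1) := by
    intro j
    apply conj_closure
    rintro _ ⟨i, hi, rfl⟩
    apply Subgroup.subset_closure
    exact ⟨i + 1, by omega, by rw [pow_succ', pow_succ]; group⟩
  have hgen : ∀ j, (a⁻¹) ^ j * s * a ^ j ∈ P (j + 1) := by
    intro j
    apply Subgroup.subset_closure
    exact ⟨j, by omega, rfl⟩
  have hform : ∀ j : ℕ, ∃ u ∈ P j, (E a)^[j] s = u * ((a⁻¹) ^ j * s * a ^ j) := by
    intro j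
    induction j with
    | zero => exact ⟨1, Subgroup.one_mem _, by simp⟩
    | succ j ih =>
      obtain ⟨u, hu, hj⟩ := ih
      rw [Function.iterate_succ_apply', hj]
      refine ⟨((a⁻¹) ^ j * s * a ^ j)⁻¹ * u⁻¹ * (a⁻¹ * u * a), ?_, ?_⟩
      · exact (P (j + 1)).mul_mem ((P (j + 1)).mul_mem ((P (j + 1)).inv_mem (hgen j))
          ((P (j + 1)).inv_mem (hmono j hu))) (hshift j u hu)
      · unfold E
        rw [pow_succ' a⁻¹ j, pow_succ a j]
        group
  have hmP : (a⁻¹) ^ m * s * a ^ m ∈ P m := by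
    obtain ⟨u, hu, h⟩ := hform m
    rw [hm] at h
    have : (a⁻¹) ^ m * s * a ^ m = u⁻¹ := (inv_eq_of_mul_eq_one_right h.symm).symm
    rw [this]
    exact (P m).inv_mem hu
  have hinv : ∀ x ∈ P m, a⁻¹ * x * a ∈ P m := by
    apply conj_closure
    rintro _ ⟨i, hi, rfl⟩
    have h1 : a⁻¹ * ((a⁻¹) ^ i * s * a ^ i) * a = (a⁻¹) ^ (i + 1) * s * a ^ (i + 1) := by
      rw [pow_succ', pow_succ a i]; group
    rw [h1]
    by_cases him : i + 1 < m
    · exact Subgroup.subset_closure ⟨i + 1, him, rfl⟩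
    · have : i + 1 = m := by omega
      rw [this]
      exact hmP
  intro i
  change (a⁻¹) ^ i * s * a ^ i ∈ P m
  induction i with
  | zero =>
    rcases m with _ | m
    · have : s = 1 := hm
      rw [this]
      simp
    · exact Subgroup.subset_closure ⟨0, by omega, rfl⟩
  | succ i ih =>
    have h1 : a⁻¹ * ((a⁻¹) ^ i * s * a ^ i) * a = (a⁻¹) ^ (i + 1) * s * a ^ (i + 1) := by
      rw [pow_succ', pow_succ a i]; group
    rw [← h1]
    exact hinv _ ih

/-- The closure is finitely generated. -/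
theorem cl_fg {G : Type*} [Group G] (a : G) (N : Subgroup G) (hN : N.FG)
    (h1 : ∀ s ∈ N, ∃ m, (E a)^[m] s = 1) (h2 : ∀ s ∈ N, ∃ m, (E a⁻¹)^[m] s = 1) :
    (cl a N).FG := by
  classical
  obtain ⟨S, hS⟩ := hN
  have hSN : ∀ s ∈ S, s ∈ N := fun s hs => by rw [← hS]; exact Subgroup.subset_closure hs
  choose! m hm using h1
  choose! l hl using h2
  let T : G → Set G := fun s =>
    {x | ∃ i : ℕ, i < m s ∧ x = (a⁻¹) ^ i * s * a ^ i} ∪
    {x | ∃ i : ℕ, i < l s ∧ x = (a⁻¹⁻¹) ^ i * s * (a⁻¹) ^ i}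
  have hTfin : ∀ s, (T s).Finite := by
    intro s
    apply Set.Finite.union
    · have : {x | ∃ i : ℕ, i < m s ∧ x = (a⁻¹) ^ i * s * a ^ i} =
          (fun i : ℕ => (a⁻¹) ^ i * s * a ^ i) '' Set.Iio (m s) := by
        ext x
        constructor
        · rintro ⟨i, hi, rfl⟩; exact ⟨i, hi, rfl⟩
        · rintro ⟨i, hi, rfl⟩; exact ⟨i, hi, rfl⟩
      rw [this]
      exact (Set.finite_Iio _).image _
    · have : {x | ∃ i : ℕ, i < l s ∧ x = (a⁻¹⁻¹) ^ i * s * (a⁻¹) ^ i} =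
          (fun i : ℕ => (a⁻¹⁻¹) ^ i * s * (a⁻¹) ^ i) '' Set.Iio (l s) := by
        ext x
        constructor
        · rintro ⟨i, hi, rfl⟩; exact ⟨i, hi, rfl⟩
        · rintro ⟨i, hi, rfl⟩; exact ⟨i, hi, rfl⟩
      rw [this]
      exact (Set.finite_Iio _).image _
  rw [Subgroup.fg_iff]
  refine ⟨⋃ s ∈ S, T s, ?_, ?_⟩
  · apply le_antisymm
    · rw [Subgroup.closure_le]
      intro x hx
      simp only [Set.mem_iUnion] at hx
      obtain ⟨s, hs, hx⟩ := hx
      rcases hx with ⟨i, -, rfl⟩ | ⟨i, -, rfl⟩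
      · have := mem_cl a N (i : ℤ) (hSN s hs)
        rw [zpow_neg, zpow_natCast, ← inv_pow] at this
        exact this
      · have := mem_cl a N (-(i : ℤ)) (hSN s hs)
        rw [neg_neg, zpow_neg, zpow_natCast, ← inv_pow] at this
        rw [inv_inv]
        exact this
    · unfold cl
      rw [Subgroup.closure_le]
      rintro _ ⟨j, n, hn, rfl⟩
      rw [← hS] at hn
      have hkey : ∀ s ∈ (S : Set G), (a ^ j)⁻¹ * s * a ^ j ∈
          Subgroup.closure (⋃ s ∈ S, T s) := by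
        intro s hs
        have hsub : T s ⊆ ⋃ s ∈ S, T s := by
          intro x hx
          simp only [Set.mem_iUnion]
          exact ⟨s, hs, hx⟩
        rcases Int.eq_nat_or_neg j with ⟨i, hij | hij⟩
        · have h3 := half a s (m s) (hm s (hSN s hs)) i
          rw [hij, zpow_natCast, ← inv_pow]
          exact Subgroup.closure_mono (Set.subset_union_left.trans hsub) h3
        · have h3 := half a⁻¹ s (l s) (hl s (hSN s hs)) i
          rw [hij, zpow_neg, zpow_natCast, ← inv_pow, ← inv_pow]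
          exact Subgroup.closure_mono (Set.subset_union_right.trans hsub) h3
      have h4 := conj_closure (a ^ j) (S : Set G) _ hkey n hn
      rw [SetLike.mem_coe, zpow_neg]
      exact h4
  · exact Set.Finite.biUnion S.finite_toSet fun s _ => hTfin s

/-- If `N` is invariant under conjugation by `b` and `k⁻¹b⁻¹kb` lies in the `k`-closure of `N`,
then this `k`-closure is invariant under conjugation by `b`. -/
theorem cl_invariant {G : Type*} [Group G] (b k : G) (N : Subgroup G)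
    (hN : ∀ x ∈ N, b⁻¹ * x * b ∈ N) (hc : k⁻¹ * b⁻¹ * k * b ∈ cl k N) :
    ∀ x ∈ cl k N, b⁻¹ * x * b ∈ cl k N := by
  have hk1 : ∀ x ∈ cl k N, k⁻¹ * x * k ∈ cl k N := by
    intro x hx
    have := cl_conj k N 1 x hx
    simpa using this
  have hk2 : ∀ x ∈ cl k N, k * x * k⁻¹ ∈ cl k N := by
    intro x hx
    have := cl_conj k N (-1) x hx
    simpa using this
  have hd : ∀ j : ℤ, k ^ (-j) * b⁻¹ * k ^ j * b ∈ cl k N := by
    intro j
    induction j with
    | zero => simp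
    | succ i ih =>
      have h1 : k ^ (-((i : ℤ) + 1)) * b⁻¹ * k ^ ((i : ℤ) + 1) * b =
          (k⁻¹ * (k ^ (-(i : ℤ)) * b⁻¹ * k ^ (i : ℤ) * b) * k) * (k⁻¹ * b⁻¹ * k * b) := by
        rw [neg_add_rev, zpow_add, zpow_add]
        group
      rw [h1]
      exact (cl k N).mul_mem (hk1 _ ih) hc
    | pred i ih =>
      have h1 : k ^ (-(-(i : ℤ) - 1)) * b⁻¹ * k ^ (-(i : ℤ) - 1) * b =
          k * ((k ^ (-(-(i : ℤ))) * b⁻¹ * k ^ (-(i : ℤ)) * b) * (k⁻¹ * b⁻¹ * k * b)⁻¹) * k⁻¹ := by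
        have e1 : k ^ (-(-(i : ℤ) - 1)) = k * k ^ (-(-(i : ℤ))) := by
          rw [show -(-(i : ℤ) - 1) = 1 + -(-(i : ℤ)) by ring, zpow_add, zpow_one]
        have e2 : k ^ (-(i : ℤ) - 1) = k ^ (-(i : ℤ)) * k⁻¹ := by
          rw [sub_eq_add_neg, zpow_add, zpow_neg_one]
        rw [e1, e2]
        group
      rw [h1]
      exact hk2 _ ((cl k N).mul_mem ih ((cl k N).inv_mem hc))
  apply conj_closure
  rintro _ ⟨j, s, hs, rfl⟩
  have h1 : b⁻¹ * (k ^ (-j) * s * k ^ j) * b =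
      (k ^ (-j) * b⁻¹ * k ^ j * b)⁻¹ * (k ^ (-j) * (b⁻¹ * s * b) * k ^ j) *
        (k ^ (-j) * b⁻¹ * k ^ j * b) := by
    rw [zpow_neg]
    generalize k ^ j = K
    group
  rw [h1]
  exact (cl k N).mul_mem ((cl k N).mul_mem ((cl k N).inv_mem (hd j)) (mem_cl k N j (hN s hs)))
    (hd j)

/-- reduction modulo a subgroup modulo which the two factors commute -/
theorem mod_step {G : Type*} [Group G] (H K : Subgroup G) (D : Subgroup G) [D.Normal]
    (hD : ⁅H, K⁆ ≤ D) (h k x₁ x₂ : G) (hh : h ∈ H) (hk : k ∈ K) (hx₁ : x₁ ∈ H) (hx₂ : x₂ ∈ K)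
    (h1 : ∃ n, (E h)^[n] x₁ = 1) (h2 : ∃ n, (E k)^[n] x₂ = 1) :
    ∃ n, (E (h * k))^[n] (x₁ * x₂) ∈ D := by
  let π : G →* G ⧸ D := QuotientGroup.mk' D
  have hcomm : ∀ a ∈ H, ∀ b ∈ K, π a * π b = π b * π a := by
    intro a ha b hb
    have h3 : a * b * a⁻¹ * b⁻¹ ∈ D := hD (Subgroup.commutator_mem_commutator ha hb)
    have h4 : π (a * b * a⁻¹ * b⁻¹) = 1 := (QuotientGroup.eq_one_iff _).2 h3
    rw [map_mul, map_mul, map_mul, map_inv, map_inv, mul_inv_eq_one, mul_inv_eq_iff_eq_mul] at h4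
    exact h4
  have hEH : ∀ (n : ℕ), ∀ a ∈ H, (E h)^[n] a ∈ H := by
    intro n
    induction n with
    | zero => intro a ha; exact ha
    | succ n ih =>
      intro a ha
      rw [Function.iterate_succ_apply]
      apply ih
      exact H.mul_mem (H.mul_mem (H.mul_mem (H.inv_mem ha) (H.inv_mem hh)) ha) hh
  have hEK : ∀ (n : ℕ), ∀ a ∈ K, (E k)^[n] a ∈ K := by
    intro n
    induction n with
    | zero => intro a ha; exact ha
    | succ n ih =>
      intro a ha
      rw [Function.iterate_succ_apply]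
      apply ih
      exact K.mul_mem (K.mul_mem (K.mul_mem (K.inv_mem ha) (K.inv_mem hk)) ha) hk
  have key : ∀ n : ℕ, ∀ a ∈ H, ∀ b ∈ K,
      (E (π h * π k))^[n] (π a * π b) = π ((E h)^[n] a) * π ((E k)^[n] b) := by
    intro n
    induction n with
    | zero => intro a _ b _; rfl
    | succ n ih =>
      intro a ha b hb
      rw [Function.iterate_succ_apply]
      have h5 : E (π h * π k) (π a * π b) = π (E h a) * π (E k b) := by
        rw [map_E, map_E]
        have c1 : Commute (π a) (π b) := hcomm a ha b hb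
        have c2 : Commute (π a) (π k) := hcomm a ha k hk
        have c3 : Commute (π h) (π b) := hcomm h hh b hb
        have c4 : Commute (π h) (π k) := hcomm h hh k hk
        unfold E
        rw [mul_inv_rev, mul_inv_rev]
        calc (π b)⁻¹ * (π a)⁻¹ * ((π k)⁻¹ * (π h)⁻¹) * (π a * π b) * (π h * π k)
            = (π b)⁻¹ * ((π a)⁻¹ * (π k)⁻¹) * (π h)⁻¹ * π a * (π b * π h) * π k := by group
          _ = (π b)⁻¹ * ((π k)⁻¹ * (π a)⁻¹) * (π h)⁻¹ * π a * (π h * π b) * π k := by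
              rw [(c2.inv_inv).eq, ← c3.eq]
          _ = ((π b)⁻¹ * (π k)⁻¹) * (E (π h) (π a)) * (π b * π k) := by
              unfold E; group
          _ = (E (π h) (π a)) * ((π b)⁻¹ * (π k)⁻¹) * (π b * π k) := by
              have c5 : Commute (E (π h) (π a)) ((π b)⁻¹ * (π k)⁻¹) := by
                unfold E
                have d1 : Commute (π a) ((π b)⁻¹ * (π k)⁻¹) := c1.inv_right.mul_right c2.inv_right
                have d2 : Commute (π h) ((π b)⁻¹ * (π k)⁻¹) := c3.inv_right.mul_right c4.inv_right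
                exact ((d1.inv_left.mul_left d2.inv_left).mul_left d1).mul_left d2
              rw [c5.eq]
          _ = _ := by unfold E; group
      rw [h5, ih (E h a) (hEH 1 a ha) (E k b) (hEK 1 b hb)]
      rfl
  obtain ⟨n, hn1⟩ := h1
  obtain ⟨m, hm1⟩ := h2
  refine ⟨n + m, ?_⟩
  rw [← QuotientGroup.eq_one_iff]
  change π _ = 1
  rw [map_E_iter, map_mul, map_mul, key (n + m) x₁ hx₁ x₂ hx₂, E_iter_le hn1 (by omega),
    E_iter_le hm1 (by omega), map_one, one_mul]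

/-- **Main theorem.** If `G = HK` with `H`, `K` normal Engel subgroups and `[H,K]` locally
nilpotent then `G` is Engel. -/
theorem main {G : Type*} [Group G] (H K : Subgroup G) (hH : H.Normal) (hK : K.Normal)
    (htop : H ⊔ K = ⊤) (eH : ∀ x ∈ H, ∀ g ∈ H, ∃ n, (E g)^[n] x = 1)
    (eK : ∀ x ∈ K, ∀ g ∈ K, ∃ n, (E g)^[n] x = 1)
    (hloc : ∀ M : Subgroup G, M ≤ ⁅H, K⁆ → M.FG → Group.IsNilpotent M) :
    ∀ x g : G, ∃ n, (E g)^[n] x = 1 := by
  have hdec : ∀ x : G, ∃ h ∈ H, ∃ k ∈ K, x = h * k := by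
    intro x
    have hx : x ∈ ((H ⊔ K : Subgroup G) : Set G) := by rw [htop]; trivial
    rw [Subgroup.mul_normal] at hx
    obtain ⟨h, hh, k, hk, rfl⟩ := hx
    exact ⟨h, hh, k, hk, rfl⟩
  have hDH : ⁅H, K⁆ ≤ H := Subgroup.commutator_le_left H K
  have hDK : ⁅H, K⁆ ≤ K := Subgroup.commutator_le_right H K
  have hDn : (⁅H, K⁆ : Subgroup G).Normal := Subgroup.commutator_normal H K
  intro x g
  obtain ⟨h, hh, k, hk, rfl⟩ := hdec g
  obtain ⟨x₁, hx₁, x₂, hx₂, rfl⟩ := hdec x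
  obtain ⟨n, hn⟩ := mod_step H K ⁅H, K⁆ le_rfl h k x₁ x₂ hh hk hx₁ hx₂
    (eH x₁ hx₁ h hh) (eK x₂ hx₂ k hk)
  set y := (E (h * k))^[n] (x₁ * x₂) with hy
  -- the finitely generated invariant subgroup
  set c := h⁻¹ * k⁻¹ * h * k with hcdef
  have hcD : c ∈ ⁅H, K⁆ := by
    have := Subgroup.commutator_mem_commutator (H.inv_mem hh) (K.inv_mem hk)
    rw [commutatorElement_def, inv_inv, inv_inv] at this
    exact this
  let N₀ : Subgroup G := Subgroup.closure {y, c}
  have hN₀D : N₀ ≤ ⁅H, K⁆ := by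
    rw [Subgroup.closure_le]
    rintro z (rfl | rfl)
    · exact hn
    · exact hcD
  have hN₀fg : N₀.FG := by
    rw [Subgroup.fg_iff]
    exact ⟨{y, c}, rfl, by simp⟩
  let N₁ : Subgroup G := cl h N₀
  have hN₁D : N₁ ≤ ⁅H, K⁆ := cl_le h N₀ _ hN₀D
  have hN₁fg : N₁.FG := cl_fg h N₀ hN₀fg
    (fun s hs => eH s (hDH (hN₀D hs)) h hh) (fun s hs => eH s (hDH (hN₀D hs)) h⁻¹ (H.inv_mem hh))
  let M : Subgroup G := cl k N₁
  have hMD : M ≤ ⁅H, K⁆ := cl_le k N₁ _ hN₁D
  have hMfg : M.FG := cl_fg k N₁ hN₁fg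
    (fun s hs => eK s (hDK (hN₁D hs)) k hk) (fun s hs => eK s (hDK (hN₁D hs)) k⁻¹ (K.inv_mem hk))
  have hMnil : Group.IsNilpotent M := hloc M hMD hMfg
  have hcN₀ : c ∈ N₀ := Subgroup.subset_closure (by simp)
  have hyM : y ∈ M := le_cl k N₁ (le_cl h N₀ (Subgroup.subset_closure (by simp)))
  have hcN₁ : c ∈ N₁ := le_cl h N₀ hcN₀
  have hcM : c ∈ M := le_cl k N₁ hcN₁
  -- invariance of `N₁` under `h`
  have hN₁h : ∀ x ∈ N₁, h⁻¹ * x * h ∈ N₁ := by
    intro x hx
    have := cl_conj h N₀ 1 x hx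
    simpa using this
  have hN₁h' : ∀ x ∈ N₁, h * x * h⁻¹ ∈ N₁ := by
    intro x hx
    have := cl_conj h N₀ (-1) x hx
    simpa using this
  have hMk : ∀ x ∈ M, k⁻¹ * x * k ∈ M := by
    intro x hx
    have := cl_conj k N₁ 1 x hx
    simpa using this
  have hMk' : ∀ x ∈ M, k * x * k⁻¹ ∈ M := by
    intro x hx
    have := cl_conj k N₁ (-1) x hx
    simpa using this
  have hMh : ∀ x ∈ M, h⁻¹ * x * h ∈ M :=
    cl_invariant h k N₁ hN₁h (by
      have : k⁻¹ * h⁻¹ * k * h = c⁻¹ := by rw [hcdef]; group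
      rw [this]
      exact M.inv_mem hcM)
  have hMh' : ∀ x ∈ M, h * x * h⁻¹ ∈ M := by
    have := cl_invariant h⁻¹ k N₁ (by simpa using hN₁h') (by
      have : k⁻¹ * h⁻¹⁻¹ * k * h⁻¹ = h * c * h⁻¹ := by rw [hcdef]; group
      rw [this]
      exact le_cl k N₁ (hN₁h' c hcN₁))
    simpa using this
  -- pass to the normaliser of `M`
  let X : Subgroup G := Subgroup.normalizer (M : Set G)
  have hhX : h ∈ X := by
    intro z
    constructor
    · intro hz; exact hMh' z hz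
    · intro hz
      have := hMh _ hz
      have e : h⁻¹ * (h * z * h⁻¹) * h = z := by group
      rwa [e] at this
  have hkX : k ∈ X := by
    intro z
    constructor
    · intro hz; exact hMk' z hz
    · intro hz
      have := hMk _ hz
      have e : k⁻¹ * (k * z * k⁻¹) * k = z := by group
      rwa [e] at this
  have hMX : M ≤ X := Subgroup.le_normalizer
  let M' : Subgroup X := M.subgroupOf X
  have hM'n : M'.Normal := Subgroup.normal_in_normalizer
  have hM'nil : Group.IsNilpotent M' :=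
    (Group.isNilpotent_congr (Subgroup.subgroupOfEquivOfLe hMX)).2 hMnil
  obtain ⟨m, hm⟩ := nilpotent_case M' ⟨h, hhX⟩ ⟨k, hkX⟩ hcM (by
    intro z hz
    obtain ⟨m, hm⟩ := eH z (hDH (hMD hz)) h hh
    refine ⟨m, Subtype.ext ?_⟩
    have := map_E_iter X.subtype ⟨h, hhX⟩ z m
    exact this.trans hm) (by
    intro z hz
    obtain ⟨m, hm⟩ := eK z (hDK (hMD hz)) k hk
    refine ⟨m, Subtype.ext ?_⟩
    have := map_E_iter X.subtype ⟨k, hkX⟩ z m
    exact this.trans hm) ⟨y, hMX hyM⟩ hyM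
  refine ⟨m + n, ?_⟩
  rw [Function.iterate_add_apply, ← hy]
  have h1 := map_E_iter X.subtype (⟨h, hhX⟩ * ⟨k, hkX⟩) ⟨y, hMX hyM⟩ m
  rw [hm, map_one] at h1
  exact h1.symm

end Pool.Agent.H80.N2
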