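import Mathlib

/-! Every large finite group has a large abelian subgroup (explicit bound). -/

namespace Pool.Agent.H80.P1

/-- a nontrivial normal subgroup of a finite `p`-group contains a nontrivial central element -/
theorem exists_central {p : ℕ} [hp : Fact p.Prime] {Q : Type*} [Group Q] [Finite Q]
    (hQ : IsPGroup p Q) (N : Subgroup Q) [N.Normal] (hN : N ≠ ⊥) :
    ∃ x ∈ N, x ≠ 1 ∧ ∀ g : Q, g * x = x * g := by
  have hnt : Nontrivial N := (Subgroup.nontrivial_iff_ne_bot N).2 hN
  have hdvd : p ∣ Nat.card N := by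
    obtain ⟨n, hn0, hn⟩ := (hQ.to_subgroup N).nontrivial_iff_card.mp hnt
    exact hn.symm ▸ dvd_pow_self _ (ne_of_gt hn0)
  have h := (hQ.of_equiv ConjAct.toConjAct).exists_fixed_point_of_prime_dvd_card_of_fixed_point N
    hdvd (a := (1 : N)) (by
      intro g
      exact smul_one g)
  obtain ⟨b, hb, hb1⟩ := h
  refine ⟨b, b.2, fun h => hb1 (Subtype.ext h.symm), fun g => ?_⟩
  have h2 := hb (ConjAct.toConjAct g)
  have h3 : g * (b : Q) * g⁻¹ = b := congrArg Subtype.val h2
  rw [mul_inv_eq_iff_eq_mul] at h3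
  exact h3

/-- a finite `p`-group has an abelian normal subgroup containing its centraliser -/
theorem exists_selfcentralizing {p : ℕ} [hp : Fact p.Prime] {P : Type*} [Group P] [Finite P]
    (hP : IsPGroup p P) :
    ∃ A : Subgroup P, A.Normal ∧ (∀ x ∈ A, ∀ y ∈ A, x * y = y * x) ∧
      ∀ c : P, (∀ x ∈ A, c * x = x * c) → c ∈ A := by
  obtain ⟨A, hA⟩ := Set.Finite.exists_maximal
    (s := {A : Subgroup P | A.Normal ∧ ∀ x ∈ A, ∀ y ∈ A, x * y = y * x}) (Set.toFinite _)
    ⟨⊥, inferInstance, by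
      intro x hx y hy
      rw [Subgroup.mem_bot] at hx hy
      rw [hx, hy]⟩
  obtain ⟨⟨hAn, hAc⟩, hmax⟩ := hA
  refine ⟨A, hAn, hAc, ?_⟩
  by_contra hcon
  push Not at hcon
  obtain ⟨c₀, hc₀, hc₀A⟩ := hcon
  let C : Subgroup P := Subgroup.centralizer (A : Set P)
  have hCmem : ∀ c : P, c ∈ C ↔ ∀ x ∈ A, x * c = c * x := fun c => Subgroup.mem_centralizer_iff
  have hCn : C.Normal := by
    refine ⟨fun c hc g => ?_⟩
    rw [hCmem] at hc ⊢
    intro x hx
    have h1 := hc (g⁻¹ * x * g) (by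
      have := hAn.conj_mem x hx g⁻¹
      simpa using this)
    calc x * (g * c * g⁻¹) = g * ((g⁻¹ * x * g) * c) * g⁻¹ := by group
      _ = g * (c * (g⁻¹ * x * g)) * g⁻¹ := by rw [h1]
      _ = g * c * g⁻¹ * x := by group
  have hN : (C.map (QuotientGroup.mk' A)).Normal :=
    hCn.map _ (QuotientGroup.mk'_surjective A)
  have hNne : C.map (QuotientGroup.mk' A) ≠ ⊥ := by
    intro h
    rw [Subgroup.map_eq_bot_iff, QuotientGroup.ker_mk'] at h
    exact hc₀A (h ((hCmem c₀).2 fun x hx => (hc₀ x hx).symm))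
  obtain ⟨y, hy, hy1, hyc⟩ := exists_central (hP.to_quotient A) _ hNne
  obtain ⟨c, hc, rfl⟩ := hy
  have hcA : c ∉ A := by
    intro h
    exact hy1 ((QuotientGroup.eq_one_iff c).2 h)
  have hcc := (hCmem c).1 hc
  -- the subgroup generated by `A` and `c`
  let B : Subgroup P := A ⊔ Subgroup.zpowers c
  have hBmem : ∀ x ∈ B, ∃ a ∈ A, ∃ k : ℤ, x = a * c ^ k := by
    intro x hx
    rw [← SetLike.mem_coe, Subgroup.normal_mul, Set.mem_mul] at hx
    obtain ⟨a, ha, z, hz, rfl⟩ := hx
    obtain ⟨k, rfl⟩ := Subgroup.mem_zpowers_iff.1 hz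
    exact ⟨a, ha, k, rfl⟩
  have hck : ∀ a ∈ A, ∀ k : ℤ, Commute a (c ^ k) := by
    intro a ha k
    have : Commute a c := hcc a ha
    exact this.zpow_right k
  have hBn : B.Normal := by
    refine ⟨fun x hx g => ?_⟩
    obtain ⟨a, ha, k, rfl⟩ := hBmem x hx
    have h1 : g * a * g⁻¹ ∈ A := hAn.conj_mem a ha g
    have h2 : g * c * g⁻¹ ∈ B := by
      have h3 := hyc (QuotientGroup.mk' A g)
      have h4 : (QuotientGroup.mk' A) (g * c) = (QuotientGroup.mk' A) (c * g) := by
        rw [map_mul, map_mul, h3]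
      have h5 : (g * c * g⁻¹) * c⁻¹ ∈ A := by
        rw [← QuotientGroup.eq_one_iff]
        have h6 : ((g * c * g⁻¹ * c⁻¹ : P) : P ⧸ A) =
            (QuotientGroup.mk' A (g * c)) * (QuotientGroup.mk' A (c * g))⁻¹ := by
          rw [← map_inv, ← map_mul]
          change QuotientGroup.mk' A (g * c * g⁻¹ * c⁻¹) = _
          congr 1
          group
        rw [h6, h4, mul_inv_cancel]
      have h7 : g * c * g⁻¹ = (g * c * g⁻¹ * c⁻¹) * c := by group
      rw [h7]
      exact B.mul_mem ((le_sup_left : A ≤ B) h5)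
        ((le_sup_right : Subgroup.zpowers c ≤ B) (Subgroup.mem_zpowers c))
    have h8 : g * (a * c ^ k) * g⁻¹ = (g * a * g⁻¹) * (g * c * g⁻¹) ^ k := by
      rw [conj_zpow]; group
    rw [h8]
    exact B.mul_mem ((le_sup_left : A ≤ B) h1) (B.zpow_mem h2 k)
  have hBc : ∀ x ∈ B, ∀ y ∈ B, x * y = y * x := by
    intro x hx y hy
    obtain ⟨a, ha, k, rfl⟩ := hBmem x hx
    obtain ⟨b, hb, l, rfl⟩ := hBmem y hy
    have e1 : Commute a b := hAc a ha b hb
    have e2 : Commute (a * c ^ k) (b * c ^ l) :=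
      (e1.mul_right (hck a ha l)).mul_left
        ((hck b hb k).symm.mul_right ((Commute.refl c).zpow_zpow k l))
    exact e2
  have h9 := hmax (show B ∈ {A : Subgroup P | A.Normal ∧ ∀ x ∈ A, ∀ y ∈ A, x * y = y * x} from
    ⟨hBn, hBc⟩) le_sup_left
  exact hcA (h9 ((le_sup_right : Subgroup.zpowers c ≤ B) (Subgroup.mem_zpowers c)))

/-- If all abelian subgroups of a finite `p`-group have order at most `a`, then the group has
order at most `a * a ^ a`. -/
theorem pgroup_bound {p : ℕ} [hp : Fact p.Prime] {P : Type*} [Group P] [Finite P]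
    (hP : IsPGroup p P) {a : ℕ}
    (ha : ∀ A : Subgroup P, (∀ x ∈ A, ∀ y ∈ A, x * y = y * x) → Nat.card A ≤ a) :
    Nat.card P ≤ a * a ^ a := by
  obtain ⟨A, hAn, hAc, hAs⟩ := exists_selfcentralizing hP
  let ψ : P →* MulAut A := MulAut.conjNormal
  have hker : ψ.ker ≤ A := by
    intro g hg
    apply hAs
    intro x hx
    have h1 : ψ g = 1 := hg
    have h2 := congrArg (fun f : MulAut A => ((f ⟨x, hx⟩ : A) : P)) h1
    have h3 : g * x * g⁻¹ = x := by
      simpa [ψ] using h2
    rw [mul_inv_eq_iff_eq_mul] at h3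
    exact h3
  have hA := ha A hAc
  have hApos : 0 < Nat.card A := Nat.card_pos
  have h1 : Nat.card ψ.ker ≤ Nat.card A := Subgroup.card_le_of_le hker
  have h2 : Nat.card ψ.range ≤ a ^ a := by
    have h3 : Nat.card ψ.range ≤ Nat.card (MulAut A) := Subgroup.card_le_card_group _
    have h4 : Nat.card (MulAut A) ≤ Nat.card (A → A) :=
      Nat.card_le_card_of_injective (fun f : MulAut A => (f : A → A)) DFunLike.coe_injective
    have h5 : Nat.card (A → A) = Nat.card A ^ Nat.card A := by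
      rw [Nat.card_fun]
    rw [h5] at h4
    calc Nat.card ψ.range ≤ Nat.card A ^ Nat.card A := h3.trans h4
      _ ≤ a ^ Nat.card A := Nat.pow_le_pow_left hA _
      _ ≤ a ^ a := Nat.pow_le_pow_right (by omega) hA
  have h6 : Nat.card P = Nat.card ψ.ker * Nat.card ψ.range := by
    rw [← Subgroup.card_mul_index ψ.ker, Subgroup.index_ker]
  rw [h6]
  exact Nat.mul_le_mul (h1.trans hA) h2

/-- If all abelian subgroups of a finite group have order at most `a`, then the group has
order at most `(a * a ^ a) ^ (a + 1)`. -/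
theorem card_bound {K : Type*} [Group K] [Finite K] {a : ℕ}
    (ha : ∀ A : Subgroup K, (∀ x ∈ A, ∀ y ∈ A, x * y = y * x) → Nat.card A ≤ a) :
    Nat.card K ≤ (a * a ^ a) ^ (a + 1) := by
  classical
  have ha1 : 1 ≤ a := by
    have := ha ⊥ (by
      intro x hx y hy
      rw [Subgroup.mem_bot] at hx hy
      rw [hx, hy])
    simpa using this
  have hc1 : 1 ≤ a * a ^ a := Nat.one_le_iff_ne_zero.2 (by positivity)
  have hK : Nat.card K ≠ 0 := Nat.card_pos.ne'
  have hprime : ∀ p ∈ (Nat.card K).primeFactors, p ≤ a := by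
    intro p hp
    have hpp : Fact p.Prime := ⟨Nat.prime_of_mem_primeFactors hp⟩
    obtain ⟨g, hg⟩ := exists_prime_orderOf_dvd_card' p (Nat.dvd_of_mem_primeFactors hp)
    have := ha (Subgroup.zpowers g) (by
      intro x hx y hy
      obtain ⟨i, rfl⟩ := Subgroup.mem_zpowers_iff.1 hx
      obtain ⟨j, rfl⟩ := Subgroup.mem_zpowers_iff.1 hy
      exact ((Commute.refl g).zpow_zpow i j))
    rw [Nat.card_zpowers, hg] at this
    exact this
  have hsyl : ∀ p ∈ (Nat.card K).primeFactors, p ^ (Nat.card K).factorization p ≤ a * a ^ a := by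
    intro p hp
    have hpp : Fact p.Prime := ⟨Nat.prime_of_mem_primeFactors hp⟩
    let S : Sylow p K := default
    rw [← S.card_eq_multiplicity]
    apply pgroup_bound S.isPGroup'
    intro A hA
    have h1 := ha (A.map (S : Subgroup K).subtype) (by
      rintro _ ⟨x, hx, rfl⟩ _ ⟨y, hy, rfl⟩
      rw [← map_mul, ← map_mul, hA x hx y hy])
    have h2 : Nat.card (A.map (S : Subgroup K).subtype) = Nat.card A :=
      Nat.card_congr (A.equivMapOfInjective _ (Subgroup.subtype_injective _)).toEquiv.symm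
    rw [h2] at h1
    exact h1
  have hfac : Nat.card K = ∏ p ∈ (Nat.card K).primeFactors, p ^ (Nat.card K).factorization p :=
    (Nat.prod_factorization_pow_eq_self hK).symm
  calc Nat.card K = ∏ p ∈ (Nat.card K).primeFactors, p ^ (Nat.card K).factorization p := hfac
    _ ≤ ∏ _p ∈ (Nat.card K).primeFactors, (a * a ^ a) := Finset.prod_le_prod' hsyl
    _ = (a * a ^ a) ^ (Nat.card K).primeFactors.card := by rw [Finset.prod_const]
    _ ≤ (a * a ^ a) ^ (a + 1) := by
      apply Nat.pow_le_pow_right hc1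
      calc (Nat.card K).primeFactors.card ≤ (Finset.range (a + 1)).card := by
            apply Finset.card_le_card
            intro p hp
            rw [Finset.mem_range]
            exact Nat.lt_succ_of_le (hprime p hp)
        _ = a + 1 := Finset.card_range _

end Pool.Agent.H80.P1
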