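import Mathlib

/-! Length sets in reduced power monoids: general lemmas. -/

open Pointwise

namespace Pool.Agent.H80.P2

/-- Irreducible, as printed: `A ≠ {1}` is not a product of two sets both different from `{1}`. -/
def Irr1 {G : Type*} [Group G] (A : Set G) : Prop :=
  A.Finite ∧ (1 : G) ∈ A ∧ A ≠ {1} ∧
    ∀ B C : Set G, B.Finite → C.Finite → (1 : G) ∈ B → (1 : G) ∈ C → A = B * C →
      B = {1} ∨ C = {1}

/-- Irreducible, in the sense of the literature: `A ≠ {1}` is not a product of two sets both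
different from `{1}` and from `A`. -/
def Irr2 {G : Type*} [Group G] (A : Set G) : Prop :=
  A.Finite ∧ (1 : G) ∈ A ∧ A ≠ {1} ∧
    ∀ B C : Set G, B.Finite → C.Finite → (1 : G) ∈ B → (1 : G) ∈ C → A = B * C →
      B = {1} ∨ C = {1} ∨ B = A ∨ C = A

/-- The length set of `X`: all `k` such that `X` is a product of `k` sets satisfying `Irr`. -/
def LengthSet {G : Type*} [Group G] (Irr : Set G → Prop) (X : Set G) : Set ℕ :=
  {k | ∃ l : List (Set G), l.length = k ∧ (∀ A ∈ l, Irr A) ∧ l.prod = X}

/-- The system of length sets of the reduced finitary power monoid of `G`. -/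
def LengthSystem {G : Type*} [Group G] (Irr : Set G → Prop) : Set (Set ℕ) :=
  {L | ∃ X : Set G, X.Finite ∧ (1 : G) ∈ X ∧ L = LengthSet Irr X}

/-- the sets occurring as nontrivial factors -/
def Nt {G : Type*} [Group G] (A : Set G) : Prop := (1 : G) ∈ A ∧ A ≠ {1}

theorem Irr1.nt {G : Type*} [Group G] {A : Set G} (h : Irr1 A) : Nt A := ⟨h.2.1, h.2.2.1⟩
theorem Irr2.nt {G : Type*} [Group G] {A : Set G} (h : Irr2 A) : Nt A := ⟨h.2.1, h.2.2.1⟩

theorem Irr1.irr2 {G : Type*} [Group G] {A : Set G} (h : Irr1 A) : Irr2 A := by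
  refine ⟨h.1, h.2.1, h.2.2.1, fun B C hB hC h1 h2 hA => ?_⟩
  rcases h.2.2.2 B C hB hC h1 h2 hA with h | h
  · exact Or.inl h
  · exact Or.inr (Or.inl h)

theorem one_mem_prod {G : Type*} [Group G] {l : List (Set G)} (h : ∀ A ∈ l, (1 : G) ∈ A) :
    (1 : G) ∈ l.prod := by
  induction l with
  | nil => simp
  | cons A l ih =>
    rw [List.prod_cons]
    exact ⟨1, h A (by simp), 1, ih fun B hB => h B (by simp [hB]), by simp⟩

theorem subset_mul_one {G : Type*} [Group G] {A B : Set G} (h : (1 : G) ∈ B) : A ⊆ A * B :=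
  fun a ha => ⟨a, ha, 1, h, by simp⟩

theorem subset_one_mul {G : Type*} [Group G] {A B : Set G} (h : (1 : G) ∈ A) : B ⊆ A * B :=
  fun b hb => ⟨1, h, b, hb, by simp⟩

/-- either every partial product grows, or some factor is absorbed -/
theorem grow_or_absorb {G : Type*} [Group G] [Finite G] (l : List (Set G)) :
    (∀ A ∈ l, Nt A) → ∀ P : Set G, (1 : G) ∈ P →
      P.ncard + l.length ≤ (P * l.prod).ncard ∨
      ∃ (l₁ : List (Set G)) (A : Set G) (l₂ : List (Set G)),
        l = l₁ ++ A :: l₂ ∧ P * l₁.prod * A = P * l₁.prod := by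
  induction l with
  | nil =>
    intro _ P _
    left
    simp
  | cons A l ih =>
    intro hl P hP
    have hA := hl A (by simp)
    by_cases hPA : P * A = P
    · right
      exact ⟨[], A, l, by simp, by simpa using hPA⟩
    · have hsub : P ⊆ P * A := subset_mul_one hA.1
      have hss : P ⊂ P * A := hsub.ssubset_of_ne (Ne.symm hPA)
      have hlt : P.ncard < (P * A).ncard := Set.ncard_lt_ncard hss (Set.toFinite _)
      rcases ih (fun B hB => hl B (by simp [hB])) (P * A) (hsub hP) with h | h
      · left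
        rw [List.prod_cons, ← mul_assoc, List.length_cons]
        omega
      · right
        obtain ⟨l₁, B, l₂, h1, h2⟩ := h
        refine ⟨A :: l₁, B, l₂, by simp [h1], ?_⟩
        rw [List.prod_cons, ← mul_assoc]
        exact h2

theorem absorb_of_long {G : Type*} [Group G] [Finite G] (l : List (Set G))
    (hl : ∀ A ∈ l, Nt A) (hlen : Nat.card G ≤ l.length) :
    ∃ (l₁ : List (Set G)) (A : Set G) (l₂ : List (Set G)),
        l = l₁ ++ A :: l₂ ∧ l₁.prod * A = l₁.prod := by
  rcases grow_or_absorb l hl {1} (by simp) with h | h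
  · exfalso
    have h1 : ({1} * l.prod : Set G).ncard ≤ Nat.card G := by
      rw [← Set.ncard_univ]
      exact Set.ncard_le_ncard (Set.subset_univ _) (Set.toFinite _)
    rw [Set.ncard_singleton] at h
    omega
  · obtain ⟨l₁, A, l₂, h1, h2⟩ := h
    refine ⟨l₁, A, l₂, h1, ?_⟩
    have : ({1} : Set G) = 1 := rfl
    rw [this, one_mul] at h2
    exact h2

theorem mul_pow_absorb {G : Type*} [Group G] {P A : Set G} (h : P * A = P) (j : ℕ) :
    P * A ^ j = P := by
  induction j with
  | zero => simp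
  | succ j ih => rw [pow_succ, ← mul_assoc, ih, h]

/-- A length set containing a number `≥ |H|` is infinite. -/
theorem infinite_of_large {H : Type*} [Group H] [Finite H] {Irr : Set H → Prop}
    (hIrr : ∀ A, Irr A → Nt A) {X : Set H} {k : ℕ} (hk : k ∈ LengthSet Irr X)
    (hle : Nat.card H ≤ k) : (LengthSet Irr X).Infinite := by
  obtain ⟨l, hlk, hl, hX⟩ := hk
  obtain ⟨l₁, A, l₂, hl12, habs⟩ :=
    absorb_of_long l (fun A hA => hIrr A (hl A hA)) (by omega)
  have hmem : ∀ j : ℕ, l₁.length + (j + 1) + l₂.length ∈ LengthSet Irr X := by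
    intro j
    refine ⟨l₁ ++ List.replicate (j + 1) A ++ l₂, by simp; omega, ?_, ?_⟩
    · intro B hB
      simp only [List.mem_append] at hB
      rcases hB with (hB | hB) | hB
      · exact hl B (by rw [hl12]; simp [hB])
      · rw [List.eq_of_mem_replicate hB]
        exact hl A (by rw [hl12]; simp)
      · exact hl B (by rw [hl12]; simp [hB])
    · rw [List.prod_append, List.prod_append, List.prod_replicate, mul_pow_absorb habs]
      rw [← hX, hl12, List.prod_append, List.prod_cons, ← mul_assoc, habs]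
  exact Set.infinite_of_injective_forall_mem (f := fun j : ℕ => l₁.length + (j + 1) + l₂.length)
    (fun i j hij => by simp only at hij; omega) hmem

/-- `X` consists of commuting elements and is moved by right multiplication by any of its
nontrivial elements -/
def Good {G : Type*} [Group G] (X : Set G) : Prop :=
  (∀ x ∈ X, ∀ y ∈ X, x * y = y * x) ∧ ∀ y ∈ X, y ≠ 1 → ∃ z ∈ X, z * y ∉ X

theorem length_lt_of_good {K : Type*} [Group K] [Finite K] {X : Set K} (hX : Good X)
    {l : List (Set K)} (hl : ∀ A ∈ l, Nt A) (hp : l.prod = X) : l.length < Nat.card K := by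
  by_contra hcon
  push Not at hcon
  obtain ⟨l₁, A, l₂, hl12, habs⟩ := absorb_of_long l hl hcon
  have hA := hl A (by rw [hl12]; simp)
  have h1 : (1 : K) ∈ l₁.prod := one_mem_prod fun B hB => (hl B (by rw [hl12]; simp [hB])).1
  have h2 : (1 : K) ∈ l₂.prod := one_mem_prod fun B hB => (hl B (by rw [hl12]; simp [hB])).1
  have hXeq : X = l₁.prod * A * l₂.prod := by
    rw [← hp, hl12, List.prod_append, List.prod_cons, mul_assoc]
  have hXeq' : X = l₁.prod * l₂.prod := by rw [hXeq, habs]
  obtain ⟨y, hy, hy1⟩ : ∃ y ∈ A, y ≠ 1 := by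
    by_contra hc
    push Not at hc
    exact hA.2 (Set.eq_singleton_iff_unique_mem.2 ⟨hA.1, hc⟩)
  have hyX : y ∈ X := by
    rw [hXeq]
    exact subset_mul_one h2 (subset_one_mul h1 hy)
  obtain ⟨z, hz, hzy⟩ := hX.2 y hyX hy1
  apply hzy
  rw [hXeq'] at hz
  obtain ⟨u, hu, v, hv, rfl⟩ := hz
  have hvX : v ∈ X := by
    rw [hXeq']
    exact subset_one_mul h1 hv
  have hcomm := hX.1 v hvX y hyX
  rw [mul_assoc, hcomm, ← mul_assoc, hXeq]
  exact ⟨u * y, ⟨u, hu, y, hy, rfl⟩, v, hv, rfl⟩

/-- Refinement to irreducibles. -/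
theorem exists_irr_factorization {K : Type*} [Group K] [Finite K] {X : Set K} (hX : Good X) :
    ∀ (n : ℕ) (l : List (Set K)), Nat.card K - l.length = n → (∀ A ∈ l, Nt A) → l.prod = X →
      ∃ k, l.length ≤ k ∧ k ∈ LengthSet Irr1 X := by
  intro n
  induction n using Nat.strong_induction_on with
  | _ n ih =>
    intro l hn hl hp
    by_cases hall : ∀ A ∈ l, Irr1 A
    · exact ⟨l.length, le_rfl, l, rfl, hall, hp⟩
    · push Not at hall
      obtain ⟨A, hA, hAirr⟩ := hall
      have hAnt := hl A hA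
      have : ∃ B C : Set K, (1 : K) ∈ B ∧ (1 : K) ∈ C ∧ A = B * C ∧ B ≠ {1} ∧ C ≠ {1} := by
        by_contra hcon
        apply hAirr
        refine ⟨Set.toFinite _, hAnt.1, hAnt.2, fun B C _ _ h1 h2 h3 => ?_⟩
        by_contra hc
        push Not at hc
        exact hcon ⟨B, C, h1, h2, h3, hc.1, hc.2⟩
      obtain ⟨B, C, hB1, hC1, hABC, hB, hC⟩ := this
      obtain ⟨l₁, l₂, rfl⟩ := List.append_of_mem hA
      have hlt := length_lt_of_good hX hl hp
      have hlen : (l₁ ++ B :: C :: l₂).length = (l₁ ++ A :: l₂).length + 1 := by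
        simp; omega
      obtain ⟨k, hk1, hk2⟩ := ih (Nat.card K - (l₁ ++ B :: C :: l₂).length) (by omega)
        (l₁ ++ B :: C :: l₂) rfl (by
          intro D hD
          simp only [List.mem_append, List.mem_cons] at hD
          rcases hD with hD | rfl | rfl | hD
          · exact hl D (by simp [hD])
          · exact ⟨hB1, hB⟩
          · exact ⟨hC1, hC⟩
          · exact hl D (by simp [hD])) (by
          rw [← hp, List.prod_append, List.prod_append, List.prod_cons, List.prod_cons,
            List.prod_cons, hABC, mul_assoc])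
      exact ⟨k, by omega, hk2⟩

/-- If the system of `K` is contained in that of `H`, then every product of nontrivial sets in
`K` that is good has fewer than `|H|` factors. -/
theorem good_bound {H K : Type*} [Group H] [Finite H] [Group K] [Finite K]
    (hsys : LengthSystem (G := K) Irr1 ⊆ LengthSystem (G := H) Irr1 ∨
      LengthSystem (G := K) Irr2 ⊆ LengthSystem (G := H) Irr2)
    {l : List (Set K)} (hl : ∀ A ∈ l, Nt A) (hX : Good l.prod) :
    l.length < Nat.card H := by
  by_contra hcon
  push Not at hcon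
  obtain ⟨k, hk, hkL⟩ := exists_irr_factorization hX _ l rfl hl rfl
  have hone : (1 : K) ∈ l.prod := one_mem_prod fun A hA => (hl A hA).1
  rcases hsys with hsys | hsys
  · have hfin : (LengthSet Irr1 l.prod).Finite := by
      refine (Set.finite_Iio (Nat.card K)).subset ?_
      rintro j ⟨l', rfl, hl', hp'⟩
      exact length_lt_of_good hX (fun A hA => (hl' A hA).nt) hp'
    obtain ⟨Y, -, -, hY⟩ := hsys ⟨l.prod, Set.toFinite _, hone, rfl⟩
    rw [hY] at hkL hfin
    exact (infinite_of_large (fun A hA => Irr1.nt hA) hkL (by omega)) hfin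
  · have hkL2 : k ∈ LengthSet Irr2 l.prod := by
      obtain ⟨l', h1, h2, h3⟩ := hkL
      exact ⟨l', h1, fun A hA => (h2 A hA).irr2, h3⟩
    have hfin : (LengthSet Irr2 l.prod).Finite := by
      refine (Set.finite_Iio (Nat.card K)).subset ?_
      rintro j ⟨l', rfl, hl', hp'⟩
      exact length_lt_of_good hX (fun A hA => (hl' A hA).nt) hp'
    obtain ⟨Y, -, -, hY⟩ := hsys ⟨l.prod, Set.toFinite _, hone, rfl⟩
    rw [hY] at hkL2 hfin
    exact (infinite_of_large (fun A hA => Irr2.nt hA) hkL2 (by omega)) hfin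

/-- Greedy construction in a finite abelian group. -/
theorem exists_good_comm {A : Type*} [CommGroup A] [Finite A] (r : ℕ) :
    ∀ i ≤ r, 2 * 27 ^ r < Nat.card A →
      ∃ l : List (Set A), l.length = i ∧ (∀ T ∈ l, Nt T) ∧ l.prod.ncard ≤ 3 ^ i ∧
        ∀ y ∈ l.prod, y ≠ 1 → ∃ z ∈ l.prod, z * y ∉ l.prod := by
  intro i
  induction i with
  | zero =>
    intro _ _
    refine ⟨[], rfl, by simp, by
      rw [List.prod_nil, ← Set.singleton_one, Set.ncard_singleton, pow_zero], ?_⟩
    intro y hy hy1
    exact absurd (by simpa using hy) hy1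
  | succ i ih =>
    intro hir hcard
    obtain ⟨l, hlen, hl, hnc, hap⟩ := ih (by omega) hcard
    set X := l.prod with hXdef
    have h1X : (1 : A) ∈ X := one_mem_prod fun T hT => (hl T hT).1
    have hinv : (X⁻¹).ncard = X.ncard := by
      rw [← Set.image_inv_eq_inv]
      exact Set.ncard_image_of_injective _ inv_injective
    have hmul : ∀ S T : Set A, (S * T).ncard ≤ S.ncard * T.ncard := by
      intro S T
      rw [← Set.image_mul_prod, ← Set.ncard_prod]
      exact Set.ncard_image_le (Set.toFinite _)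
    have hD : (X⁻¹ * X * X).ncard ≤ 27 ^ i := by
      calc (X⁻¹ * X * X).ncard ≤ (X⁻¹ * X).ncard * X.ncard := hmul _ _
        _ ≤ (X⁻¹.ncard * X.ncard) * X.ncard := Nat.mul_le_mul_right _ (hmul _ _)
        _ ≤ (3 ^ i * 3 ^ i) * 3 ^ i := by
          rw [hinv]
          exact Nat.mul_le_mul (Nat.mul_le_mul hnc hnc) hnc
        _ = 27 ^ i := by
          rw [← mul_pow, ← mul_pow]
          norm_num
    have h27 : 27 ^ i ≤ 27 ^ r := Nat.pow_le_pow_right (by norm_num) (by omega)
    have hexists : ∀ D : Set A, D.ncard < Nat.card A → ∃ x, x ∉ D := by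
      intro D hD
      by_contra hc
      push Not at hc
      have : D = Set.univ := Set.eq_univ_of_forall hc
      rw [this, Set.ncard_univ] at hD
      exact lt_irrefl _ hD
    obtain ⟨x, hx⟩ := hexists (X⁻¹ * X * X) (by
      have : 0 < 27 ^ r := by positivity
      omega)
    have hD2 : ((X⁻¹ * X * X) ∪ ({x⁻¹} * X⁻¹ * X)).ncard ≤ 2 * 27 ^ i := by
      have h1 : (({x⁻¹} : Set A) * X⁻¹ * X).ncard ≤ 27 ^ i := by
        calc (({x⁻¹} : Set A) * X⁻¹ * X).ncard ≤ (({x⁻¹} : Set A) * X⁻¹).ncard * X.ncard := hmul _ _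
          _ ≤ (({x⁻¹} : Set A).ncard * X⁻¹.ncard) * X.ncard := Nat.mul_le_mul_right _ (hmul _ _)
          _ ≤ (1 * 3 ^ i) * 3 ^ i := by
            rw [hinv, Set.ncard_singleton]
            exact Nat.mul_le_mul (Nat.mul_le_mul le_rfl hnc) hnc
          _ ≤ (3 ^ i * 3 ^ i) * 3 ^ i := by
            apply Nat.mul_le_mul_right
            exact Nat.mul_le_mul_right _ (Nat.one_le_pow _ _ (by norm_num))
          _ = 27 ^ i := by
            rw [← mul_pow, ← mul_pow]
            norm_num
      have := Set.ncard_union_le (X⁻¹ * X * X) (({x⁻¹} : Set A) * X⁻¹ * X)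
      omega
    obtain ⟨y, hy⟩ := hexists _ (lt_of_le_of_lt hD2 (by omega))
    have hyD : y ∉ X⁻¹ * X * X := fun h => hy (Or.inl h)
    have hyE : y ∉ ({x⁻¹} : Set A) * X⁻¹ * X := fun h => hy (Or.inr h)
    have memD : ∀ a ∈ X, ∀ b ∈ X, ∀ c ∈ X, a⁻¹ * b * c ∈ X⁻¹ * X * X := by
      intro a ha b hb c hc
      exact ⟨a⁻¹ * b, ⟨a⁻¹, Set.inv_mem_inv.2 ha, b, hb, rfl⟩, c, hc, rfl⟩
    have memE : ∀ a ∈ X, ∀ b ∈ X, x⁻¹ * a⁻¹ * b ∈ ({x⁻¹} : Set A) * X⁻¹ * X := by
      intro a ha b hb
      exact ⟨x⁻¹ * a⁻¹, ⟨x⁻¹, rfl, a⁻¹, Set.inv_mem_inv.2 ha, rfl⟩, b, hb, rfl⟩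
    -- the key facts
    have k1 : ∀ a ∈ X, ∀ b ∈ X, ∀ c ∈ X, a * b ≠ c * x := by
      intro a ha b hb c hc h
      apply hx
      have : x = c⁻¹ * a * b := by rw [mul_assoc, h]; group
      rw [this]; exact memD c hc a ha b hb
    have k2 : ∀ a ∈ X, ∀ b ∈ X, ∀ c ∈ X, a * b ≠ c * y := by
      intro a ha b hb c hc h
      apply hyD
      have : y = c⁻¹ * a * b := by rw [mul_assoc, h]; group
      rw [this]; exact memD c hc a ha b hb
    have k3 : ∀ s ∈ X, ∀ t ∈ ({1, x, y} : Set A), ∀ s' ∈ X, s * x * y ≠ s' * t := by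
      intro s hs t ht s' hs' h
      simp only [Set.mem_insert_iff, Set.mem_singleton_iff] at ht
      rcases ht with rfl | rfl | rfl
      · apply hyE
        have : y = x⁻¹ * s⁻¹ * s' := by
          rw [mul_one] at h
          rw [← h]
          group
        rw [this]; exact memE s hs s' hs'
      · -- s * t * y = s' * t
        apply k2 s' hs' 1 h1X s hs
        rw [mul_one]
        have : s * y * t = s' * t := by rw [← h]; rw [mul_right_comm]
        exact (mul_right_cancel this).symm
      · apply k1 s' hs' 1 h1X s hs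
        rw [mul_one]
        exact (mul_right_cancel h).symm
    have hX' : (l ++ [({1, x, y} : Set A)]).prod = X * {1, x, y} := by
      rw [List.prod_append, List.prod_singleton]
    refine ⟨l ++ [({1, x, y} : Set A)], by simp [hlen], ?_, ?_, ?_⟩
    · intro T hT
      rcases List.mem_append.1 hT with hT | hT
      · exact hl T hT
      · rw [List.mem_singleton] at hT
        subst hT
        refine ⟨by simp, fun h => ?_⟩
        have hx1 : x ∈ ({1} : Set A) := by rw [← h]; simp
        rw [Set.mem_singleton_iff] at hx1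
        exact k1 1 h1X 1 h1X 1 h1X (by rw [hx1])
    · rw [hX']
      calc (X * {1, x, y}).ncard ≤ X.ncard * ({1, x, y} : Set A).ncard := hmul _ _
        _ ≤ 3 ^ i * 3 := by
          apply Nat.mul_le_mul hnc
          calc ({1, x, y} : Set A).ncard ≤ ({x, y} : Set A).ncard + 1 := Set.ncard_insert_le _ _
            _ ≤ (({y} : Set A).ncard + 1) + 1 := by
              have := Set.ncard_insert_le x ({y} : Set A)
              omega
            _ = 3 := by rw [Set.ncard_singleton]
        _ = 3 ^ (i + 1) := by rw [pow_succ]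
    · rw [hX']
      rintro w ⟨s, hs, t, ht, rfl⟩ hw1
      have ht' := ht
      simp only [Set.mem_insert_iff, Set.mem_singleton_iff] at ht
      rcases ht with rfl | rfl | rfl
      · simp only [mul_one] at hw1 ⊢
        obtain ⟨z, hz, hzw⟩ := hap s hs hw1
        refine ⟨z, subset_mul_one (by simp) hz, ?_⟩
        rintro ⟨s', hs', t', ht', h⟩
        simp only at h
        simp only [Set.mem_insert_iff, Set.mem_singleton_iff] at ht'
        rcases ht' with rfl | rfl | rfl
        · rw [mul_one] at h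
          exact hzw (h ▸ hs')
        · exact k1 z hz s hs s' hs' h.symm
        · exact k2 z hz s hs s' hs' h.symm
      · refine ⟨y, ⟨1, h1X, y, by simp, by simp⟩, ?_⟩
        rintro ⟨s', hs', t', ht'', h⟩
        simp only at h
        exact k3 s hs t' ht'' s' hs' ((mul_comm _ _).trans h.symm)
      · refine ⟨x, ⟨1, h1X, x, by simp, by simp⟩, ?_⟩
        rintro ⟨s', hs', t', ht'', h⟩
        simp only at h
        exact k3 s hs t' ht'' s' hs' (by rw [h]; rw [mul_comm s x, mul_assoc])

end Pool.Agent.H80.P2
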