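import Pool.Agent.H80.P1
import Pool.Agent.H80.P2

/-! Length systems: the main theorems. -/

open Pointwise

namespace Pool.Agent.H80.P3

open Pool.Agent.H80.P2

theorem prod_map_image {A K : Type*} [Group A] [Group K] (f : A →* K) (l : List (Set A)) :
    (l.map (fun T => f '' T)).prod = f '' l.prod := by
  induction l with
  | nil => simp [← Set.singleton_one]
  | cons T l ih => rw [List.map_cons, List.prod_cons, List.prod_cons, ih, Set.image_mul]

theorem comm_subgroup_bound {H K : Type*} [Group H] [Finite H] [Group K] [Finite K]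
    (hsys : LengthSystem (G := K) Irr1 ⊆ LengthSystem (G := H) Irr1 ∨
      LengthSystem (G := K) Irr2 ⊆ LengthSystem (G := H) Irr2)
    (A : Subgroup K) (hA : ∀ x ∈ A, ∀ y ∈ A, x * y = y * x) :
    Nat.card A ≤ 2 * 27 ^ Nat.card H := by
  by_contra hcon
  push Not at hcon
  let _ : CommGroup A := { (inferInstance : Group A) with
    mul_comm := fun x y => Subtype.ext (hA x x.2 y y.2) }
  obtain ⟨l, hlen, hl, -, hap⟩ := exists_good_comm (A := A) (Nat.card H) (Nat.card H) le_rfl hcon
  let f : A →* K := A.subtype
  have hf : Function.Injective f := A.subtype_injective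
  have hp := prod_map_image f l
  have h := good_bound hsys (l := l.map (fun T => f '' T)) (by
    intro T hT
    obtain ⟨T₀, hT₀, rfl⟩ := List.mem_map.1 hT
    refine ⟨⟨1, (hl T₀ hT₀).1, map_one f⟩, fun h => (hl T₀ hT₀).2 ?_⟩
    ext x
    rw [Set.mem_singleton_iff]
    constructor
    · intro hx
      have : f x ∈ ({1} : Set K) := by rw [← h]; exact ⟨x, hx, rfl⟩
      rw [Set.mem_singleton_iff] at this
      exact hf (this.trans (map_one f).symm)
    · rintro rfl
      exact (hl T₀ hT₀).1) (by
    rw [hp]
    refine ⟨?_, ?_⟩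
    · rintro _ ⟨x, -, rfl⟩ _ ⟨y, -, rfl⟩
      exact hA x x.2 y y.2
    · rintro _ ⟨y, hy, rfl⟩ hy1
      obtain ⟨z, hz, hzy⟩ := hap y hy (fun h => hy1 (by rw [h, map_one]))
      refine ⟨f z, ⟨z, hz, rfl⟩, ?_⟩
      rintro ⟨w, hw, hw2⟩
      apply hzy
      have : w = z * y := hf (by rw [hw2, map_mul])
      rw [← this]
      exact hw)
  rw [List.length_map, hlen] at h
  exact lt_irrefl _ h

/-- powers of `{1,g}` -/
theorem pair_pow {G : Type*} [Group G] (g : G) (r : ℕ) :
    (List.replicate r ({1, g} : Set G)).prod = {x | ∃ i ≤ r, x = g ^ i} := by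
  induction r with
  | zero =>
    ext x
    simp
  | succ r ih =>
    rw [List.replicate_succ, List.prod_cons, ih]
    ext x
    constructor
    · rintro ⟨a, ha, _, ⟨i, hi, rfl⟩, rfl⟩
      simp only [Set.mem_insert_iff, Set.mem_singleton_iff] at ha
      rcases ha with rfl | rfl
      · exact ⟨i, by omega, by simp⟩
      · exact ⟨i + 1, by omega, by simp [pow_succ']⟩
    · rintro ⟨i, hi, rfl⟩
      rcases i with _ | i
      · exact ⟨1, by simp, 1, ⟨0, by omega, by simp⟩, by simp⟩
      · exact ⟨g, by simp, g ^ i, ⟨i, by omega, rfl⟩, by simp [pow_succ']⟩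

theorem pair_good {G : Type*} [Group G] [Finite G] (g : G) (hg : 3 ≤ orderOf g) :
    Good (List.replicate (orderOf g - 2) ({1, g} : Set G)).prod := by
  rw [pair_pow]
  refine ⟨?_, ?_⟩
  · rintro _ ⟨i, -, rfl⟩ _ ⟨j, -, rfl⟩
    rw [← pow_add, ← pow_add, add_comm]
  · rintro _ ⟨j, hj, rfl⟩ hj1
    have hj0 : j ≠ 0 := fun h => hj1 (by rw [h, pow_zero])
    refine ⟨g ^ (orderOf g - 1 - j), ⟨orderOf g - 1 - j, by omega, rfl⟩, ?_⟩
    rintro ⟨i, hi, h⟩
    rw [← pow_add, show orderOf g - 1 - j + j = orderOf g - 1 by omega] at h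
    have := pow_injOn_Iio_orderOf (x := g) (show orderOf g - 1 ∈ Set.Iio (orderOf g) by
      rw [Set.mem_Iio]; omega) (show i ∈ Set.Iio (orderOf g) by rw [Set.mem_Iio]; omega) h
    omega

theorem pair_nt {G : Type*} [Group G] (g : G) (hg : g ≠ 1) (r : ℕ) :
    ∀ A ∈ List.replicate r ({1, g} : Set G), Nt A := by
  intro A hA
  rw [List.eq_of_mem_replicate hA]
  refine ⟨by simp, fun h => hg ?_⟩
  have : g ∈ ({1} : Set G) := by rw [← h]; simp
  simpa using this

theorem order_bound {H K : Type*} [Group H] [Finite H] [Group K] [Finite K]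
    (hsys : LengthSystem (G := K) Irr1 ⊆ LengthSystem (G := H) Irr1 ∨
      LengthSystem (G := K) Irr2 ⊆ LengthSystem (G := H) Irr2) (g : K) :
    orderOf g ≤ Nat.card H + 1 := by
  have hpos : 0 < Nat.card H := Nat.card_pos
  by_cases hg : 3 ≤ orderOf g
  · have hg1 : g ≠ 1 := by
      rintro rfl
      rw [orderOf_one] at hg
      omega
    have := good_bound hsys (pair_nt g hg1 (orderOf g - 2)) (pair_good g hg)
    rw [List.length_replicate] at this
    omega
  · omega

/-- Main bound. -/
theorem card_le {H K : Type*} [Group H] [Finite H] [Group K] [Finite K]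
    (hsys : LengthSystem (G := K) Irr1 ⊆ LengthSystem (G := H) Irr1 ∨
      LengthSystem (G := K) Irr2 ⊆ LengthSystem (G := H) Irr2) :
    Nat.card K ≤ ((2 * 27 ^ Nat.card H) * (2 * 27 ^ Nat.card H) ^ (2 * 27 ^ Nat.card H)) ^
      (2 * 27 ^ Nat.card H + 1) :=
  P1.card_bound fun A hA => comm_subgroup_bound hsys A hA

/-- an absorbed factor makes the length set infinite -/
theorem infinite_of_absorb {H : Type*} [Group H] {Irr : Set H → Prop} {X : Set H}
    {l₁ l₂ : List (Set H)} {A : Set H} (hl : ∀ B ∈ l₁ ++ A :: l₂, Irr B)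
    (hX : (l₁ ++ A :: l₂).prod = X) (habs : l₁.prod * A = l₁.prod) :
    (LengthSet Irr X).Infinite := by
  have hmem : ∀ j : ℕ, l₁.length + (j + 1) + l₂.length ∈ LengthSet Irr X := by
    intro j
    refine ⟨l₁ ++ List.replicate (j + 1) A ++ l₂, by simp; omega, ?_, ?_⟩
    · intro B hB
      simp only [List.mem_append] at hB
      rcases hB with (hB | hB) | hB
      · exact hl B (by simp [hB])
      · rw [List.eq_of_mem_replicate hB]
        exact hl A (by simp)
      · exact hl B (by simp [hB])
    · rw [List.prod_append, List.prod_append, List.prod_replicate, mul_pow_absorb habs]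
      rw [← hX, List.prod_append, List.prod_cons, ← mul_assoc, habs]
  exact Set.infinite_of_injective_forall_mem (f := fun j : ℕ => l₁.length + (j + 1) + l₂.length)
    (fun i j hij => by simp only at hij; omega) hmem

/-- a slowly growing product lies in a cyclic subgroup -/
theorem slow_cyclic {K : Type*} [Group K] [Finite K] (l : List (Set K)) :
    (∀ A ∈ l, Nt A) →
    (∀ (l₁ : List (Set K)) (A : Set K) (l₂ : List (Set K)), l = l₁ ++ A :: l₂ →
      l₁.prod * A ≠ l₁.prod) →
    l.prod.ncard ≤ 1 + l.length → ∃ x : K, l.prod ⊆ (Subgroup.zpowers x : Set K) := by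
  induction l using List.reverseRecOn with
  | nil =>
    intro _ _ _
    refine ⟨1, ?_⟩
    intro x hx
    have : x = 1 := by simpa using hx
    rw [this]
    exact Subgroup.one_mem _
  | append_singleton l A ih =>
    intro hl habs hcard
    have hl' : ∀ B ∈ l, Nt B := fun B hB => hl B (by simp [hB])
    have hA : Nt A := hl A (by simp)
    have habs' : ∀ (l₁ : List (Set K)) (B : Set K) (l₂ : List (Set K)), l = l₁ ++ B :: l₂ →
        l₁.prod * B ≠ l₁.prod := by
      intro l₁ B l₂ h
      exact habs l₁ B (l₂ ++ [A]) (by rw [h]; simp)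
    have hgrow : 1 + l.length ≤ l.prod.ncard := by
      rcases grow_or_absorb l hl' {1} (by simp) with h | h
      · have h1 : ({1} : Set K) = 1 := rfl
        rw [Set.ncard_singleton, h1, one_mul] at h
        exact h
      · obtain ⟨l₁, B, l₂, h1, h2⟩ := h
        have h3 : ({1} : Set K) = 1 := rfl
        rw [h3, one_mul] at h2
        exact absurd h2 (habs' l₁ B l₂ h1)
    have h1l : (1 : K) ∈ l.prod := one_mem_prod fun B hB => (hl' B hB).1
    have hprod : (l ++ [A]).prod = l.prod * A := by
      rw [List.prod_append, List.prod_singleton]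
    rw [hprod] at hcard ⊢
    rw [List.length_append, List.length_singleton] at hcard
    have hsub : l.prod ⊆ l.prod * A := subset_mul_one hA.1
    have hne : l.prod ≠ l.prod * A := fun h => habs l A [] rfl h.symm
    have hlt : l.prod.ncard < (l.prod * A).ncard :=
      Set.ncard_lt_ncard (hsub.ssubset_of_ne hne) (Set.toFinite _)
    obtain ⟨x, hx⟩ := ih hl' habs' (by omega)
    rcases l with _ | ⟨B, l⟩
    · -- first factor
      simp only [List.prod_nil, one_mul, List.length_nil] at hcard ⊢
      obtain ⟨y, hy, hy1⟩ : ∃ y ∈ A, y ≠ 1 := by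
        by_contra hc
        push Not at hc
        exact hA.2 (Set.eq_singleton_iff_unique_mem.2 ⟨hA.1, hc⟩)
      refine ⟨y, ?_⟩
      have h2 : ({1, y} : Set K) ⊆ A := by
        intro z hz
        simp only [Set.mem_insert_iff, Set.mem_singleton_iff] at hz
        rcases hz with rfl | rfl
        · exact hA.1
        · exact hy
      have h3 : ({1, y} : Set K).ncard = 2 := Set.ncard_pair (Ne.symm hy1)
      have h4 : ({1, y} : Set K) = A :=
        Set.eq_of_subset_of_ncard_le h2 (by omega) (Set.toFinite _)
      rw [← h4]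
      intro z hz
      simp only [Set.mem_insert_iff, Set.mem_singleton_iff] at hz
      rcases hz with rfl | rfl
      · exact Subgroup.one_mem _
      · exact Subgroup.mem_zpowers _
    · refine ⟨x, ?_⟩
      have hAx : ∀ y ∈ A, y ∈ Subgroup.zpowers x := by
        intro y hy
        by_contra hyx
        have hdisj : Disjoint (B :: l).prod ((fun z => z * y) '' (B :: l).prod) := by
          rw [Set.disjoint_left]
          rintro _ hz ⟨w, hw, rfl⟩
          apply hyx
          have h5 := hx hz
          have h6 := hx hw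
          simp only [SetLike.mem_coe] at h5 h6
          exact (Subgroup.mul_mem_cancel_left _ h6).1 h5
        have h7 : (B :: l).prod ∪ ((fun z => z * y) '' (B :: l).prod) ⊆ (B :: l).prod * A := by
          rintro z (hz | ⟨w, hw, rfl⟩)
          · exact hsub hz
          · exact ⟨w, hw, y, hy, rfl⟩
        have h8 := Set.ncard_le_ncard h7 (Set.toFinite _)
        rw [Set.ncard_union_eq hdisj (Set.toFinite _) (Set.toFinite _),
          Set.ncard_image_of_injective _ (mul_left_injective y)] at h8
        simp only [List.length_cons] at hcard hgrow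
        omega
      rintro _ ⟨z, hz, y, hy, rfl⟩
      exact (Subgroup.zpowers x).mul_mem (hx hz) (hAx y hy)

/-- the characterisation of cyclic groups, for an abstract notion of irreducibility -/
theorem cyclic_aux {H K : Type*} [Group H] [Finite H] [Group K] [Finite K] [IsCyclic H]
    (IrrH : Set H → Prop) (IrrK : Set K → Prop) (h1H : ∀ A, Irr1 A → IrrH A)
    (hntH : ∀ A, IrrH A → Nt A) (hntK : ∀ A, IrrK A → Nt A)
    (hcard : Nat.card K ≤ Nat.card H)
    (hsys : LengthSystem IrrH ⊆ LengthSystem IrrK) : Nonempty (H ≃* K) := by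
  obtain ⟨g, hg⟩ := IsCyclic.exists_generator (α := H)
  have hord : orderOf g = Nat.card H := orderOf_eq_card_of_forall_mem_zpowers hg
  have hKpos : 0 < Nat.card K := Nat.card_pos
  by_cases hm : 3 ≤ Nat.card H
  · have hg3 : 3 ≤ orderOf g := by omega
    have hg1 : g ≠ 1 := by
      rintro rfl
      rw [orderOf_one] at hg3
      omega
    set l := List.replicate (orderOf g - 2) ({1, g} : Set H) with hldef
    have hgood := pair_good g hg3
    rw [← hldef] at hgood
    have hnt := pair_nt g hg1 (orderOf g - 2)
    rw [← hldef] at hnt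
    have hlen : l.length = Nat.card H - 2 := by rw [hldef, List.length_replicate, hord]
    obtain ⟨k, hk, hkL⟩ := exists_irr_factorization hgood _ l rfl hnt rfl
    have hkL' : k ∈ LengthSet IrrH l.prod := by
      obtain ⟨l', h1, h2, h3⟩ := hkL
      exact ⟨l', h1, fun A hA => h1H A (h2 A hA), h3⟩
    have hfin : (LengthSet IrrH l.prod).Finite := by
      refine (Set.finite_Iio (Nat.card H)).subset ?_
      rintro j ⟨l', rfl, hl', hp'⟩
      exact length_lt_of_good hgood (fun A hA => hntH A (hl' A hA)) hp'
    obtain ⟨Y, -, -, hY⟩ := hsys ⟨l.prod, Set.toFinite _,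
      one_mem_prod fun A hA => (hnt A hA).1, rfl⟩
    rw [hY] at hkL' hfin
    obtain ⟨l', hlk, hl', hp'⟩ := hkL'
    have hntl' : ∀ A ∈ l', Nt A := fun A hA => hntK A (hl' A hA)
    have hnoabs : ∀ (l₁ : List (Set K)) (A : Set K) (l₂ : List (Set K)), l' = l₁ ++ A :: l₂ →
        l₁.prod * A ≠ l₁.prod := by
      intro l₁ A l₂ h habs
      exact infinite_of_absorb (Irr := IrrK) (X := Y) (l₁ := l₁) (l₂ := l₂) (A := A)
        (by rw [← h]; exact hl') (by rw [← h]; exact hp') habs hfin
    have hgrow : 1 + l'.length ≤ l'.prod.ncard := by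
      rcases grow_or_absorb l' hntl' {1} (by simp) with h | h
      · have h1 : ({1} : Set K) = 1 := rfl
        rw [Set.ncard_singleton, h1, one_mul] at h
        exact h
      · obtain ⟨l₁, B, l₂, h1, h2⟩ := h
        have h3 : ({1} : Set K) = 1 := rfl
        rw [h3, one_mul] at h2
        exact absurd h2 (hnoabs l₁ B l₂ h1)
    have hYne : l'.prod ≠ Set.univ := by
      intro huniv
      have hl'ne : l' ≠ [] := by
        intro h
        rw [h] at hlk
        simp at hlk
        omega
      obtain ⟨A, hA⟩ := List.exists_mem_of_ne_nil l' hl'ne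
      have habs : l'.prod * A = l'.prod := by
        rw [huniv]
        apply Set.eq_univ_of_forall
        intro x
        exact ⟨x, Set.mem_univ _, 1, (hntl' A hA).1, by simp⟩
      exact infinite_of_absorb (Irr := IrrK) (X := Y) (l₁ := l') (l₂ := []) (A := A)
        (by
          intro B hB
          rcases List.mem_append.1 hB with hB | hB
          · exact hl' B hB
          · rw [List.mem_singleton] at hB
            rw [hB]
            exact hl' A hA)
        (by rw [List.prod_append, List.prod_singleton, habs]; exact hp') habs hfin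
    have hYlt : l'.prod.ncard < Nat.card K := by
      rw [← Set.ncard_univ]
      exact Set.ncard_lt_ncard ((Set.subset_univ _).ssubset_of_ne hYne) (Set.toFinite _)
    have hKH : Nat.card K = Nat.card H := by omega
    obtain ⟨x, hx⟩ := slow_cyclic l' hntl' hnoabs (by omega)
    have hxcard : Nat.card K - 1 ≤ Nat.card (Subgroup.zpowers x) := by
      have h1 : l'.prod.ncard ≤ (Subgroup.zpowers x : Set K).ncard :=
        Set.ncard_le_ncard hx (Set.toFinite _)
      have h2 : (Subgroup.zpowers x : Set K).ncard = Nat.card (Subgroup.zpowers x) := rfl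
      omega
    have hdvd : Nat.card (Subgroup.zpowers x) ∣ Nat.card K := Subgroup.card_subgroup_dvd_card _
    have heq : Nat.card (Subgroup.zpowers x) = Nat.card K := by
      obtain ⟨c, hc⟩ := hdvd
      rcases c with _ | _ | c
      · omega
      · rw [hc]; ring
      · exfalso
        have : 2 * Nat.card (Subgroup.zpowers x) ≤ Nat.card K := by
          rw [hc]
          nlinarith [Nat.zero_le (Nat.card (Subgroup.zpowers x) * c)]
        omega
    have htop : Subgroup.zpowers x = ⊤ := Subgroup.eq_top_of_card_eq _ heq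
    have : IsCyclic K := ⟨⟨x, fun y => by
      have hy : y ∈ Subgroup.zpowers x := by rw [htop]; trivial
      exact Subgroup.mem_zpowers_iff.1 hy⟩⟩
    exact ⟨mulEquivOfCyclicCardEq hKH.symm⟩
  · by_cases hK : Nat.card K = Nat.card H
    · have hKcyc : IsCyclic K := by
        have h12 : Nat.card K = 1 ∨ Nat.card K = 2 := by omega
        rcases h12 with h | h
        · have : Subsingleton K := (Nat.card_eq_one_iff_unique.1 h).1
          exact isCyclic_of_subsingleton
        · have : Fact (Nat.Prime 2) := ⟨Nat.prime_two⟩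
          exact isCyclic_of_prime_card h
      exact ⟨mulEquivOfCyclicCardEq hK.symm⟩
    · exfalso
      have hH2 : Nat.card H = 2 := by omega
      have hK1 : Nat.card K = 1 := by omega
      have hKs : Subsingleton K := (Nat.card_eq_one_iff_unique.1 hK1).1
      have hg1 : g ≠ 1 := by
        rintro rfl
        rw [orderOf_one] at hord
        omega
      obtain ⟨Y, -, hY1, hY⟩ := hsys ⟨Set.univ, Set.toFinite _, Set.mem_univ _, rfl⟩
      have hYeq : Y = {1} := by
        ext x
        have : x = 1 := Subsingleton.elim _ _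
        rw [this]
        simp [hY1]
      have h0 : (0 : ℕ) ∈ LengthSet IrrK Y := ⟨[], rfl, by simp, by
        rw [hYeq, List.prod_nil]; rfl⟩
      rw [← hY] at h0
      obtain ⟨l, hl0, -, hlp⟩ := h0
      rw [List.length_eq_zero_iff] at hl0
      rw [hl0, List.prod_nil] at hlp
      have : g ∈ (1 : Set H) := by rw [hlp]; trivial
      exact hg1 (by simpa using this)

end Pool.Agent.H80.P3
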