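import Mathlib
import Pool.Agent.H80.P2

/-! Length sets in reduced power monoids: the parity of the order of the group. -/

open Pointwise

namespace Pool.Agent.H80.P4

open Pool.Agent.H80.P2

variable {G : Type*} [Group G]

theorem irr2_inv {X : Set G} (h : Irr2 X) : Irr2 X⁻¹ := by
  refine ⟨h.1.inv, by simpa using h.2.1, ?_, ?_⟩
  · intro he
    apply h.2.2.1
    rw [← inv_inv X, he]
    simp
  · intro B C hB hC h1 h2 he
    have he' : X = C⁻¹ * B⁻¹ := by
      rw [← mul_inv_rev, ← he, inv_inv]
    rcases h.2.2.2 C⁻¹ B⁻¹ hC.inv hB.inv (by simpa using h2) (by simpa using h1) he' with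
      h | h | h | h
    · right; left
      rw [← inv_inv C, h]; simp
    · left
      rw [← inv_inv B, h]; simp
    · right; right; right
      rw [← inv_inv C, h]
    · right; right; left
      rw [← inv_inv B, h]

/-- the right stabiliser of a set, as a subgroup -/
def rstab [Finite G] (X : Set G) : Subgroup G where
  carrier := {g | ∀ x ∈ X, x * g ∈ X}
  one_mem' := by intro x hx; simpa using hx
  mul_mem' := by
    intro a b ha hb x hx
    rw [← mul_assoc]
    exact hb _ (ha x hx)
  inv_mem' := by
    intro g hg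
    have hp : ∀ n : ℕ, ∀ x ∈ X, x * g ^ n ∈ X := by
      intro n
      induction n with
      | zero => intro x hx; simpa using hx
      | succ n ih =>
        intro x hx
        rw [pow_succ, ← mul_assoc]
        exact hg _ (ih x hx)
    have hinv : g⁻¹ = g ^ (orderOf g - 1) := by
      apply inv_eq_of_mul_eq_one_right
      rw [← pow_succ']
      have : orderOf g - 1 + 1 = orderOf g := Nat.sub_add_cancel (orderOf_pos g)
      rw [this, pow_orderOf_eq_one]
    show ∀ x ∈ X, x * g⁻¹ ∈ X
    rw [hinv]
    exact hp _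

theorem mem_rstab [Finite G] {X : Set G} {g : G} : g ∈ rstab X ↔ ∀ x ∈ X, x * g ∈ X := Iff.rfl

theorem even_of_absorb_right [Finite G] {X C : Set G} (hX : Irr2 X) (hC : Nt C)
    (h : X * C = X) : 2 ∣ Nat.card G := by
  classical
  set S := rstab X with hS
  have hCS : ∀ c ∈ C, c ∈ S := fun c hc x hx => by
    rw [← h]; exact ⟨x, hx, c, hc, rfl⟩
  obtain ⟨x, hxC, hx1⟩ : ∃ x ∈ C, x ≠ 1 := by
    by_contra hc
    push Not at hc
    exact hC.2 (Set.eq_singleton_iff_unique_mem.2 ⟨hC.1, hc⟩)
  have hxS : x ∈ S := hCS x hxC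
  have hSX : ∀ s ∈ S, s ∈ X := fun s hs => by simpa using hs 1 hX.2.1
  by_cases hcase : (S : Set G) = X
  · -- `X` is a subgroup
    by_cases hinv : x * x = 1
    · have ho : orderOf x = 2 := orderOf_eq_prime (by rw [pow_two, hinv]) hx1
      rw [← ho]
      exact orderOf_dvd_natCard x
    · exfalso
      have hxi : x⁻¹ ∈ X := by rw [← hcase]; exact S.inv_mem hxS
      have hne : x⁻¹ ≠ x := by
        intro he
        apply hinv
        nth_rewrite 1 [← he]
        simp
      have hxi1 : x⁻¹ ≠ 1 := by simpa using hx1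
      have hxX : x ∈ X := hSX x hxS
      have hprod : X = ({1, x} : Set G) * (X \ {x}) := by
        apply Set.Subset.antisymm
        · intro z hz
          by_cases hzx : z = x
          · exact ⟨x, by simp, 1, ⟨hX.2.1, by simpa using hx1.symm⟩, by simp [hzx]⟩
          · exact ⟨1, by simp, z, ⟨hz, by simpa using hzx⟩, by simp⟩
        · rintro _ ⟨a, ha, b, hb, rfl⟩
          have haS : a ∈ S := by
            rcases ha with rfl | ha
            · exact S.one_mem
            · rw [Set.mem_singleton_iff] at ha
              rw [ha]; exact hxS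
          have hbS : b ∈ S := by
            have : b ∈ (S : Set G) := by rw [hcase]; exact hb.1
            exact this
          exact hSX _ (S.mul_mem haS hbS)
      rcases hX.2.2.2 {1, x} (X \ {x}) (Set.toFinite _) (Set.toFinite _) (by simp)
        ⟨hX.2.1, by simpa using hx1.symm⟩ hprod with h1 | h1 | h1 | h1
      · have : x ∈ ({1} : Set G) := by rw [← h1]; simp
        exact hx1 this
      · have : x⁻¹ ∈ ({1} : Set G) := by rw [← h1]; exact ⟨hxi, by simpa using hne⟩
        exact hxi1 this
      · have : x⁻¹ ∈ ({1, x} : Set G) := by rw [h1]; exact hxi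
        rcases this with h2 | h2
        · exact hxi1 h2
        · exact hne h2
      · have : x ∈ X \ {x} := by rw [h1]; exact hxX
        exact this.2 rfl
  · exfalso
    set T : Set G := {t | t = 1 ∨ (t ∈ X ∧ ∃ q : G ⧸ S, q ≠ ((1 : G) : G ⧸ S) ∧ q.out = t)} with hT
    have hTX : ∀ t ∈ T, t ∈ X := by
      rintro t (rfl | ht)
      · exact hX.2.1
      · exact ht.1
    have hprod : X = T * (S : Set G) := by
      apply Set.Subset.antisymm
      · intro z hz
        by_cases hzS : z ∈ S
        · exact ⟨1, Or.inl rfl, z, hzS, by simp⟩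
        · have hout : (((z : G ⧸ S).out : G) : G ⧸ S) = (z : G ⧸ S) := Quotient.out_eq' _
          have hm : ((z : G ⧸ S).out)⁻¹ * z ∈ S := QuotientGroup.eq.1 hout
          refine ⟨(z : G ⧸ S).out, Or.inr ⟨?_, (z : G ⧸ S), ?_, rfl⟩,
            ((z : G ⧸ S).out)⁻¹ * z, hm, by simp⟩
          · have hm' : z⁻¹ * (z : G ⧸ S).out ∈ S := by
              have := S.inv_mem hm
              simpa using this
            have := hm' z hz
            simpa using this
          · intro he
            apply hzS
            have := QuotientGroup.eq.1 he.symm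
            simpa using this
      · rintro _ ⟨a, ha, b, hb, rfl⟩
        exact hb a (hTX a ha)
    rcases hX.2.2.2 T (S : Set G) (Set.toFinite _) (Set.toFinite _) (Or.inl rfl)
        S.one_mem hprod with h1 | h1 | h1 | h1
    · apply hcase
      rw [h1] at hprod
      rw [hprod]
      simp
    · have : x ∈ ({1} : Set G) := by rw [← h1]; exact hxS
      exact hx1 this
    · have hxT : x ∈ T := by rw [h1]; exact hSX x hxS
      rcases hxT with h2 | ⟨_, q, hq, h2⟩
      · exact hx1 h2
      · apply hq
        have hout : ((q.out : G) : G ⧸ S) = q := Quotient.out_eq' _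
        rw [← hout, h2]
        exact (QuotientGroup.eq.2 (by simpa using hxS)).symm
    · exact hcase h1

theorem even_of_absorb [Finite G] {X C : Set G} (hX : Irr2 X) (hC : Nt C)
    (h : X * C = X ∨ C * X = X) : 2 ∣ Nat.card G := by
  rcases h with h | h
  · exact even_of_absorb_right hX hC h
  · refine even_of_absorb_right (irr2_inv hX) (C := C⁻¹) ⟨by simpa using hC.1, ?_⟩ ?_
    · intro he
      apply hC.2
      rw [← inv_inv C, he]
      simp
    · rw [← mul_inv_rev, h]

theorem two_sets {t : G} {B : Set G} (h1 : (1 : G) ∈ B) (h : B ⊆ {1, t}) : B = {1} ∨ B = {1, t} := by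
  by_cases ht : t ∈ B
  · right
    apply Set.Subset.antisymm h
    rintro y (rfl | hy)
    · exact h1
    · rw [Set.mem_singleton_iff] at hy
      rwa [hy]
  · left
    refine Set.eq_singleton_iff_unique_mem.2 ⟨h1, fun y hy => ?_⟩
    rcases h hy with h2 | h2
    · exact h2
    · rw [Set.mem_singleton_iff] at h2
      rw [h2] at hy
      exact absurd hy ht

theorem invol_mul {t : G} (ht : t * t = 1) : ({1, t} : Set G) * {1, t} = {1, t} := by
  apply Set.Subset.antisymm
  · rintro _ ⟨a, ha, b, hb, rfl⟩
    rcases ha with ha | ha <;> rcases hb with hb | hb <;>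
      simp_all
  · exact subset_mul_one (by simp)

theorem invol_irr2 {t : G} (h1 : t ≠ 1) : Irr2 ({1, t} : Set G) := by
  refine ⟨Set.toFinite _, by simp, ?_, ?_⟩
  · intro he
    have : t ∈ ({1} : Set G) := by rw [← he]; simp
    exact h1 this
  · intro B C _ _ hB hC he
    rcases two_sets (t := t) hB (by rw [he]; exact subset_mul_one hC) with h | h
    · exact Or.inl h
    · exact Or.inr (Or.inr (Or.inl h))

theorem exists_invol [Finite G] (h : 2 ∣ Nat.card G) : ∃ t : G, t ≠ 1 ∧ t * t = 1 := by
  have : Fact (Nat.Prime 2) := ⟨Nat.prime_two⟩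
  obtain ⟨t, ht⟩ := exists_prime_orderOf_dvd_card' 2 h
  refine ⟨t, ?_, ?_⟩
  · intro he
    rw [he] at ht
    simp at ht
  · have := pow_orderOf_eq_one t
    rw [ht, pow_two] at this
    exact this

/-- `Irr2`: the group has even order iff `1` and `2` lie in a common length set -/
theorem even_iff_irr2 (G : Type*) [Group G] [Finite G] :
    2 ∣ Nat.card G ↔ ∃ L ∈ LengthSystem (G := G) Irr2, 1 ∈ L ∧ 2 ∈ L := by
  constructor
  · intro h
    obtain ⟨t, ht1, ht⟩ := exists_invol h
    refine ⟨LengthSet Irr2 ({1, t} : Set G), ⟨{1, t}, Set.toFinite _, by simp, rfl⟩, ?_, ?_⟩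
    · exact ⟨[{1, t}], rfl, by
        intro A hA
        rw [List.mem_singleton] at hA
        rw [hA]
        exact invol_irr2 ht1, by simp⟩
    · exact ⟨[{1, t}, {1, t}], rfl, by
        intro A hA
        simp only [List.mem_cons, List.not_mem_nil, or_false, or_self] at hA
        rw [hA]
        exact invol_irr2 ht1, by
          rw [List.prod_cons, List.prod_singleton]
          exact invol_mul ht⟩
  · rintro ⟨L, ⟨X, _, _, rfl⟩, ⟨l, hl, hI, hp⟩, ⟨l', hl', hI', hp'⟩⟩
    obtain ⟨A, rfl⟩ := List.length_eq_one_iff.1 hl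
    obtain ⟨B, C, rfl⟩ := List.length_eq_two.1 hl'
    have hA : Irr2 X := by
      have := hI A (by simp)
      rw [List.prod_singleton] at hp
      rwa [hp] at this
    have hB : Irr2 B := hI' B (by simp)
    have hC : Irr2 C := hI' C (by simp)
    rw [List.prod_cons, List.prod_singleton] at hp'
    rcases hA.2.2.2 B C hB.1 hC.1 hB.2.1 hC.2.1 hp'.symm with h | h | h | h
    · exact absurd h hB.2.2.1
    · exact absurd h hC.2.2.1
    · exact even_of_absorb hA hC.nt (Or.inl (by rw [h] at hp'; exact hp'))
    · exact even_of_absorb hA hB.nt (Or.inr (by rw [h] at hp'; exact hp'))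

theorem factor_of_odd [Finite G] (hodd : ¬ 2 ∣ Nat.card G) :
    ∀ (n : ℕ) (X : Set G), X.ncard = n → (1 : G) ∈ X →
      ∃ l : List (Set G), (∀ A ∈ l, Irr1 A) ∧ l.prod = X := by
  intro n
  induction n using Nat.strong_induction_on with
  | _ n ih =>
    intro X hXn hX1
    by_cases hXt : X = {1}
    · exact ⟨[], by simp, by rw [hXt]; rfl⟩
    · by_cases h1 : Irr1 X
      · exact ⟨[X], by
          intro A hA
          rw [List.mem_singleton] at hA
          rwa [hA], by simp⟩
      · by_cases h2 : Irr2 X
        · exfalso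
          apply h1
          refine ⟨h2.1, h2.2.1, h2.2.2.1, fun B C hB hC hB1 hC1 he => ?_⟩
          rcases h2.2.2.2 B C hB hC hB1 hC1 he with h | h | h | h
          · exact Or.inl h
          · exact Or.inr h
          · by_contra hc
            push Not at hc
            exact hodd (even_of_absorb h2 (C := C) ⟨hC1, hc.2⟩ (Or.inl (by rw [h] at he; exact he.symm)))
          · by_contra hc
            push Not at hc
            exact hodd (even_of_absorb h2 (C := B) ⟨hB1, hc.1⟩ (Or.inr (by rw [h] at he; exact he.symm)))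
        · have : ∃ B C : Set G, (1 : G) ∈ B ∧ (1 : G) ∈ C ∧ X = B * C ∧ B ≠ X ∧ C ≠ X := by
            by_contra hc
            push Not at hc
            apply h2
            refine ⟨Set.toFinite _, hX1, hXt, fun B C _ _ hB1 hC1 he => ?_⟩
            by_cases hBX : B = X
            · exact Or.inr (Or.inr (Or.inl hBX))
            · exact Or.inr (Or.inr (Or.inr (hc B C hB1 hC1 he hBX)))
          obtain ⟨B, C, hB1, hC1, he, hBX, hCX⟩ := this
          have hBs : B ⊂ X := (by rw [he]; exact subset_mul_one hC1 : B ⊆ X).ssubset_of_ne hBX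
          have hCs : C ⊂ X := (by rw [he]; exact subset_one_mul hB1 : C ⊆ X).ssubset_of_ne hCX
          have hBn : B.ncard < n := by
            rw [← hXn]; exact Set.ncard_lt_ncard hBs (Set.toFinite _)
          have hCn : C.ncard < n := by
            rw [← hXn]; exact Set.ncard_lt_ncard hCs (Set.toFinite _)
          obtain ⟨l, hl, hlp⟩ := ih _ hBn B rfl hB1
          obtain ⟨l', hl', hlp'⟩ := ih _ hCn C rfl hC1
          refine ⟨l ++ l', ?_, by rw [List.prod_append, hlp, hlp', he]⟩
          intro A hA
          rcases List.mem_append.1 hA with hA | hA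
          · exact hl A hA
          · exact hl' A hA

/-- `Irr1`: the group has even order iff the empty set is a length set -/
theorem even_iff_irr1 (G : Type*) [Group G] [Finite G] :
    2 ∣ Nat.card G ↔ (∅ : Set ℕ) ∈ LengthSystem (G := G) Irr1 := by
  constructor
  · intro h
    obtain ⟨t, ht1, ht⟩ := exists_invol h
    refine ⟨{1, t}, Set.toFinite _, by simp, ?_⟩
    symm
    rw [Set.eq_empty_iff_forall_notMem]
    rintro k ⟨l, _, hI, hp⟩
    cases l with
    | nil =>
      have : t ∈ (([] : List (Set G)).prod) := by rw [hp]; simp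
      rw [List.prod_nil] at this
      exact ht1 this
    | cons A l =>
      have hA : Irr1 A := hI A (by simp)
      rw [List.prod_cons] at hp
      have hl1 : (1 : G) ∈ l.prod := one_mem_prod fun B hB => (hI B (by simp [hB])).2.1
      rcases two_sets (t := t) hA.2.1 (by rw [← hp]; exact subset_mul_one hl1) with h | h
      · exact hA.2.2.1 h
      · rcases hA.2.2.2 A A hA.1 hA.1 hA.2.1 hA.2.1 (by rw [h]; exact (invol_mul ht).symm) with h | h
        · exact hA.2.2.1 h
        · exact hA.2.2.1 h
  · rintro ⟨X, _, hX1, hL⟩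
    by_contra hodd
    obtain ⟨l, hl, hlp⟩ := factor_of_odd hodd _ X rfl hX1
    have : l.length ∈ (∅ : Set ℕ) := by
      rw [hL]
      exact ⟨l, rfl, hl, hlp⟩
    exact this

theorem even_mono {H K : Type*} [Group H] [Finite H] [Group K] [Finite K]
    (h : LengthSystem (G := K) Irr1 ⊆ LengthSystem (G := H) Irr1 ∨
      LengthSystem (G := K) Irr2 ⊆ LengthSystem (G := H) Irr2)
    (hK : 2 ∣ Nat.card K) : 2 ∣ Nat.card H := by
  rcases h with h | h
  · exact (even_iff_irr1 H).2 (h ((even_iff_irr1 K).1 hK))
  · obtain ⟨L, hL, h12⟩ := (even_iff_irr2 K).1 hK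
    exact (even_iff_irr2 H).2 ⟨L, h hL, h12⟩

end Pool.Agent.H80.P4
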