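import Mathlib

/-! Hankel-rank argument for power conditions on words in matrices. -/

namespace Pool.Agent.H80.Q1

open Matrix

/-- the determinant of a product factoring through too few coordinates is zero -/
theorem det_mul_eq_zero {R : Type*} [CommRing R] {m κ : Type*} [Fintype m] [DecidableEq m]
    [Fintype κ] (U : Matrix m κ R) (V : Matrix κ m R) (h : Fintype.card κ < Fintype.card m) :
    (U * V).det = 0 := by
  classical
  obtain ⟨e⟩ := Function.Embedding.nonempty_of_card_le h.le
  have hns : ¬ Function.Surjective e := by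
    intro hs
    have := Fintype.card_le_of_surjective e hs
    omega
  obtain ⟨i₀, hi₀⟩ := not_forall.1 hns
  let U' : Matrix m m R := Matrix.of fun i => Function.extend e (fun k => U i k) 0
  let V' : Matrix m m R := Matrix.of fun j i => Function.extend e (fun k => V k i) 0 j
  have h1 : U * V = U' * V' := by
    ext i j
    rw [Matrix.mul_apply, Matrix.mul_apply]
    refine Fintype.sum_of_injective e e.injective _ _ ?_ ?_
    · intro x hx
      have : U' i x = 0 := by
        change Function.extend e (fun k => U i k) 0 x = 0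
        rw [Function.extend_apply' _ _ _ (by simpa using hx)]
        rfl
      rw [this, zero_mul]
    · intro k
      change _ = Function.extend e (fun k => U i k) 0 (e k) *
        Function.extend e (fun k => V k j) 0 (e k)
      rw [e.injective.extend_apply, e.injective.extend_apply]
  rw [h1, Matrix.det_mul, Matrix.det_eq_zero_of_column_eq_zero i₀, zero_mul]
  intro i
  change Function.extend e (fun k => U i k) 0 i₀ = 0
  rw [Function.extend_apply' _ _ _ hi₀]
  rfl

/-- a function of Hankel rank at most `m` vanishing at all proper deletions of a product of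
`m` factors vanishes at the product -/
theorem hankel {R : Type*} [CommRing R] [IsReduced R] {X : Type*} [Monoid X] {κ : Type*}
    [Fintype κ] (f : X → R) (u v : κ → X → R) (huv : ∀ x y, f (x * y) = ∑ k, u k x * v k y)
    (l : List X) (hl : Fintype.card κ ≤ l.length)
    (h0 : ∀ i j, i < j → j ≤ l.length → f ((l.take i ++ l.drop j).prod) = 0) :
    f l.prod = 0 := by
  classical
  let H : Matrix (Fin (l.length + 1)) (Fin (l.length + 1)) R :=
    Matrix.of fun i j => f ((l.take i).prod * (l.drop j).prod)
  have h1 : H = (Matrix.of fun (i : Fin (l.length + 1)) (k : κ) => u k (l.take i).prod) *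
      (Matrix.of fun (k : κ) (j : Fin (l.length + 1)) => v k (l.drop j).prod) := by
    ext i j
    rw [Matrix.mul_apply]
    exact huv _ _
  have h2 : H.det = 0 := by
    rw [h1]
    apply det_mul_eq_zero
    simp only [Fintype.card_fin]
    omega
  have h3 : H.det = ∏ i, H i i := by
    apply Matrix.det_of_isLowerTriangular
    intro i j hij
    change f ((l.take i).prod * (l.drop j).prod) = 0
    rw [← List.prod_append]
    apply h0 i j
    · exact hij
    · have := j.2
      omega
  have h4 : ∀ i, H i i = f l.prod := by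
    intro i
    change f ((l.take i).prod * (l.drop i).prod) = _
    rw [List.prod_take_mul_prod_drop]
  rw [h2] at h3
  simp only [h4, Finset.prod_const] at h3
  exact eq_zero_of_pow_eq_zero h3.symm

section form

variable {R : Type*} [CommRing R] {ι : Type*} [Fintype ι] [DecidableEq ι]

/-- `F(X,Y)` is a form of degree `n` in the entries of `X`, with coefficients depending on `Y` -/
def SF (n : ℕ) (F : Matrix ι ι R → Matrix ι ι R → R) : Prop :=
  ∃ c : Sym (ι × ι) n → Matrix ι ι R → R, ∀ X Y,
    F X Y = ∑ m : Sym (ι × ι) n, ((m : Multiset (ι × ι)).map fun p => X p.1 p.2).prod * c m Y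

theorem SF.sum {n : ℕ} {α : Type*} (s : Finset α) {F : α → Matrix ι ι R → Matrix ι ι R → R}
    (h : ∀ i, SF n (F i)) : SF n (fun X Y => ∑ i ∈ s, F i X Y) := by
  choose c hc using h
  refine ⟨fun m Y => ∑ i ∈ s, c i m Y, fun X Y => ?_⟩
  simp only [hc]
  rw [Finset.sum_comm]
  simp only [Finset.mul_sum]

theorem SF.mulY {n : ℕ} {F : Matrix ι ι R → Matrix ι ι R → R} (h : SF n F)
    (g : Matrix ι ι R → R) : SF n (fun X Y => F X Y * g Y) := by
  obtain ⟨c, hc⟩ := h
  refine ⟨fun m Y => c m Y * g Y, fun X Y => ?_⟩
  simp only [hc, Finset.sum_mul, mul_assoc]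

theorem SF.mulX {n : ℕ} {F : Matrix ι ι R → Matrix ι ι R → R} (h : SF n F) (p : ι × ι) :
    SF (n + 1) (fun X Y => F X Y * X p.1 p.2) := by
  obtain ⟨c, hc⟩ := h
  refine ⟨fun m' Y => ∑ m : Sym (ι × ι) n, if Sym.cons p m = m' then c m Y else 0,
    fun X Y => ?_⟩
  simp only [hc, Finset.mul_sum, mul_ite, mul_zero]
  rw [Finset.sum_comm]
  simp only [Finset.sum_ite_eq, Finset.mem_univ, if_true, Sym.coe_cons, Multiset.map_cons,
    Multiset.prod_cons, Finset.sum_mul]
  refine Finset.sum_congr rfl fun m _ => ?_
  ring

theorem SF.base (g : Matrix ι ι R → R) : SF 0 (fun _ Y => g Y) := by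
  refine ⟨fun _ Y => g Y, fun X Y => ?_⟩
  rw [Fintype.sum_unique]
  have : ((default : Sym (ι × ι) 0) : Multiset (ι × ι)) = 0 := by
    have := (default : Sym (ι × ι) 0).2
    exact Multiset.card_eq_zero.1 this
  rw [this]
  simp

theorem SF.entry (n : ℕ) (d b : ι) :
    SF n (fun X Y : Matrix ι ι R => (Y * (X * Y) ^ n) d b) := by
  induction n generalizing b with
  | zero => simpa using SF.base (fun Y : Matrix ι ι R => Y d b)
  | succ n ih =>
    have h1 : (fun X Y : Matrix ι ι R => (Y * (X * Y) ^ (n + 1)) d b) =
        fun X Y => ∑ p : ι × ι, (Y * (X * Y) ^ n) d p.1 * X p.1 p.2 * Y p.2 b := by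
      ext X Y
      rw [pow_succ, ← mul_assoc, Matrix.mul_apply, Fintype.sum_prod_type]
      simp only [Matrix.mul_apply (M := X) (N := Y), Finset.mul_sum, mul_assoc]
    rw [h1]
    exact SF.sum _ fun p => ((ih p.1).mulX p).mulY _

/-- the bound -/
def bd (s n : ℕ) : ℕ := s * (s ^ 2 + n - 2).choose (n - 1)

theorem bd_eq (s n : ℕ) (hn : 0 < n) : bd s n = s * Nat.multichoose (s * s) (n - 1) := by
  rcases Nat.eq_zero_or_pos s with rfl | hs
  · simp [bd]
  · rw [bd, Nat.multichoose_eq, sq]
    congr 2
    have : 0 < s * s := Nat.mul_pos hs hs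
    omega

/-- the finite factorisation of the entries of `(XY)^n - 1` -/
theorem factor (n : ℕ) (a b : ι) :
    ∃ u v : Option (ι × Sym (ι × ι) n) → Matrix ι ι R → R,
      ∀ X Y, ((X * Y) ^ (n + 1)) a b - (1 : Matrix ι ι R) a b = ∑ k, u k X * v k Y := by
  choose c hc using fun d : ι => SF.entry (R := R) n d b
  refine ⟨fun k X => k.elim (-1) fun q => X a q.1 *
    ((q.2 : Multiset (ι × ι)).map fun p => X p.1 p.2).prod,
    fun k Y => k.elim ((1 : Matrix ι ι R) a b) fun q => c q.1 q.2 Y, fun X Y => ?_⟩
  rw [Fintype.sum_option, Fintype.sum_prod_type]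
  simp only [Option.elim]
  have h1 : ((X * Y) ^ (n + 1)) a b = ∑ d, X a d * (Y * (X * Y) ^ n) d b := by
    rw [pow_succ', mul_assoc, Matrix.mul_apply]
  rw [h1]
  simp only [hc, Finset.mul_sum, mul_assoc]
  ring

/-- **Main matrix theorem.** -/
theorem mat [IsReduced R] {X : Type*} [Monoid X] (φ : X →* Matrix ι ι R) (A : Set X) (n : ℕ)
    (hn : 0 < n)
    (hC : ∀ l : List X, l.length ≤ bd (Fintype.card ι) n → (∀ x ∈ l, x ∈ A) →
      φ l.prod ^ n = 1) :
    ∀ l : List X, (∀ x ∈ l, x ∈ A) → φ l.prod ^ n = 1 := by
  intro l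
  induction hN : l.length using Nat.strong_induction_on generalizing l with
  | _ N ih =>
  intro hl
  by_cases hlen : l.length ≤ bd (Fintype.card ι) n
  · exact hC l hlen hl
  · ext a b
    obtain ⟨n, rfl⟩ : ∃ m, n = m + 1 := ⟨n - 1, by omega⟩
    obtain ⟨u, v, huv⟩ := factor (R := R) n a b
    have key := hankel (fun x : X => (φ x ^ (n + 1)) a b - (1 : Matrix ι ι R) a b)
      (fun k x => u k (φ x)) (fun k y => v k (φ y)) (fun x y => by
        rw [map_mul]; exact huv _ _) l (by
        rw [bd_eq _ _ hn, Nat.add_sub_cancel] at hlen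
        rw [Fintype.card_option, Fintype.card_prod, Sym.card_sym_eq_multichoose,
          Fintype.card_prod]
        omega) (by
        intro i j hij hj
        have h1 := ih (l.take i ++ l.drop j).length (by
          subst hN
          simp only [List.length_append, List.length_take, List.length_drop]
          omega) (l.take i ++ l.drop j) rfl (by
          intro x hx
          rcases List.mem_append.1 hx with h | h
          · exact hl x (List.mem_of_mem_take h)
          · exact hl x (List.mem_of_mem_drop h))
        change (φ _ ^ (n + 1)) a b - _ = 0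
        rw [h1, sub_self])
    exact sub_eq_zero.1 key

end form

end Pool.Agent.H80.Q1
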