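import Pool.Agent.H80.Q1
import Pool.Agent.H80.E4

/-! Explicit bounds in condition `C(N,n)` for groups with linear sections. -/

namespace Pool.Agent.H80.Q2

open Matrix Pool.Agent.H80.Q1
open Pool.Agent.H80.E2 (powSub)

universe u v

/-- The condition `C(N,n)` with respect to the set `A`: every product `x₁ x₂ ⋯ x_N` with all
`x_i` in `A ∪ {1}` has trivial `n`-th power. -/
def CondS {G : Type*} [Group G] (A : Set G) (N n : ℕ) : Prop :=
  ∀ l : List G, l.length = N → (∀ x ∈ l, x ∈ A ∨ x = 1) → l.prod ^ n = 1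

theorem condS_short {G : Type*} [Group G] {A : Set G} {N n : ℕ} (h : CondS A N n) (l : List G)
    (hl : l.length ≤ N) (hA : ∀ x ∈ l, x ∈ A) : l.prod ^ n = 1 := by
  have := h (l ++ List.replicate (N - l.length) 1) (by simp; omega) (by
    intro x hx
    rcases List.mem_append.1 hx with h1 | h1
    · exact Or.inl (hA x h1)
    · exact Or.inr (List.eq_of_mem_replicate h1))
  simpa using this

/-- if the generators have finite order then every element is a positive word in them -/
theorem exists_list {G : Type*} [Group G] {A : Set G} (hA : Subgroup.closure A = ⊤) {n : ℕ}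
    (hn : 0 < n) (h : ∀ x ∈ A, x ^ n = 1) (g : G) : ∃ l : List G, (∀ x ∈ l, x ∈ A) ∧ l.prod = g := by
  have hg : g ∈ Subgroup.closure A := hA ▸ Subgroup.mem_top g
  induction hg using Subgroup.closure_induction with
  | mem x hx => exact ⟨[x], by simpa using hx, by simp⟩
  | one => exact ⟨[], by simp, by simp⟩
  | mul x y _ _ hx hy =>
    obtain ⟨l, hl, rfl⟩ := hx
    obtain ⟨m, hm, rfl⟩ := hy
    refine ⟨l ++ m, ?_, by simp⟩
    intro x hx
    rcases List.mem_append.1 hx with h1 | h1
    · exact hl x h1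
    · exact hm x h1
  | inv x hxm hx =>
    clear hxm
    obtain ⟨l, hl, rfl⟩ := hx
    induction l with
    | nil => exact ⟨[], by simp, by simp⟩
    | cons y l ih =>
      obtain ⟨m, hm, hm'⟩ := ih (fun x hx => hl x (List.mem_cons_of_mem _ hx))
      have hy : y ∈ A := hl y List.mem_cons_self
      refine ⟨m ++ List.replicate (n - 1) y, ?_, ?_⟩
      · intro x hx
        rcases List.mem_append.1 hx with h1 | h1
        · exact hm x h1
        · rw [List.eq_of_mem_replicate h1]
          exact hy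
      · rw [List.prod_append, hm', List.prod_replicate, List.prod_cons, _root_.mul_inv_rev]
        congr 1
        rw [eq_inv_iff_mul_eq_one, ← pow_succ, Nat.sub_add_cancel hn, h y hy]

/-- linear groups: every representation of degree `s` over a reduced ring kills `n`-th powers -/
theorem linear {G : Type*} [Group G] {A : Set G} (hA : Subgroup.closure A = ⊤) {n : ℕ}
    (hn : 0 < n) {R : Type*} [CommRing R] [IsReduced R] {ι : Type*} [Fintype ι] [DecidableEq ι]
    (φ : G →* Matrix ι ι R) (hC : CondS A (bd (Fintype.card ι) n) n) (g : G) : φ (g ^ n) = 1 := by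
  rcases isEmpty_or_nonempty ι with hι | hι
  · exact Subsingleton.elim _ _
  have hpos : 0 < Fintype.card ι := Fintype.card_pos
  have h1 : 1 ≤ bd (Fintype.card ι) n := by
    rw [bd]
    apply Nat.mul_pos hpos
    apply Nat.choose_pos
    have : 0 < Fintype.card ι ^ 2 := by positivity
    omega
  obtain ⟨l, hl, rfl⟩ := exists_list hA hn (fun x hx => by
    simpa using condS_short hC [x] (by simpa using h1) (by simpa using hx)) g
  rw [map_pow]
  refine mat φ A n hn (fun l hlen hl => ?_) l hl
  rw [← map_pow, condS_short hC l hlen hl, map_one]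

section induced

variable {G : Type*} [Group G] (H : Subgroup G)

theorem cocyc_mem (g : G) (j : G ⧸ H) : (g • j).out⁻¹ * g * j.out ∈ H := by
  have h1 : ((g • j).out : G ⧸ H) = ((g * j.out : G) : G ⧸ H) := by
    rw [QuotientGroup.out_eq']
    conv_lhs => rw [← QuotientGroup.out_eq' j]
    rfl
  have h2 := QuotientGroup.eq.1 h1
  rwa [← mul_assoc] at h2

/-- the cocycle -/
noncomputable def cocyc (g : G) (j : G ⧸ H) : H := ⟨(g • j).out⁻¹ * g * j.out, cocyc_mem H g j⟩

theorem cocyc_one (j : G ⧸ H) : cocyc H 1 j = 1 := by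
  apply Subtype.ext
  simp [cocyc]

theorem cocyc_mul (g h : G) (j : G ⧸ H) : cocyc H (g * h) j = cocyc H g (h • j) * cocyc H h j := by
  apply Subtype.ext
  simp only [cocyc, Subgroup.coe_mul, mul_smul]
  group

variable [Fintype (G ⧸ H)] [DecidableEq (G ⧸ H)] {R : Type*} [CommRing R] {α : Type*} [Fintype α]
  [DecidableEq α]

/-- the induced representation -/
noncomputable def ind (ρ : H →* Matrix α α R) : G →* Matrix ((G ⧸ H) × α) ((G ⧸ H) × α) R where
  toFun g := Matrix.of fun i j => if i.1 = g • j.1 then ρ (cocyc H g j.1) i.2 j.2 else 0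
  map_one' := by
    ext ⟨i, a⟩ ⟨j, b⟩
    simp only [Matrix.of_apply, one_smul, cocyc_one, map_one, Matrix.one_apply, Prod.mk.injEq]
    by_cases h : i = j <;> simp [h]
  map_mul' g h := by
    ext ⟨i, a⟩ ⟨j, b⟩
    rw [Matrix.mul_apply, Fintype.sum_prod_type]
    simp only [Matrix.of_apply, cocyc_mul, map_mul, mul_smul]
    rw [Finset.sum_eq_single (h • j)]
    · by_cases hi : i = g • h • j
      · simp [hi, Matrix.mul_apply]
      · simp [hi]
    · intro k _ hk
      simp [hk]
    · simp

theorem ind_apply (ρ : H →* Matrix α α R) (g : G) (i j : G ⧸ H) (a b : α) :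
    ind H ρ g (i, a) (j, b) = if i = g • j then ρ (cocyc H g j) a b else 0 := rfl

theorem of_ind_eq_one [Nontrivial R] [Nonempty α] (ρ : H →* Matrix α α R) (g : G)
    (h : ind H ρ g = 1) : ∃ hg : g ∈ H, ρ ⟨g, hg⟩ = 1 := by
  let j : G ⧸ H := ((1 : G) : G ⧸ H)
  have hout : j.out ∈ H := by
    have h1 : ((j.out : G) : G ⧸ H) = ((1 : G) : G ⧸ H) := QuotientGroup.out_eq' j
    have h2 := QuotientGroup.eq.1 h1.symm
    simpa using h2
  have hgj : g • j = j := by
    by_contra hne
    have h1 : ρ (cocyc H g j) = 0 := by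
      ext a b
      have := congrFun (congrFun h (g • j, a)) (j, b)
      rw [ind_apply, if_pos rfl] at this
      rw [this, Matrix.one_apply_ne (by simpa using fun h => absurd h hne)]
      rfl
    have h2 : ρ (cocyc H g j) * ρ (cocyc H g j)⁻¹ = 1 := by
      rw [← map_mul, mul_inv_cancel, map_one]
    rw [h1, zero_mul] at h2
    exact zero_ne_one h2
  have hg : g ∈ H := by
    have h1 : ((g : G) : G ⧸ H) = ((1 : G) : G ⧸ H) := by
      have : g • ((1 : G) : G ⧸ H) = ((g * 1 : G) : G ⧸ H) := rfl
      rw [mul_one] at this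
      rw [← this]
      exact hgj
    have h2 := QuotientGroup.eq.1 h1.symm
    simpa using h2
  refine ⟨hg, ?_⟩
  have h3 : ρ (cocyc H g j) = 1 := by
    ext a b
    have := congrFun (congrFun h (j, a)) (j, b)
    rw [ind_apply, if_pos hgj.symm] at this
    rw [this]
    simp [Matrix.one_apply]
  have h4 : cocyc H g j = (⟨j.out, hout⟩ : H)⁻¹ * ⟨g, hg⟩ * ⟨j.out, hout⟩ := by
    apply Subtype.ext
    simp [cocyc, hgj]
  have h5 : (⟨g, hg⟩ : H) = ⟨j.out, hout⟩ * cocyc H g j * (⟨j.out, hout⟩ : H)⁻¹ := by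
    rw [h4]; group
  rw [h5, map_mul, map_mul, h3, mul_one, ← map_mul, mul_inv_cancel, map_one]

end induced

theorem bd_mono {s t n : ℕ} (h : s ≤ t) : bd s n ≤ bd t n := by
  rw [bd, bd]
  apply Nat.mul_le_mul h
  apply Nat.choose_le_choose
  have := Nat.pow_le_pow_left h 2
  omega

theorem condS_mono {G : Type*} [Group G] {A : Set G} {N N' n : ℕ} (h : N' ≤ N)
    (hC : CondS A N n) : CondS A N' n := by
  intro l hl hx
  have := hC (l ++ List.replicate (N - N') 1) (by simp; omega) (by
    intro x hx'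
    rcases List.mem_append.1 hx' with h1 | h1
    · exact hx x h1
    · exact Or.inr (List.eq_of_mem_replicate h1))
  simpa using this

theorem core {n r M : ℕ} (hn : 0 < n) (hr : 0 < r) {G : Type u} [Group G] (A : Set G)
    (hA : Subgroup.closure A = ⊤) (hC : CondS A (bd (r * M) n) n) (H : Subgroup G)
    (h0 : H.index ≠ 0) (hM : H.index ≤ M) (R : Type v) [CommRing R] [IsReduced R] [Nontrivial R]
    (ρ : H →* Matrix (Fin r) (Fin r) R) (x : G) (hx : x ∈ powSub G n) :
    ∃ hx : x ∈ H, ρ ⟨x, hx⟩ = 1 := by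
  classical
  have : H.FiniteIndex := ⟨h0⟩
  have : Fintype (G ⧸ H) := Fintype.ofFinite _
  have : Nonempty (Fin r) := ⟨⟨0, hr⟩⟩
  apply of_ind_eq_one
  have hcard : Fintype.card ((G ⧸ H) × Fin r) ≤ r * M := by
    rw [Fintype.card_prod, Fintype.card_fin, ← Nat.card_eq_fintype_card]
    change H.index * r ≤ _
    rw [mul_comm]
    exact Nat.mul_le_mul_left _ hM
  have h1 := linear hA hn (ind H ρ) (condS_mono (bd_mono hcard) hC)
  have h2 : powSub G n ≤ (ind H ρ).ker := by
    unfold powSub
    rw [Subgroup.closure_le]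
    rintro _ ⟨g, rfl⟩
    exact h1 g
  exact h2 hx

theorem thmQ {n r M : ℕ} (hn : 0 < n) (hr : 0 < r) {G : Type u} [Group G] (A : Set G)
    (hA : Subgroup.closure A = ⊤) (hC : CondS A (bd (r * M) n) n) (H : Subgroup G)
    (h0 : H.index ≠ 0) (hM : H.index ≤ M) :
    powSub G n ≤ H ∧
      ∀ (R : Type v) [CommRing R] [IsReduced R] (ρ : H →* Matrix.GeneralLinearGroup (Fin r) R)
        (x : H), (x : G) ∈ powSub G n → ρ x = 1 := by
  refine ⟨fun x hx => (core hn hr A hA hC H h0 hM ℤ 1 x hx).1, ?_⟩
  intro R _ _ ρ x hx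
  rcases subsingleton_or_nontrivial R with hR | hR
  · exact Subsingleton.elim _ _
  obtain ⟨_, h1⟩ := core hn hr A hA hC H h0 hM R
    ((Units.coeHom _).comp ρ) x hx
  exact Units.ext h1

end Pool.Agent.H80.Q2
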