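import Pool.Agent.H80.Q2

/-! Pairs of permutations all of whose short words have order dividing `p`. -/

namespace Pool.Agent.H80.R1

open Pool.Agent.H80.Q1 (bd bd_eq)
open Pool.Agent.H80.Q2
open Pool.Agent.H80.E2 (powSub)

universe v

/-- Every word in `a, a⁻¹, b, b⁻¹` of length at most `d` has trivial `p`-th power. -/
def ShortWords (p d : ℕ) {G : Type*} [Group G] (a b : G) : Prop :=
  ∀ l : List G, l.length ≤ d → (∀ z ∈ l, z = a ∨ z = a⁻¹ ∨ z = b ∨ z = b⁻¹) → l.prod ^ p = 1

/-- The pair `(a,b)` of permutations of `n` points is `(p,d)`-good: it is transitive and every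
word of length at most `d` has trivial `p`-th power. -/
def Good (p d n : ℕ) (a b : Equiv.Perm (Fin n)) : Prop :=
  (∀ i j : Fin n, ∃ g ∈ Subgroup.closure {a, b}, g i = j) ∧ ShortWords p d a b

theorem condS_of_short {p d : ℕ} {G : Type*} [Group G] {a b : G} (h : ShortWords p d a b)
    {N : ℕ} (hN : N ≤ d) : CondS ({a, b} : Set G) N p := by
  intro l hl hx
  have key : ∀ l : List G, (∀ x ∈ l, x ∈ ({a, b} : Set G) ∨ x = 1) →
      ∃ l' : List G, l'.length ≤ l.length ∧ (∀ z ∈ l', z = a ∨ z = b) ∧ l'.prod = l.prod := by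
    intro l
    induction l with
    | nil => intro _; exact ⟨[], by simp, by simp, rfl⟩
    | cons x l ih =>
      intro hx
      obtain ⟨l', h1, h2, h3⟩ := ih (fun y hy => hx y (List.mem_cons_of_mem _ hy))
      rcases hx x List.mem_cons_self with h4 | h4
      · refine ⟨x :: l', by simpa using h1, ?_, by simp [h3]⟩
        intro z hz
        rcases List.mem_cons.1 hz with rfl | hz
        · exact h4
        · exact h2 z hz
      · refine ⟨l', by simp only [List.length_cons]; omega, h2, by simp [h3, h4]⟩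
  obtain ⟨l', h1, h2, h3⟩ := key l hx
  rw [← h3]
  apply h l' (by omega)
  intro z hz
  rcases h2 z hz with h | h
  · exact Or.inl h
  · exact Or.inr (Or.inr (Or.inl h))

/-- the pair viewed inside the group it generates -/
theorem short_sub {p d : ℕ} {G : Type*} [Group G] {a b : G} (h : ShortWords p d a b) :
    ShortWords p d (⟨a, Subgroup.subset_closure (by simp)⟩ : Subgroup.closure ({a, b} : Set G))
      ⟨b, Subgroup.subset_closure (by simp)⟩ := by
  intro l hl hz
  apply Subtype.ext
  have h1 : ((l.prod : Subgroup.closure ({a, b} : Set G)) : G) = (l.map Subtype.val).prod :=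
    map_list_prod (Subgroup.closure ({a, b} : Set G)).subtype l
  change ((l.prod : Subgroup.closure ({a, b} : Set G)) : G) ^ p = 1
  rw [h1]
  apply h _ (by simpa using hl)
  intro z hz'
  obtain ⟨x, hx, rfl⟩ := List.mem_map.1 hz'
  rcases hz x hx with h2 | h2 | h2 | h2
  · exact Or.inl (congrArg Subtype.val h2)
  · exact Or.inr (Or.inl (congrArg Subtype.val h2))
  · exact Or.inr (Or.inr (Or.inl (congrArg Subtype.val h2)))
  · exact Or.inr (Or.inr (Or.inr (congrArg Subtype.val h2)))

theorem closure_pair {G : Type*} [Group G] (a b : G) :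
    Subgroup.closure ({(⟨a, Subgroup.subset_closure (by simp)⟩ :
      Subgroup.closure ({a, b} : Set G)), ⟨b, Subgroup.subset_closure (by simp)⟩} : Set _) = ⊤ := by
  have h1 := Subgroup.closure_closure_coe_preimage (k := ({a, b} : Set G))
  have h2 : ((↑) : Subgroup.closure ({a, b} : Set G) → G) ⁻¹' ({a, b} : Set G) =
      {(⟨a, Subgroup.subset_closure (by simp)⟩ : Subgroup.closure ({a, b} : Set G)),
        ⟨b, Subgroup.subset_closure (by simp)⟩} := by
    ext x
    simp only [Set.mem_preimage, Set.mem_insert_iff, Set.mem_singleton_iff, Subtype.ext_iff]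
  rw [← h2]
  exact h1

theorem multichoose_le (n k : ℕ) : Nat.multichoose n k ≤ n ^ k := by
  induction k generalizing n with
  | zero => simp
  | succ k ih =>
    induction n with
    | zero => simp
    | succ n ihn =>
      rw [Nat.multichoose_succ_succ]
      calc n.multichoose (k + 1) + (n + 1).multichoose k
          ≤ n ^ (k + 1) + (n + 1) ^ k := Nat.add_le_add ihn (ih (n + 1))
        _ = n * n ^ k + (n + 1) ^ k := by ring
        _ ≤ n * (n + 1) ^ k + (n + 1) ^ k := by
            gcongr
            omega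
        _ = (n + 1) ^ (k + 1) := by ring

theorem bd_le (r p : ℕ) (hp : 0 < p) : bd r p ≤ r ^ (2 * p - 1) := by
  rw [bd_eq r p hp]
  calc r * Nat.multichoose (r * r) (p - 1) ≤ r * (r * r) ^ (p - 1) :=
        Nat.mul_le_mul_left _ (multichoose_le _ _)
    _ = r ^ (2 * p - 1) := by
        obtain ⟨q, rfl⟩ : ∃ q, p = q + 1 := ⟨p - 1, by omega⟩
        have : 2 * (q + 1) - 1 = 2 * q + 1 := by omega
        rw [this, Nat.add_sub_cancel, ← sq, ← pow_mul]
        ring

/-- the exponent of a group satisfying the condition, in small linear degree -/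
theorem linear_kill {p d r : ℕ} (hp : 0 < p) {G : Type*} [Group G] {a b : G}
    (h : ShortWords p d a b) (hr : bd r p ≤ d) (R : Type v) [CommRing R] [IsReduced R]
    (ρ : Subgroup.closure ({a, b} : Set G) →* Matrix.GeneralLinearGroup (Fin r) R)
    (g : Subgroup.closure ({a, b} : Set G)) : ρ (g ^ p) = 1 := by
  have h1 := linear (closure_pair a b) hp ((Units.coeHom _).comp ρ)
    (condS_of_short (short_sub h) (by simpa using hr)) g
  exact Units.ext h1

/-- a transitive `p`-group has `p`-power degree -/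
theorem pgroup_degree {p n : ℕ} [Fact p.Prime] (hpn : ¬ p ∣ n) (hn : 1 < n)
    (K : Subgroup (Equiv.Perm (Fin n))) (ht : ∀ i j : Fin n, ∃ g ∈ K, g i = j)
    (hK : ∀ g : K, g ^ p = 1) : False := by
  have h1 : IsPGroup p K := fun g => ⟨1, by rw [pow_one]; exact hK g⟩
  have i : Fin n := ⟨0, by omega⟩
  obtain ⟨k, hk⟩ := h1.card_orbit i
  have h2 : MulAction.orbit K i = Set.univ := by
    rw [Set.eq_univ_iff_forall]
    intro j
    obtain ⟨g, hg, hgj⟩ := ht i j
    exact ⟨⟨g, hg⟩, hgj⟩
  have h3 : Nat.card (MulAction.orbit K i) = n := by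
    rw [h2]
    simp
  rw [h3] at hk
  subst hk
  rcases Nat.eq_zero_or_pos k with rfl | hk
  · simp at hn
  · exact hpn (dvd_pow_self p hk.ne')

theorem linearDegree {p d n r : ℕ} (hp : p.Prime) (hpn : ¬ p ∣ n) (hn : 1 < n)
    (a b : Equiv.Perm (Fin n)) (h : Good p d n a b) (R : Type v) [CommRing R] [IsReduced R]
    (ρ : Subgroup.closure ({a, b} : Set (Equiv.Perm (Fin n))) →*
      Matrix.GeneralLinearGroup (Fin r) R) (hρ : Function.Injective ρ) :
    d < r * (r ^ 2 + p - 2).choose (p - 1) := by
  by_contra hcon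
  push Not at hcon
  have : Fact p.Prime := ⟨hp⟩
  refine pgroup_degree hpn hn _ h.1 fun g => hρ ?_
  rw [map_one]
  exact linear_kill hp.pos h.2 hcon R ρ g

theorem floor_le {p r : ℕ} (hp : 0 < p) (hr : (r : ℝ) ≤ Real.exp (Real.exp p / (2 * p - 1))) :
    bd r p ≤ ⌊Real.exp (Real.exp p)⌋₊ := by
  refine (bd_le r p hp).trans (Nat.le_floor ?_)
  push_cast
  calc (r : ℝ) ^ (2 * p - 1) ≤ (Real.exp (Real.exp p / (2 * p - 1))) ^ (2 * p - 1) := by
        gcongr
    _ = Real.exp (Real.exp p) := by
        rw [← Real.exp_nat_mul]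
        congr 1
        have h1 : ((2 * p - 1 : ℕ) : ℝ) = 2 * p - 1 := by
          rw [Nat.cast_sub (by omega)]
          push_cast
          ring
        rw [h1]
        have h2 : (2 * (p : ℝ) - 1) ≠ 0 := by
          have : (1 : ℝ) ≤ p := by exact_mod_cast hp
          linarith
        field_simp

/-- permutation representation -/
theorem index_bound {p d : ℕ} (hp : p.Prime) {G : Type*} [Group G] {a b : G}
    (h : ShortWords p d a b) (H : Subgroup (Subgroup.closure ({a, b} : Set G)))
    (h0 : H.index ≠ 0) (h1 : H.index ≠ 1) (hpH : ¬ p ∣ H.index) :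
    d < H.index * (H.index ^ 2 + p - 2).choose (p - 1) := by
  by_contra hcon
  push Not at hcon
  have : Fact p.Prime := ⟨hp⟩
  have h2 := (thmQ.{_, 0} (r := 1) (M := H.index) hp.pos one_pos _ (closure_pair a b)
    (condS_of_short (short_sub h) (by rw [one_mul]; exact hcon)) H h0 le_rfl).1
  -- the core quotient is a finite `p`-group
  let K := H.normalCore
  have hK0 : K.index ≠ 0 := by
    have : H.FiniteIndex := ⟨h0⟩
    exact Subgroup.FiniteIndex.index_ne_zero
  have h3 : ∀ g, g ^ p ∈ K := by
    intro g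
    have h4 : powSub (Subgroup.closure ({a, b} : Set G)) p ≤ K := by
      have hn : (powSub (Subgroup.closure ({a, b} : Set G)) p).Normal :=
        Pool.Agent.H80.E3.powSub_normal
      exact Subgroup.normal_le_normalCore.2 h2
    exact h4 (Subgroup.subset_closure ⟨g, rfl⟩)
  have h5 : IsPGroup p (Subgroup.closure ({a, b} : Set G) ⧸ K) := by
    intro x
    obtain ⟨g, rfl⟩ := QuotientGroup.mk_surjective x
    refine ⟨1, ?_⟩
    rw [pow_one, ← QuotientGroup.mk_pow, QuotientGroup.eq_one_iff]
    exact h3 g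
  have : K.FiniteIndex := ⟨hK0⟩
  obtain ⟨k, hk⟩ := IsPGroup.iff_card.1 h5
  have h6 : H.index ∣ p ^ k := by
    rw [← hk]
    exact Subgroup.index_dvd_of_le H.normalCore_le
  obtain ⟨j, -, hj⟩ := (Nat.dvd_prime_pow hp).1 h6
  rcases Nat.eq_zero_or_pos j with rfl | hj0
  · exact h1 (by simpa using hj)
  · exact hpH (hj ▸ dvd_pow_self p hj0.ne')

end Pool.Agent.H80.R1
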