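import Pool.Agent.H80.R1
import Pool.Agent.H80.E4

/-! Good pairs generating soluble groups of small derived length. -/

namespace Pool.Agent.H80.R2

open Pool.Agent.H80.Q1 (bd bd_eq)
open Pool.Agent.H80.Q2
open Pool.Agent.H80.E2 (powSub)
open Pool.Agent.H80.R1

/-- `GL_1` and units -/
theorem to_GL1 (R : Type*) [CommRing R] :
    ∃ f : Rˣ →* Matrix.GeneralLinearGroup (Fin 1) R, Function.Injective f := by
  refine ⟨Units.map ((Matrix.scalar (Fin 1) : R →+* Matrix (Fin 1) (Fin 1) R) : R →* _), ?_⟩
  intro x y hxy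
  have h1 : (Matrix.scalar (Fin 1) : R →+* Matrix (Fin 1) (Fin 1) R) (x : R) =
      (Matrix.scalar (Fin 1) : R →+* Matrix (Fin 1) (Fin 1) R) (y : R) :=
    congrArg Units.val hxy
  have h2 := congrFun (congrFun h1 0) 0
  apply Units.ext
  simpa using h2

/-- subgroups of small index contain the `p`-th powers in their derived subgroup -/
theorem char_kill {p : ℕ} (hp : 0 < p) {G : Type*} [Group G] [Finite G] {A : Set G}
    (hA : Subgroup.closure A = ⊤) (H : Subgroup G) (hC : CondS A (bd H.index p) p) :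
    powSub G p ≤ ⁅H, H⁆ := by
  have h0 : H.index ≠ 0 := Subgroup.FiniteIndex.index_ne_zero
  obtain ⟨h1, h2⟩ := thmQ.{_, 0} (r := 1) (M := H.index) hp one_pos A hA
    (by rw [one_mul]; exact hC) H h0 le_rfl
  intro x hx
  have hxH : x ∈ H := h1 hx
  have h3 : (⟨x, hxH⟩ : H) ∈ commutator H := by
    rw [← Abelianization.ker_of, MonoidHom.mem_ker]
    by_contra hne
    have : NeZero (Monoid.exponent (Abelianization H)) :=
      ⟨Monoid.exponent_ne_zero_of_finite⟩
    obtain ⟨φ, hφ⟩ := CommGroup.exists_apply_ne_one_of_hasEnoughRootsOfUnity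
      (Abelianization H) ℂ hne
    obtain ⟨f, hf⟩ := to_GL1 ℂ
    have h4 := h2 ℂ ((f.comp φ).comp Abelianization.of) ⟨x, hxH⟩ hx
    apply hφ
    apply hf
    rw [map_one]
    exact h4
  have h5 : x ∈ (commutator H).map H.subtype := ⟨⟨x, hxH⟩, h3, rfl⟩
  rwa [commutator_def, Subgroup.map_commutator, ← MonoidHom.range_eq_map,
    Subgroup.range_subtype] at h5

/-- the abelianization of a group of small rank -/
theorem card_ab {p : ℕ} (hp : 0 < p) (K : Type*) [Group K] [Finite K]
    (h : ∀ x : K, x ^ p ∈ commutator K) : (commutator K).index ≤ p ^ Group.rank K := by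
  have h1 : (commutator K).index = Nat.card (Abelianization K) := rfl
  rw [h1]
  have h3 : ∀ x : Abelianization K, x ^ p = 1 := by
    intro x
    obtain ⟨y, rfl⟩ := QuotientGroup.mk_surjective x
    exact (QuotientGroup.eq_one_iff _).2 (h y)
  have h4 : Group.rank (Abelianization K) ≤ Group.rank K :=
    Group.rank_le_of_surjective Abelianization.of QuotientGroup.mk_surjective
  have h2 := card_dvd_exponent_pow_rank' (Abelianization K) h3
  calc Nat.card (Abelianization K)
      ≤ p ^ Group.rank (Abelianization K) := Nat.le_of_dvd (Nat.pow_pos hp) h2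
    _ ≤ p ^ Group.rank K := Nat.pow_le_pow_right hp h4

end Pool.Agent.H80.R2
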