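import Pool.Agent.H80.R2

/-! Good pairs generating soluble groups of small derived length. -/

namespace Pool.Agent.H80.R3

open Pool.Agent.H80.Q1 (bd bd_eq)
open Pool.Agent.H80.Q2
open Pool.Agent.H80.E2 (powSub)
open Pool.Agent.H80.R1 Pool.Agent.H80.R2

/-- bounds for the indices of the terms of the derived series -/
def M (p : ℕ) : ℕ → ℕ
  | 0 => 1
  | i + 1 => p ^ (2 * M p i) * M p i

theorem M_mono (p : ℕ) (hp : 0 < p) (i : ℕ) : M p i ≤ M p (i + 1) :=
  Nat.le_mul_of_pos_left _ (Nat.pow_pos hp)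

theorem step {p : ℕ} (hp : 0 < p) {G : Type*} [Group G] [Finite G] (hr : Group.rank G ≤ 2)
    (H : Subgroup G) {m : ℕ} (hm : H.index ≤ m) (hpow : powSub G p ≤ ⁅H, H⁆) :
    (⁅H, H⁆).index ≤ p ^ (2 * m) * m := by
  have h2 : ⁅H, H⁆ = (commutator H).map H.subtype := by
    rw [commutator_def, Subgroup.map_commutator, ← MonoidHom.range_eq_map,
      Subgroup.range_subtype]
  have h3 : (⁅H, H⁆).index = (commutator H).index * H.index := by
    rw [h2]
    exact Subgroup.index_map_subtype _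
  have h4 : ∀ x : H, x ^ p ∈ commutator H := by
    intro x
    have h5 : (x : G) ^ p ∈ (commutator H).map H.subtype := by
      rw [← h2]
      exact hpow (Subgroup.subset_closure ⟨(x : G), rfl⟩)
    obtain ⟨y, hy, hyx⟩ := h5
    have h6 : y = x ^ p := Subtype.ext hyx
    rwa [← h6]
  have h5 := card_ab hp H h4
  have h6 : Group.rank H ≤ 2 * m := by
    calc Group.rank H ≤ H.index * Group.rank G := Subgroup.rank_le_index_mul_rank H
      _ ≤ m * 2 := Nat.mul_le_mul hm hr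
      _ = 2 * m := mul_comm _ _
  rw [h3]
  exact Nat.mul_le_mul (h5.trans (Nat.pow_le_pow_right hp h6)) hm

theorem series {p : ℕ} (hp : 0 < p) {G : Type*} [Group G] [Finite G] (hr : Group.rank G ≤ 2)
    {A : Set G} (hA : Subgroup.closure A = ⊤) (s : ℕ) (hC : CondS A (bd (M p s) p) p) :
    powSub G p ≤ derivedSeries G (s + 1) ∧ (derivedSeries G s).index ≤ M p s := by
  induction s with
  | zero =>
    have h1 : (derivedSeries G 0).index ≤ M p 0 := by
      simp [M]
    refine ⟨?_, h1⟩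
    rw [derivedSeries_succ]
    exact char_kill hp hA _ (condS_mono (bd_mono h1) hC)
  | succ s ih =>
    obtain ⟨h1, h2⟩ := ih (condS_mono (bd_mono (M_mono p hp s)) hC)
    have h3 : (derivedSeries G (s + 1)).index ≤ M p (s + 1) := by
      rw [derivedSeries_succ] at h1 ⊢
      exact step hp hr _ h2 h1
    refine ⟨?_, h3⟩
    rw [derivedSeries_succ G (s + 1)]
    exact char_kill hp hA _ (condS_mono (bd_mono h3) hC)

theorem rank_pair {G : Type*} [Group G] [Finite G] (a b : G)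
    (h : Subgroup.closure ({a, b} : Set G) = ⊤) : Group.rank G ≤ 2 := by
  classical
  have h1 := Group.rank_le (S := ({a, b} : Finset G)) (by simpa using h)
  exact h1.trans Finset.card_le_two

theorem not_soluble {p d n s : ℕ} (hp : p.Prime) (hpn : ¬ p ∣ n) (hn : 1 < n)
    (a b : Equiv.Perm (Fin n)) (h : Good p d n a b) (hd : bd (M p s) p ≤ d) :
    derivedSeries (Subgroup.closure ({a, b} : Set (Equiv.Perm (Fin n)))) (s + 1) ≠ ⊥ := by
  intro hbot
  have : Fact p.Prime := ⟨hp⟩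
  have h1 := (series hp.pos (rank_pair _ _ (closure_pair a b)) (closure_pair a b) s
    (condS_of_short (short_sub h.2) hd)).1
  rw [hbot] at h1
  refine pgroup_degree hpn hn _ h.1 fun g => ?_
  exact Subgroup.mem_bot.1 (h1 (Subgroup.subset_closure ⟨g, rfl⟩))

/-- auxiliary polynomial -/
def ff (p : ℕ) : ℕ := (2 * p ^ 2 + 2) * (2 * p - 1) * p

theorem ff_succ (p : ℕ) (hp : 11 ≤ p) : ff (p + 1) ≤ 2 * ff p := by
  obtain ⟨q, rfl⟩ : ∃ q, p = q + 11 := ⟨p - 11, by omega⟩
  unfold ff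
  have h1 : 2 * (q + 11 + 1) - 1 = 2 * q + 23 := by omega
  have h2 : 2 * (q + 11) - 1 = 2 * q + 21 := by omega
  rw [h1, h2]
  nlinarith [Nat.zero_le (q ^ 4), Nat.zero_le (q ^ 3), Nat.zero_le (q ^ 2), Nat.zero_le q]

theorem ff_le (p : ℕ) (hp : 11 ≤ p) : (ff p : ℝ) ≤ Real.exp p := by
  induction p, hp using Nat.le_induction with
  | base =>
    have h1 : (2.7182818283 : ℝ) < Real.exp 1 := Real.exp_one_gt_d9
    have h2 : Real.exp ((11 : ℕ) : ℝ) = (Real.exp 1) ^ 11 := by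
      rw [← Real.exp_nat_mul]
      norm_num
    rw [h2]
    have h3 : ff 11 = 56364 := by decide
    rw [h3]
    calc ((56364 : ℕ) : ℝ) ≤ (2.7182818283 : ℝ) ^ 11 := by norm_num
      _ ≤ (Real.exp 1) ^ 11 := by gcongr
  | succ p hp ih =>
    have h1 : ((ff (p + 1) : ℕ) : ℝ) ≤ ((2 * ff p : ℕ) : ℝ) := Nat.cast_le.2 (ff_succ p hp)
    have h2 : (2 : ℝ) ≤ Real.exp 1 := by
      have : (2.7182818283 : ℝ) < Real.exp 1 := Real.exp_one_gt_d9
      linarith
    have h3 : Real.exp ((p + 1 : ℕ) : ℝ) = Real.exp 1 * Real.exp p := by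
      rw [← Real.exp_add]
      congr 1
      push_cast
      ring
    rw [h3]
    refine h1.trans ?_
    rw [Nat.cast_mul]
    have h4 : (0 : ℝ) ≤ (ff p : ℝ) := Nat.cast_nonneg _
    have h5 : ((2 : ℕ) : ℝ) = 2 := by norm_num
    rw [h5]
    exact mul_le_mul h2 ih h4 (Real.exp_pos 1).le

theorem bd_M2 {p : ℕ} (hp : 11 ≤ p) : bd (M p 2) p ≤ ⌊Real.exp (Real.exp p)⌋₊ := by
  have hM : M p 2 = p ^ (2 * p ^ 2 + 2) := by
    simp only [M, mul_one]
    rw [← pow_add]
  refine (bd_le _ p (by omega)).trans (Nat.le_floor ?_)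
  rw [hM, ← pow_mul, Nat.cast_pow]
  have hp0 : (0 : ℝ) < p := by
    have : 0 < p := by omega
    exact_mod_cast this
  have h1 := ff_le p hp
  have h2 : Real.log (p : ℝ) ≤ (p : ℝ) := by
    have := Real.log_le_sub_one_of_pos hp0
    linarith
  have h3 : ff p = (2 * p ^ 2 + 2) * (2 * p - 1) * p := rfl
  rw [h3] at h1
  generalize (2 * p ^ 2 + 2) * (2 * p - 1) = E at h1 ⊢
  calc ((p : ℝ)) ^ E = Real.exp ((E : ℝ) * Real.log (p : ℝ)) := by
        rw [Real.exp_nat_mul, Real.exp_log hp0]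
    _ ≤ Real.exp (Real.exp (p : ℝ)) := by
        apply Real.exp_le_exp.2
        calc (E : ℝ) * Real.log (p : ℝ) ≤ (E : ℝ) * (p : ℝ) := by gcongr
          _ = ((E * p : ℕ) : ℝ) := by rw [Nat.cast_mul]
          _ ≤ Real.exp (p : ℝ) := h1

end Pool.Agent.H80.R3
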