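import Pool.Agent.H80.R3

/-! Good pairs: final forms. -/

namespace Pool.Agent.H80.R4

open Pool.Agent.H80.Q1 (bd bd_eq)
open Pool.Agent.H80.Q2
open Pool.Agent.H80.E2 (powSub)
open Pool.Agent.H80.R1 Pool.Agent.H80.R2 Pool.Agent.H80.R3

/-- subgroups of small index -/
theorem small_index {p d n : ℕ} (hp : p.Prime) (a b : Equiv.Perm (Fin n)) (h : ShortWords p d a b)
    (H : Subgroup (Subgroup.closure ({a, b} : Set (Equiv.Perm (Fin n)))))
    (hd : H.index * (H.index ^ 2 + p - 2).choose (p - 1) ≤ d) :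
    (∃ k, H.index = p ^ k) ∧ ∀ g, g ^ p ∈ ⁅H, H⁆ := by
  have : Fact p.Prime := ⟨hp⟩
  have h1 := char_kill hp.pos (closure_pair a b) H (condS_of_short (short_sub h) hd)
  have h2 : ∀ g, g ^ p ∈ ⁅H, H⁆ := fun g => h1 (Subgroup.subset_closure ⟨g, rfl⟩)
  refine ⟨?_, h2⟩
  let K := H.normalCore
  have hle : ⁅H, H⁆ ≤ H := by
    rw [Subgroup.commutator_le]
    intro x hx y hy
    exact H.mul_mem (H.mul_mem (H.mul_mem hx hy) (H.inv_mem hx)) (H.inv_mem hy)
  have h3 : ∀ g, g ^ p ∈ K := by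
    intro g
    have hn : (powSub (Subgroup.closure ({a, b} : Set (Equiv.Perm (Fin n)))) p).Normal :=
      Pool.Agent.H80.E3.powSub_normal
    have h4 := Subgroup.normal_le_normalCore.2 (h1.trans hle)
    exact h4 (Subgroup.subset_closure ⟨g, rfl⟩)
  have h5 : IsPGroup p (Subgroup.closure ({a, b} : Set (Equiv.Perm (Fin n))) ⧸ K) := by
    intro x
    obtain ⟨g, rfl⟩ := QuotientGroup.mk_surjective x
    refine ⟨1, ?_⟩
    rw [pow_one, ← QuotientGroup.mk_pow, QuotientGroup.eq_one_iff]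
    exact h3 g
  obtain ⟨k, hk⟩ := IsPGroup.iff_card.1 h5
  have h6 : H.index ∣ p ^ k := by
    rw [← hk]
    exact Subgroup.index_dvd_of_le H.normalCore_le
  obtain ⟨j, -, hj⟩ := (Nat.dvd_prime_pow hp).1 h6
  exact ⟨j, hj⟩

/-- the degree -/
theorem degree {p d n : ℕ} (hp : p.Prime) (hpn : ¬ p ∣ n) (hn : 1 < n)
    (a b : Equiv.Perm (Fin n)) (h : Good p d n a b) :
    d < n * (n ^ 2 + p - 2).choose (p - 1) := by
  by_contra hcon
  push Not at hcon
  let G := Subgroup.closure ({a, b} : Set (Equiv.Perm (Fin n)))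
  have i : Fin n := ⟨0, by omega⟩
  have h2 : MulAction.orbit G i = Set.univ := by
    rw [Set.eq_univ_iff_forall]
    intro j
    obtain ⟨g, hg, hgj⟩ := h.1 i j
    exact ⟨⟨g, hg⟩, hgj⟩
  have h3 : (MulAction.stabilizer G i).index = n := by
    rw [MulAction.index_stabilizer, h2, Set.ncard_univ, Nat.card_eq_fintype_card, Fintype.card_fin]
  obtain ⟨⟨k, hk⟩, -⟩ := small_index hp a b h.2 (MulAction.stabilizer G i)
    (by rw [h3]; exact hcon)
  rw [h3] at hk
  subst hk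
  rcases Nat.eq_zero_or_pos k with rfl | hk
  · simp at hn
  · exact hpn (dvd_pow_self p hk.ne')

end Pool.Agent.H80.R4
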