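import Pool.Agent.H80.R4

/-! Good pairs: no term of the derived series of small index is nilpotent. -/

namespace Pool.Agent.H80.R5

open Pool.Agent.H80.Q1 (bd bd_eq)
open Pool.Agent.H80.Q2
open Pool.Agent.H80.E2 (powSub)
open Pool.Agent.H80.R1 Pool.Agent.H80.R2 Pool.Agent.H80.R3

/-- a transitive `p`-group has `p`-power degree -/
theorem pgroup_degree' {p n : ℕ} [Fact p.Prime] (hpn : ¬ p ∣ n) (hn : 1 < n)
    (K : Subgroup (Equiv.Perm (Fin n))) (ht : ∀ i j : Fin n, ∃ g ∈ K, g i = j)
    (h1 : IsPGroup p K) : False := by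
  have i : Fin n := ⟨0, by omega⟩
  obtain ⟨k, hk⟩ := h1.card_orbit i
  have h2 : MulAction.orbit K i = Set.univ := by
    rw [Set.eq_univ_iff_forall]
    intro j
    obtain ⟨g, hg, hgj⟩ := ht i j
    exact ⟨⟨g, hg⟩, hgj⟩
  have h3 : Nat.card (MulAction.orbit K i) = n := by
    rw [h2]
    simp
  rw [h3] at hk
  subst hk
  rcases Nat.eq_zero_or_pos k with rfl | hk
  · simp at hn
  · exact hpn (dvd_pow_self p hk.ne')

/-- a soluble group of order prime to `p` all of whose `p`-th powers are in the derived subgroup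
is trivial -/
theorem trivial_of {p : ℕ} (K : Type*) [Group K] [Finite K] [Group.IsSolvable K]
    (hc : (Nat.card K).Coprime p) (h : ∀ x : K, x ^ p ∈ commutator K) : Subsingleton K := by
  by_contra hns
  rw [not_subsingleton_iff_nontrivial] at hns
  have h1 : commutator K < ⊤ := Group.IsSolvable.commutator_lt_top_of_nontrivial K
  apply h1.ne
  rw [eq_top_iff]
  intro x _
  obtain ⟨u, hu⟩ := (powCoprime hc).surjective x
  have h2 : u ^ p = x := hu
  rw [← h2]
  exact h u

/-- a finite soluble `p`-closed group all of whose `p`-th powers are in the derived subgroup is a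
`p`-group -/
theorem pgroup_of {p : ℕ} [Fact p.Prime] (H : Type*) [Group H] [Finite H] [Group.IsSolvable H]
    (P : Sylow p H) (hP : (P : Subgroup H).Normal) (h : ∀ x : H, x ^ p ∈ commutator H) :
    IsPGroup p H := by
  have h1 : Subsingleton (H ⧸ (P : Subgroup H)) := by
    apply trivial_of (p := p)
    · have h2 : Nat.card (H ⧸ (P : Subgroup H)) = (P : Subgroup H).index := rfl
      rw [h2, Nat.coprime_comm, (Fact.out : p.Prime).coprime_iff_not_dvd]
      exact P.not_dvd_index
    · intro x
      obtain ⟨y, rfl⟩ := QuotientGroup.mk_surjective x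
      have h3 : (commutator H).map (QuotientGroup.mk' (P : Subgroup H)) ≤
          commutator (H ⧸ (P : Subgroup H)) := by
        rw [commutator_def, Subgroup.map_commutator, commutator_def]
        exact Subgroup.commutator_mono le_top le_top
      exact h3 ⟨y ^ p, h y, rfl⟩
  have h2 : (P : Subgroup H) = ⊤ := QuotientGroup.subsingleton_iff.1 h1
  intro x
  have hx : x ∈ (P : Subgroup H) := h2 ▸ Subgroup.mem_top x
  obtain ⟨k, hk⟩ := P.2 ⟨x, hx⟩
  exact ⟨k, congrArg Subtype.val hk⟩

theorem comm_map {G : Type*} [Group G] (H : Subgroup G) :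
    (commutator H).map H.subtype = ⁅H, H⁆ := by
  rw [commutator_def, Subgroup.map_commutator, ← MonoidHom.range_eq_map, Subgroup.range_subtype]

theorem not_closed {p d n s : ℕ} (hp : p.Prime) (hpn : ¬ p ∣ n) (hn : 1 < n)
    (a b : Equiv.Perm (Fin n)) (h : Good p d n a b) (hd : bd (M p s) p ≤ d)
    (hsol : Group.IsSolvable
      (derivedSeries (Subgroup.closure ({a, b} : Set (Equiv.Perm (Fin n)))) s))
    (P : Sylow p (derivedSeries (Subgroup.closure ({a, b} : Set (Equiv.Perm (Fin n)))) s))
    (hP : (P : Subgroup (derivedSeries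
      (Subgroup.closure ({a, b} : Set (Equiv.Perm (Fin n)))) s)).Normal) : False := by
  have : Fact p.Prime := ⟨hp⟩
  have h1 := (series hp.pos (rank_pair _ _ (closure_pair a b)) (closure_pair a b) s
    (condS_of_short (short_sub h.2) hd)).1
  rw [derivedSeries_succ] at h1
  have h2 : ∀ x : derivedSeries (Subgroup.closure ({a, b} : Set (Equiv.Perm (Fin n)))) s,
      x ^ p ∈ commutator
        (derivedSeries (Subgroup.closure ({a, b} : Set (Equiv.Perm (Fin n)))) s) := by
    intro x
    have h3 := h1 (Subgroup.subset_closure ⟨(x : Subgroup.closure _), rfl⟩)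
    rw [← comm_map] at h3
    obtain ⟨z, hz, hzx⟩ := h3
    have h4 : z = x ^ p := Subtype.ext hzx
    rwa [← h4]
  have h3 := pgroup_of _ P hP h2
  refine pgroup_degree' hpn hn _ h.1 fun g => ?_
  have h4 : g ^ p ∈ derivedSeries (Subgroup.closure ({a, b} : Set (Equiv.Perm (Fin n)))) s := by
    have h5 := h1 (Subgroup.subset_closure ⟨g, rfl⟩)
    rw [← derivedSeries_succ] at h5
    exact derivedSeries_antitone _ (Nat.le_succ s) h5
  obtain ⟨k, hk⟩ := h3 ⟨g ^ p, h4⟩
  refine ⟨k + 1, ?_⟩
  have h5 : (g ^ p) ^ p ^ k = 1 := congrArg Subtype.val hk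
  rw [← h5, ← pow_mul, pow_succ, mul_comm]

end Pool.Agent.H80.R5
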