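import Mathlib
import Pool.Agent.H80.E2

/-! Lower bounds for `N(k,n)`: subgroups of wreath products `U ≀ Q`. -/

namespace Pool.Agent.H80.T1

open Pool.Agent.H80.E2 (CondC)

set_option linter.unusedSectionVars false

variable {U Q : Type*} [Group U] [Group Q]

open RegularWreathProduct

theorem pow_right (x : U ≀ᵣ Q) (m : ℕ) : (x ^ m).right = x.right ^ m :=
  map_pow (rightHom : U ≀ᵣ Q →* Q) x m

theorem pow_left_of_right (x : U ≀ᵣ Q) (hx : x.right = 1) (m : ℕ) : (x ^ m).left = x.left ^ m := by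
  induction m with
  | zero => simp
  | succ m ih => rw [pow_succ, pow_succ, mul_left, ih, pow_right, hx]; simp

section words

variable [DecidableEq Q] (s₀ s₁ : U) (h : Q)

/-- the group of values allowed at the coordinate `x` -/
def B (S : Set Q) (x : Q) : Subgroup U :=
  Subgroup.closure {u | (u = s₀ ∧ x ∈ S) ∨ (u = s₁ ∧ x * h⁻¹ ∈ S)}

/-- functions with allowed values -/
def LS (S : Set Q) : Subgroup (Q → U) where
  carrier := {f | ∀ x, f x ∈ B s₀ s₁ h S x}
  mul_mem' := fun hf hg x => (B s₀ s₁ h S x).mul_mem (hf x) (hg x)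
  one_mem' := fun x => (B s₀ s₁ h S x).one_mem
  inv_mem' := fun hf x => (B s₀ s₁ h S x).inv_mem (hf x)

theorem tr_mem {S T : Set Q} (q : Q) (hST : ∀ c ∈ S, q * c ∈ T) {f : Q → U}
    (hf : f ∈ LS s₀ s₁ h S) : (fun x => f (q⁻¹ * x)) ∈ LS s₀ s₁ h T := by
  intro x
  have h1 : B s₀ s₁ h S (q⁻¹ * x) ≤ B s₀ s₁ h T x := by
    apply Subgroup.closure_mono
    rintro u (⟨rfl, hx⟩ | ⟨rfl, hx⟩)
    · left
      refine ⟨rfl, ?_⟩
      have := hST _ hx
      rwa [mul_inv_cancel_left] at this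
    · right
      refine ⟨rfl, ?_⟩
      have := hST _ hx
      rwa [mul_assoc, mul_inv_cancel_left] at this
  exact h1 (hf _)

/-- prefixes -/
def P (l : List (U ≀ᵣ Q)) : Set Q := {c | ∃ i < l.length, c = ((l.take i).prod).right}

/-- admissible letters -/
def Good (x : U ≀ᵣ Q) : Prop :=
  x.left = 1 ∨ x.left = Pi.mulSingle 1 s₀ ∨ x.left = Pi.mulSingle h s₁

theorem good_mem {x : U ≀ᵣ Q} (hx : Good s₀ s₁ h x) {S : Set Q} (hS : (1 : Q) ∈ S) :
    x.left ∈ LS s₀ s₁ h S := by
  rcases hx with h1 | h1 | h1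
  · rw [h1]; exact (LS s₀ s₁ h S).one_mem
  · rw [h1]
    intro y
    by_cases hy : y = 1
    · subst hy
      rw [Pi.mulSingle_eq_same]
      exact Subgroup.subset_closure (Or.inl ⟨rfl, hS⟩)
    · rw [Pi.mulSingle_eq_of_ne hy]
      exact Subgroup.one_mem _
  · rw [h1]
    intro y
    by_cases hy : y = h
    · subst hy
      rw [Pi.mulSingle_eq_same]
      exact Subgroup.subset_closure (Or.inr ⟨rfl, by rwa [mul_inv_cancel]⟩)
    · rw [Pi.mulSingle_eq_of_ne hy]
      exact Subgroup.one_mem _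

theorem word_mem (l : List (U ≀ᵣ Q)) (hl : ∀ x ∈ l, Good s₀ s₁ h x) :
    l.prod.left ∈ LS s₀ s₁ h (P l) := by
  induction l with
  | nil => exact (LS s₀ s₁ h _).one_mem
  | cons x l ih =>
    have ih1 := ih (fun y hy => hl y (List.mem_cons_of_mem _ hy))
    have hx1 := hl x List.mem_cons_self
    have h1 : (1 : Q) ∈ P (x :: l) := ⟨0, by simp, by simp⟩
    have h2 : ∀ c ∈ P l, x.right * c ∈ P (x :: l) := by
      rintro c ⟨i, hi, rfl⟩
      exact ⟨i + 1, by simpa using hi, by simp⟩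
    rw [List.prod_cons, mul_left]
    exact (LS s₀ s₁ h _).mul_mem (good_mem s₀ s₁ h hx1 h1) (tr_mem s₀ s₁ h x.right h2 ih1)

theorem word_pow {m r : ℕ} (h0 : s₀ ^ m = 1) (h1 : s₁ ^ m = 1) (hexp : ∀ q : Q, q ^ r = 1)
    (l : List (U ≀ᵣ Q)) (hl : ∀ x ∈ l, Good s₀ s₁ h x)
    (hbad : ∀ c ∈ P l, ∀ c' ∈ P l, ∀ u < r, c⁻¹ * l.prod.right ^ u * c' ≠ h) :
    l.prod ^ (m * r) = 1 := by
  have hw := word_mem s₀ s₁ h l hl
  let S : Set Q := {c | ∃ t < r, ∃ c' ∈ P l, c = l.prod.right ^ t * c'}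
  have hS : ∀ j ≤ r, (l.prod ^ j).left ∈ LS s₀ s₁ h S := by
    intro j
    induction j with
    | zero => intro _; exact (LS s₀ s₁ h _).one_mem
    | succ j ih =>
      intro hj
      rw [pow_succ, mul_left, pow_right]
      refine (LS s₀ s₁ h _).mul_mem (ih (by omega)) (tr_mem s₀ s₁ h _ ?_ hw)
      intro c hc
      exact ⟨j, by omega, c, hc, rfl⟩
  have hr1 : (l.prod ^ r).right = 1 := by rw [pow_right, hexp]
  rw [mul_comm, pow_mul]
  apply RegularWreathProduct.ext
  · rw [pow_left_of_right _ hr1]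
    ext x
    rw [Pi.pow_apply]
    have hx := hS r le_rfl x
    generalize (l.prod ^ r).left x = u at hx
    have hcases : B s₀ s₁ h S x ≤ Subgroup.zpowers s₀ ∨ B s₀ s₁ h S x ≤ Subgroup.zpowers s₁ := by
      by_cases hxS : x ∈ S
      · left
        unfold B
        rw [Subgroup.closure_le]
        rintro v (⟨rfl, -⟩ | ⟨rfl, hx'⟩)
        · exact Subgroup.mem_zpowers _
        · exfalso
          obtain ⟨t, ht, c, hc, hx1⟩ := hxS
          obtain ⟨t', ht', c', hc', hx2⟩ := hx'
          have hr : 0 < r := by omega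
          have h6 : (l.prod.right ^ t')⁻¹ * l.prod.right ^ t =
              l.prod.right ^ ((t + (r - t')) % r) := by
            have h7 : l.prod.right ^ ((t + (r - t')) % r) = l.prod.right ^ (t + (r - t')) := by
              conv_rhs => rw [← Nat.mod_add_div (t + (r - t')) r, pow_add, pow_mul, hexp,
                one_pow, mul_one]
            rw [h7, inv_mul_eq_iff_eq_mul, ← pow_add]
            have h8 : t' + (t + (r - t')) = t + r := by omega
            rw [h8, pow_add, hexp, mul_one]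
          apply hbad c' hc' c hc ((t + (r - t')) % r) (Nat.mod_lt _ hr)
          rw [← h6]
          have h9 : h = (x * h⁻¹)⁻¹ * x := by group
          rw [h9, hx2, hx1]
          group
      · right
        unfold B
        rw [Subgroup.closure_le]
        rintro v (⟨-, hx'⟩ | ⟨rfl, -⟩)
        · exact absurd hx' hxS
        · exact Subgroup.mem_zpowers _
    rcases hcases with hc | hc
    · obtain ⟨z, rfl⟩ := hc hx
      change (s₀ ^ z) ^ m = 1
      rw [← zpow_natCast, ← zpow_mul, mul_comm, zpow_mul, zpow_natCast, h0, one_zpow]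
    · obtain ⟨z, rfl⟩ := hc hx
      change (s₁ ^ z) ^ m = 1
      rw [← zpow_natCast, ← zpow_mul, mul_comm, zpow_mul, zpow_natCast, h1, one_zpow]
  · rw [pow_right, hr1, one_pow]
    rfl

end words

section bad

variable {k : ℕ}

/-- the word in `Q` -/
def W (y : Fin k → Q) {N : ℕ} (ω : Fin N → Option (Fin k)) : List Q :=
  List.ofFn fun i => (ω i).elim 1 y

/-- the bad values -/
def val (y : Fin k → Q) {N r : ℕ} (z : (Fin N → Option (Fin k)) × Fin N × Fin N × Fin r) : Q :=
  (((W y z.1).take z.2.1).prod)⁻¹ * (W y z.1).prod ^ (z.2.2.2 : ℕ) *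
    (((W y z.1).take z.2.2.1).prod)

theorem exists_good [Finite Q] (y : Fin k → Q) {N r : ℕ}
    (hcard : r * N ^ 2 * (k + 1) ^ N + 1 < Nat.card Q) :
    ∃ h : Q, h ≠ 1 ∧
      ∀ z : (Fin N → Option (Fin k)) × Fin N × Fin N × Fin r, val y z ≠ h := by
  classical
  have : Fintype Q := Fintype.ofFinite Q
  by_contra hcon
  push Not at hcon
  have h1 := Fintype.card_le_of_surjective
    (fun z : Option ((Fin N → Option (Fin k)) × Fin N × Fin N × Fin r) => z.elim 1 (val y)) (by
      intro h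
      by_cases hh : h = 1
      · exact ⟨none, hh.symm⟩
      · obtain ⟨z, hz⟩ := hcon h hh
        exact ⟨some z, hz⟩)
  simp only [Fintype.card_prod, Fintype.card_fun, Fintype.card_option, Fintype.card_fin] at h1
  rw [Nat.card_eq_fintype_card] at hcard
  have h2 : r * N ^ 2 * (k + 1) ^ N = (k + 1) ^ N * (N * (N * r)) := by ring
  omega

end bad

end Pool.Agent.H80.T1
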