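import Pool.Agent.H80.T1

/-! Lower bounds for `N(k,n)`: the group. -/

namespace Pool.Agent.H80.T2

open Pool.Agent.H80.E2 (CondC)
open Pool.Agent.H80.T1 RegularWreathProduct

set_option linter.unusedSectionVars false

/-- two elements of order dividing `m` whose product has order a multiple of `L` -/
theorem exists_U (m L : ℕ) (hm : 2 ≤ m) (hL : 0 < L) :
    ∃ (U : Type) (_ : Group U) (_ : Finite U) (s₀ s₁ : U), s₀ ^ m = 1 ∧ s₁ ^ m = 1 ∧
      ∀ e : ℕ, (s₁ * s₀) ^ e = 1 → L ∣ e := by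
  classical
  have : NeZero m := ⟨by omega⟩
  have : NeZero L := ⟨by omega⟩
  let C := Multiplicative (ZMod m)
  let D := Multiplicative (ZMod L)
  let σ : C := Multiplicative.ofAdd (1 : ZMod m)
  let g : D := Multiplicative.ofAdd (1 : ZMod L)
  have hσ : σ ≠ 1 := by
    intro h
    have h1 : (1 : ZMod m) = 0 := congrArg Multiplicative.toAdd h
    have h2 : ((1 : ℕ) : ZMod m) = 0 := by simpa using h1
    rw [ZMod.natCast_eq_zero_iff] at h2
    have := Nat.le_of_dvd one_pos h2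
    omega
  let s₀ : D ≀ᵣ C := ⟨1, σ⟩
  let c : D ≀ᵣ C := ⟨Pi.mulSingle 1 g, 1⟩
  have h0 : s₀ ^ m = 1 := by
    have h1 : s₀ = RegularWreathProduct.inl σ := rfl
    rw [h1, ← map_pow]
    have h2 : σ ^ m = 1 := by
      change Multiplicative.ofAdd (m • (1 : ZMod m)) = 1
      simp
    rw [h2, map_one]
  refine ⟨D ≀ᵣ C, inferInstance, inferInstance, s₀, c * s₀⁻¹ * c⁻¹, h0, ?_, ?_⟩
  · rw [conj_pow, inv_pow, h0]
    simp
  · intro e he
    have hr : (c * s₀⁻¹ * c⁻¹ * s₀).right = 1 := by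
      simp [c, s₀]
    have h1 : (c * s₀⁻¹ * c⁻¹ * s₀).left 1 = g := by
      have h3 : (c * s₀⁻¹ * c⁻¹ * s₀).left 1 = g * (Pi.mulSingle (M := fun _ : C => D) 1 g σ)⁻¹ := by
        have h4 : σ⁻¹⁻¹ = σ := inv_inv σ
        simp only [c, s₀, mul_left, inv_left, inv_right, mul_right, Pi.mul_apply, inv_one, one_mul,
          mul_one, Pi.one_apply, Pi.inv_apply, Pi.mulSingle_eq_same, h4]
      rw [h3, Pi.mulSingle_eq_of_ne hσ]
      simp
    have h2 : ((c * s₀⁻¹ * c⁻¹ * s₀) ^ e).left 1 = 1 := by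
      rw [he]; rfl
    rw [pow_left_of_right _ hr, Pi.pow_apply, h1] at h2
    have h3 : (e : ℕ) • (1 : ZMod L) = 0 := congrArg Multiplicative.toAdd h2
    rw [nsmul_eq_mul, mul_one, ZMod.natCast_eq_zero_iff] at h3
    exact h3

variable {U Q : Type*} [Group U] [Group Q] [DecidableEq Q]

/-- generators -/
def gen {k : ℕ} (s₀ s₁ : U) (h : Q) (y : Fin k → Q) (i₀ i₁ i : Fin k) : U ≀ᵣ Q :=
  ⟨if i = i₀ then Pi.mulSingle 1 s₀ else if i = i₁ then Pi.mulSingle h s₁ else 1, y i⟩

theorem gen_good {k : ℕ} (s₀ s₁ : U) (h : Q) (y : Fin k → Q) (i₀ i₁ i : Fin k) :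
    Good s₀ s₁ h (gen s₀ s₁ h y i₀ i₁ i) := by
  unfold Good gen
  by_cases hi : i = i₀
  · simp [hi]
  · by_cases hi' : i = i₁
    · right; right
      simp only [if_neg hi, if_pos hi']
    · simp [hi, hi']

theorem condC_gen {k m r N : ℕ} {s₀ s₁ : U} (h0 : s₀ ^ m = 1) (h1 : s₁ ^ m = 1)
    (hexp : ∀ q : Q, q ^ r = 1) (h : Q) (y : Fin k → Q) (i₀ i₁ : Fin k)
    (hh : ∀ z : (Fin N → Option (Fin k)) × Fin N × Fin N × Fin r, val y z ≠ h) :
    CondC (gen s₀ s₁ h y i₀ i₁) N (m * r) := by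
  intro l hl hx
  apply word_pow s₀ s₁ h h0 h1 hexp
  · intro x hx'
    rcases hx x hx' with ⟨i, rfl⟩ | rfl
    · exact gen_good s₀ s₁ h y i₀ i₁ i
    · exact Or.inl rfl
  · subst hl
    have h1 : ∀ i : Fin l.length, ∃ o : Option (Fin k),
        l.get i = o.elim 1 (gen s₀ s₁ h y i₀ i₁) := by
      intro i
      rcases hx (l.get i) (List.get_mem l i) with ⟨j, hj⟩ | hj
      · exact ⟨some j, hj.symm⟩
      · exact ⟨none, hj⟩
    choose ω hω using h1
    have h2 : l.map RegularWreathProduct.right = W y ω := by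
      apply List.ext_get
      · simp [W]
      · intro n hn1 hn2
        simp only [W, List.get_eq_getElem, List.getElem_map, List.getElem_ofFn]
        have h3 := hω ⟨n, by simpa using hn1⟩
        simp only [List.get_eq_getElem] at h3
        rw [h3]
        cases ω ⟨n, by simpa using hn1⟩ <;> rfl
    have h4 : ∀ i : ℕ, ((l.take i).prod).right = ((W y ω).take i).prod := by
      intro i
      rw [← h2, ← List.map_take]
      exact map_list_prod (rightHom : U ≀ᵣ Q →* Q) _
    have h5 : l.prod.right = (W y ω).prod := by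
      rw [← h2]
      exact map_list_prod (rightHom : U ≀ᵣ Q →* Q) _
    rintro c ⟨i, hi, rfl⟩ c' ⟨j, hj, rfl⟩ u hu
    rw [h4, h4, h5]
    exact hh (ω, ⟨i, hi⟩, ⟨j, hj⟩, ⟨u, hu⟩)

/-- powers of an element with one nontrivial coordinate -/
theorem pow_single (c : Q) (s : U) (y : Q) {e : ℕ} (he : ∀ j, 0 < j → j < e → y ^ j ≠ 1) :
    ∀ j, 0 < j → j ≤ e → ((⟨Pi.mulSingle c s, y⟩ : U ≀ᵣ Q) ^ j).left c = s := by
  intro j
  induction j with
  | zero => intro h; omega
  | succ j ih =>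
    intro _ hj
    rcases Nat.eq_zero_or_pos j with rfl | hj0
    · simp
    · rw [pow_succ, mul_left, Pi.mul_apply, ih hj0 (by omega), pow_right]
      change s * (Pi.mulSingle c s : Q → U) ((y ^ j)⁻¹ * c) = s
      rw [Pi.mulSingle_eq_of_ne, mul_one]
      intro h1
      have h2 : (y ^ j)⁻¹ = 1 := by simpa using h1
      exact he j hj0 (by omega) (inv_eq_one.1 h2)

theorem word_left {k : ℕ} (s₀ s₁ : U) (h : Q) (y : Fin k → Q) (i₀ i₁ : Fin k) (l : List (Fin k)) :
    ∀ x : Q, (∀ i < l.length, (((l.take i).map y).prod ≠ x ∧ ((l.take i).map y).prod * h ≠ x)) →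
      ((l.map (gen s₀ s₁ h y i₀ i₁)).prod).left x = 1 := by
  induction l with
  | nil => intro x _; rfl
  | cons i l ih =>
    intro x hx
    rw [List.map_cons, List.prod_cons, mul_left, Pi.mul_apply]
    have h1 : (gen s₀ s₁ h y i₀ i₁ i).left x = 1 := by
      have h0 := hx 0 (by simp)
      simp only [List.take_zero, List.map_nil, List.prod_nil, one_mul, ne_eq] at h0
      unfold gen
      by_cases hi : i = i₀
      · simp only [if_pos hi]
        exact Pi.mulSingle_eq_of_ne (fun h2 => h0.1 h2.symm) _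
      · by_cases hi' : i = i₁
        · simp only [if_neg hi, if_pos hi']
          exact Pi.mulSingle_eq_of_ne (fun h2 => h0.2 h2.symm) _
        · simp only [if_neg hi, if_neg hi']
          rfl
    rw [h1, one_mul]
    change ((l.map (gen s₀ s₁ h y i₀ i₁)).prod).left ((y i)⁻¹ * x) = 1
    apply ih
    intro j hj
    have h2 := hx (j + 1) (by simpa using hj)
    simp only [List.take_succ_cons, List.map_cons, List.prod_cons] at h2
    refine ⟨fun h3 => h2.1 ?_, fun h3 => h2.2 ?_⟩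
    · rw [h3, mul_inv_cancel_left]
    · rw [mul_assoc, h3, mul_inv_cancel_left]

end Pool.Agent.H80.T2
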