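import Pool.Agent.H80.T2
import Pool.Agent.H80.Q2

/-! Lower bounds for `N(k,n)`: main construction. -/

namespace Pool.Agent.H80.T3

open Pool.Agent.H80.E2 (CondC)
open Pool.Agent.H80.T1 Pool.Agent.H80.T2 RegularWreathProduct

set_option linter.unusedSectionVars false

theorem exists_word {Q : Type*} [Group Q] {k r : ℕ} (hr : 0 < r) (hexp : ∀ q : Q, q ^ r = 1)
    (y : Fin k → Q) (hgen : Subgroup.closure (Set.range y) = ⊤) (h : Q) :
    ∃ l : List (Fin k), (l.map y).prod = h ∧
      ∀ l' : List (Fin k), (l'.map y).prod = h → l.length ≤ l'.length := by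
  classical
  have hex : ∃ n : ℕ, ∃ l : List (Fin k), l.length = n ∧ (l.map y).prod = h := by
    obtain ⟨l, hl, hl'⟩ := Pool.Agent.H80.Q2.exists_list hgen hr (fun x _ => hexp x) h
    have h1 : l ∈ Set.range (List.map y) := by
      rw [Set.range_list_map]
      exact hl
    obtain ⟨m, rfl⟩ := h1
    exact ⟨m.length, m, rfl, hl'⟩
  obtain ⟨l, hl, hl'⟩ := Nat.find_spec hex
  refine ⟨l, hl', fun l' hl'' => ?_⟩
  rw [hl]
  exact Nat.find_min' hex ⟨l', rfl, hl''⟩

theorem lower {Q : Type} [Group Q] [Finite Q] {k m r N L : ℕ} (hm : 2 ≤ m) (hL : 0 < L)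
    (hr : 0 < r) (hexp : ∀ q : Q, q ^ r = 1) (y : Fin k → Q) (hy : Function.Injective y)
    (hk : 2 ≤ k) (hgen : Subgroup.closure (Set.range y) = ⊤)
    (hcard : r * N ^ 2 * (k + 1) ^ N + 1 < Nat.card Q) :
    ∃ (G : Type) (_ : Group G) (_ : Finite G) (a : Fin k → G),
      Function.Injective a ∧ Subgroup.closure (Set.range a) = ⊤ ∧ CondC a N (m * r) ∧
      L ∣ Monoid.exponent G := by
  classical
  obtain ⟨h, hh1, hh⟩ := exists_good (k := k) y hcard
  obtain ⟨U, _, _, s₀, s₁, h0, h1, hprod⟩ := exists_U m L hm hL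
  let i₀ : Fin k := ⟨0, by omega⟩
  let i₁ : Fin k := ⟨1, by omega⟩
  have hi : i₁ ≠ i₀ := by
    intro h
    have := congrArg Fin.val h
    simp [i₀, i₁] at this
  let b : Fin k → U ≀ᵣ Q := gen s₀ s₁ h y i₀ i₁
  let K : Subgroup (U ≀ᵣ Q) := Subgroup.closure (Set.range b)
  let a : Fin k → K := fun i => ⟨b i, Subgroup.subset_closure ⟨i, rfl⟩⟩
  have ha : Subgroup.closure (Set.range a) = ⊤ := by
    have h1 := Subgroup.closure_closure_coe_preimage (k := Set.range b)
    have h2 : ((↑) : K → U ≀ᵣ Q) ⁻¹' Set.range b = Set.range a := by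
      ext x
      constructor
      · rintro ⟨i, hi⟩
        exact ⟨i, Subtype.ext hi⟩
      · rintro ⟨i, rfl⟩
        exact ⟨i, rfl⟩
    rw [← h2]
    exact h1
  have hainj : Function.Injective a := by
    intro i j hij
    apply hy
    exact congrArg (fun z : K => (z : U ≀ᵣ Q).right) hij
  refine ⟨K, inferInstance, inferInstance, a, hainj, ha, ?_, ?_⟩
  · intro l hl hx
    apply Subtype.ext
    have h1 := condC_gen h0 h1 hexp h y i₀ i₁ hh (l.map ((↑) : K → U ≀ᵣ Q)) (by simpa using hl)
      (by
        intro x hx'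
        obtain ⟨z, hz, rfl⟩ := List.mem_map.1 hx'
        rcases hx z hz with ⟨i, rfl⟩ | rfl
        · exact Or.inl ⟨i, rfl⟩
        · exact Or.inr rfl)
    have h2 : ((l.prod : K) : U ≀ᵣ Q) = (l.map ((↑) : K → U ≀ᵣ Q)).prod :=
      map_list_prod K.subtype l
    rw [Subgroup.coe_pow, h2, h1]
    rfl
  · obtain ⟨l, hl, hmin⟩ := exists_word hr hexp y hgen h
    obtain ⟨i, l, rfl⟩ : ∃ i l', l = i :: l' := by
      cases l with
      | nil => exact absurd hl.symm (by simpa using hh1)
      | cons i l => exact ⟨i, l, rfl⟩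
    have hbK : ∀ j, b j ∈ K := fun j => Subgroup.subset_closure ⟨j, rfl⟩
    let g : U ≀ᵣ Q := ((i :: l).map b).prod
    have hgK : g ∈ K := by
      apply Subgroup.list_prod_mem
      intro x hx
      obtain ⟨j, -, rfl⟩ := List.mem_map.1 hx
      exact hbK j
    have hgr : g.right = h := by
      have h2 : g.right = (((i :: l).map b).map RegularWreathProduct.right).prod :=
        map_list_prod (rightHom : U ≀ᵣ Q →* Q) ((i :: l).map b)
      rw [h2, List.map_map]
      exact hl
    have hgl : g.left h = 1 ∨ g.left h = s₁ := by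
      have h2 : g.left h = (b i).left h * ((l.map b).prod).left ((y i)⁻¹ * h) := by
        simp only [g, List.map_cons, List.prod_cons, mul_left, Pi.mul_apply]
        rfl
      have h3 : ((l.map b).prod).left ((y i)⁻¹ * h) = 1 := by
        apply word_left
        intro j hj
        have h4 : (((i :: l).take (j + 1)).map y).prod = y i * ((l.take j).map y).prod := by
          simp
        constructor
        · intro h5
          have h6 := hmin ((i :: l).take (j + 1)) (by rw [h4, h5, mul_inv_cancel_left])
          simp only [List.length_take, List.length_cons] at h6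
          omega
        · intro h5
          have h6 : (((i :: l).take (j + 1)).map y).prod = 1 := by
            rw [h4]
            have h7 := mul_right_cancel h5
            rw [h7, mul_inv_cancel]
          have h8 : (((i :: l).take (j + 1)).map y).prod *
              (((i :: l).drop (j + 1)).map y).prod = h := by
            rw [← List.prod_append, ← List.map_append, List.take_append_drop, hl]
          rw [h6, one_mul] at h8
          have h9 := hmin _ h8
          simp only [List.length_drop, List.length_cons] at h9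
          omega
      rw [h2, h3, mul_one]
      simp only [b, T2.gen]
      by_cases hc : i = i₀
      · left
        rw [if_pos hc]
        exact Pi.mulSingle_eq_of_ne hh1 _
      · by_cases hc' : i = i₁
        · right
          rw [if_neg hc, if_pos hc']
          exact Pi.mulSingle_eq_same _ _
        · left
          rw [if_neg hc, if_neg hc']
          rfl
    have hord : ∀ j, 0 < orderOf (y j) := fun j => orderOf_pos (y j)
    have hb0 : b i₀ = ⟨Pi.mulSingle 1 s₀, y i₀⟩ := by simp [b, T2.gen]
    have hb1 : b i₁ = ⟨Pi.mulSingle h s₁, y i₁⟩ := by simp [b, T2.gen, hi]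
    have z0l : ((b i₀) ^ orderOf (y i₀)).left 1 = s₀ := by
      rw [hb0]
      exact pow_single 1 s₀ (y i₀) (fun j hj hj' => pow_ne_one_of_lt_orderOf hj.ne' hj') _
        (hord i₀) le_rfl
    have z1l : ((b i₁) ^ orderOf (y i₁)).left h = s₁ := by
      rw [hb1]
      exact pow_single h s₁ (y i₁) (fun j hj hj' => pow_ne_one_of_lt_orderOf hj.ne' hj') _
        (hord i₁) le_rfl
    have z0r : ((b i₀) ^ orderOf (y i₀)).right = 1 := by
      rw [pow_right, hb0]
      exact pow_orderOf_eq_one _
    have z1r : ((b i₁) ^ orderOf (y i₁)).right = 1 := by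
      rw [pow_right, hb1]
      exact pow_orderOf_eq_one _
    let w : U ≀ᵣ Q := (b i₁) ^ orderOf (y i₁) * (g * (b i₀) ^ orderOf (y i₀) * g⁻¹)
    have hwK : w ∈ K := K.mul_mem (K.pow_mem (hbK i₁) _)
      (K.mul_mem (K.mul_mem hgK (K.pow_mem (hbK i₀) _)) (K.inv_mem hgK))
    have wr : w.right = 1 := by
      simp only [w, mul_right, z1r, z0r, inv_right, mul_one, mul_inv_cancel]
    have wl : w.left h = s₁ * (g.left h * s₀ * (g.left h)⁻¹) := by
      simp only [w, mul_left, mul_right, Pi.mul_apply, z1r, z1l, z0r, inv_left, Pi.inv_apply,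
        hgr, inv_one, one_mul, mul_one, inv_mul_cancel, z0l]
    have hw : ∀ e : ℕ, w ^ e = 1 → L ∣ e := by
      intro e he
      apply hprod
      have h2 : (w ^ e).left h = 1 := by rw [he]; rfl
      rw [pow_left_of_right _ wr, Pi.pow_apply, wl] at h2
      rcases hgl with h3 | h3
      · rw [h3] at h2
        simpa using h2
      · rw [h3] at h2
        have h4 : s₁ * (s₁ * s₀ * s₁⁻¹) = s₁ * (s₁ * s₀) * s₁⁻¹ := by group
        rw [h4, conj_pow] at h2
        have h5 : s₁ * (s₁ * s₀) ^ e = s₁ := by
          rw [← mul_inv_eq_one]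
          exact h2
        exact mul_eq_left.1 h5
    apply hw
    have h2 : (⟨w, hwK⟩ : K) ^ Monoid.exponent K = 1 := Monoid.pow_exponent_eq_one _
    exact congrArg Subtype.val h2

end Pool.Agent.H80.T3
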