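import Pool.Agent.H80.T3

/-! Two-generated groups of exponent dividing `s^j` and of tower-type order. -/

namespace Pool.Agent.H80.T4

open Pool.Agent.H80.T1 Pool.Agent.H80.T2 RegularWreathProduct

set_option linter.unusedSectionVars false

/-- the tower function: `tower s i` is a tower of `i` many `s`'s -/
def tower (s : ℕ) : ℕ → ℕ
  | 0 => 1
  | i + 1 => s ^ tower s i

theorem tower_pos (s : ℕ) (hs : 2 ≤ s) (i : ℕ) : 0 < tower s i := by
  cases i with
  | zero => exact one_pos
  | succ i => exact Nat.pow_pos (by omega)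

theorem le_tower (s : ℕ) (hs : 2 ≤ s) (i : ℕ) : s ≤ tower s (i + 1) := by
  change s ≤ s ^ tower s i
  exact Nat.le_self_pow (tower_pos s hs i).ne' s

/-- the base embedding -/
def base (D Q : Type*) [Group D] [Group Q] : (Q → D) →* D ≀ᵣ Q where
  toFun f := ⟨f, 1⟩
  map_one' := rfl
  map_mul' f g := by ext <;> simp

section step

variable {D Q : Type} [CommGroup D] [Group Q] [DecidableEq Q]

open Classical in
theorem pow_single_left (g : D) (y : Q) {e : ℕ} (he : ∀ j, 0 < j → j < e → y ^ j ≠ 1) :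
    ∀ j ≤ e, ∀ x, ((⟨Pi.mulSingle 1 g, y⟩ : D ≀ᵣ Q) ^ j).left x =
      if ∃ t < j, y ^ t = x then g else 1 := by
  intro j
  induction j with
  | zero => intro _ x; simp
  | succ j ih =>
    intro hj x
    rw [pow_succ, mul_left, Pi.mul_apply, ih (by omega), pow_right]
    change _ * (Pi.mulSingle 1 g : Q → D) ((y ^ j)⁻¹ * x) = _
    by_cases hx : x = y ^ j
    · subst hx
      rw [inv_mul_cancel, Pi.mulSingle_eq_same, if_neg, if_pos ⟨j, by omega, rfl⟩, one_mul]
      rintro ⟨t, ht, h1⟩
      apply he (j - t) (by omega) (by omega)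
      have h2 : y ^ j = y ^ t * y ^ (j - t) := by
        rw [← pow_add]; congr 1; omega
      rw [h2] at h1
      exact (left_eq_mul.1 h1)
    · rw [Pi.mulSingle_eq_of_ne, mul_one]
      · congr 1
        apply propext
        constructor
        · rintro ⟨t, ht, h1⟩
          exact ⟨t, by omega, h1⟩
        · rintro ⟨t, ht, h1⟩
          refine ⟨t, ?_, h1⟩
          rcases Nat.lt_succ_iff_lt_or_eq.1 ht with h2 | h2
          · exact h2
          · subst h2
            exact absurd h1.symm hx
      · intro h1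
        apply hx
        rw [inv_mul_eq_one] at h1
        exact h1.symm

end step


/-- restriction of a generating family to the subgroup it generates -/
theorem closure_sub {W : Type*} [Group W] {k : ℕ} (b : Fin k → W) :
    Subgroup.closure (Set.range (fun i => (⟨b i, Subgroup.subset_closure ⟨i, rfl⟩⟩ :
      Subgroup.closure (Set.range b)))) = ⊤ := by
  have h1 := Subgroup.closure_closure_coe_preimage (k := Set.range b)
  have h2 : ((↑) : Subgroup.closure (Set.range b) → W) ⁻¹' Set.range b =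
      Set.range (fun i => (⟨b i, Subgroup.subset_closure ⟨i, rfl⟩⟩ :
        Subgroup.closure (Set.range b))) := by
    ext x
    constructor
    · rintro ⟨i, hi⟩
      exact ⟨i, Subtype.ext hi⟩
    · rintro ⟨i, rfl⟩
      exact ⟨i, rfl⟩
  rw [← h2]
  exact h1

section gens

variable {D Q : Type} [CommGroup D] [Group Q] [DecidableEq Q] (g : D) (y : Fin 2 → Q)

/-- the two generators -/
def b (i : Fin 2) : D ≀ᵣ Q := ⟨if i = 0 then Pi.mulSingle 1 g else 1, y i⟩

theorem b_zero : b g y 0 = ⟨Pi.mulSingle 1 g, y 0⟩ := by simp [b]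

theorem b_right (i : Fin 2) : (b g y i).right = y i := rfl

theorem surj (hgen : Subgroup.closure (Set.range y) = ⊤) (q : Q) :
    ∃ k ∈ Subgroup.closure (Set.range (b g y)), k.right = q := by
  have h1 : (Subgroup.closure (Set.range (b g y))).map (rightHom : D ≀ᵣ Q →* Q) = ⊤ := by
    rw [MonoidHom.map_closure, ← Set.range_comp]
    have h2 : (rightHom : D ≀ᵣ Q →* Q) ∘ b g y = y := by
      ext i; rfl
    rw [h2, hgen]
  have h2 : q ∈ (Subgroup.closure (Set.range (b g y))).map (rightHom : D ≀ᵣ Q →* Q) :=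
    h1 ▸ Subgroup.mem_top q
  obtain ⟨k, hk, hk'⟩ := h2
  exact ⟨k, hk, hk'⟩

open Classical in
theorem z_left [Finite Q] (x : Q) : ((b g y 0) ^ orderOf (y 0)).left x =
    if x ∈ Subgroup.zpowers (y 0) then g else 1 := by
  rw [b_zero, pow_single_left g (y 0)
    (fun j hj hj' => pow_ne_one_of_lt_orderOf hj.ne' hj') _ le_rfl]
  have h1 : (∃ t < orderOf (y 0), (y 0) ^ t = x) ↔ x ∈ Subgroup.zpowers (y 0) := by
    constructor
    · rintro ⟨t, -, rfl⟩
      exact Subgroup.npow_mem_zpowers _ _
    · intro hx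
      rw [← mem_powers_iff_mem_zpowers, mem_powers_iff_mem_range_orderOf, Finset.mem_image] at hx
      obtain ⟨t, ht, rfl⟩ := hx
      exact ⟨t, Finset.mem_range.1 ht, rfl⟩
  simp only [h1]

theorem z_right : ((b g y 0) ^ orderOf (y 0)).right = 1 := by
  rw [pow_right, b_right, pow_orderOf_eq_one]

theorem exp_step {s r : ℕ} (hD : ∀ d : D, d ^ s = 1) (hexp : ∀ q : Q, q ^ r = 1) (x : D ≀ᵣ Q) :
    x ^ (r * s) = 1 := by
  rw [pow_mul]
  have h1 : (x ^ r).right = 1 := by rw [pow_right, hexp]
  apply RegularWreathProduct.ext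
  · rw [pow_left_of_right _ h1]
    ext1 z
    exact hD _
  · rw [pow_right, h1, one_pow]; rfl

theorem order_step [Finite Q] {s : ℕ} (hD : ∀ d : D, d ^ s = 1) (hg : ∀ e : ℕ, g ^ e = 1 → s ∣ e) :
    orderOf (b g y 0) = orderOf (y 0) * s := by
  apply Nat.dvd_antisymm
  · apply orderOf_dvd_of_pow_eq_one
    rw [pow_mul]
    apply RegularWreathProduct.ext
    · rw [pow_left_of_right _ (z_right g y)]
      ext1 z
      exact hD _
    · rw [pow_right, z_right, one_pow]; rfl
  · have h2 : (b g y 0) ^ orderOf (b g y 0) = 1 := pow_orderOf_eq_one _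
    have h3 : orderOf (y 0) ∣ orderOf (b g y 0) := by
      apply orderOf_dvd_of_pow_eq_one
      have := congrArg RegularWreathProduct.right h2
      rw [pow_right] at this
      exact this
    obtain ⟨e, he⟩ := h3
    rw [he] at h2 ⊢
    rw [pow_mul] at h2
    have h4 := congrFun (congrArg RegularWreathProduct.left h2) 1
    rw [pow_left_of_right _ (z_right g y), Pi.pow_apply, z_left,
      if_pos (Subgroup.one_mem _)] at h4
    obtain ⟨e', rfl⟩ := hg e h4
    exact ⟨e', by ring⟩

open Classical in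
theorem ind_mem [Finite Q] (hgen : Subgroup.closure (Set.range y) = ⊤) (c : Q) :
    base D Q (fun x => if c⁻¹ * x ∈ Subgroup.zpowers (y 0) then g else 1) ∈
      Subgroup.closure (Set.range (b g y)) := by
  obtain ⟨k, hk, rfl⟩ := surj g y hgen c
  have h1 : k * (b g y 0) ^ orderOf (y 0) * k⁻¹ =
      base D Q (fun x => if k.right⁻¹ * x ∈ Subgroup.zpowers (y 0) then g else 1) := by
    apply RegularWreathProduct.ext
    · ext1 x
      rw [mul_left, mul_left, Pi.mul_apply, Pi.mul_apply, mul_right, z_right, mul_one, z_left,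
        inv_left]
      simp only [Pi.inv_apply, mul_inv_cancel_left]
      change k.left x * _ * (k.left x)⁻¹ = if k.right⁻¹ * x ∈ Subgroup.zpowers (y 0) then g else 1
      rw [mul_comm, inv_mul_cancel_left]
    · rw [mul_right, mul_right, z_right, inv_right, mul_one, mul_inv_cancel]
      rfl
  have h2 : b g y 0 ∈ Subgroup.closure (Set.range (b g y)) := Subgroup.subset_closure ⟨0, rfl⟩
  rw [← h1]
  exact Subgroup.mul_mem _ (Subgroup.mul_mem _ hk (Subgroup.pow_mem _ h2 _))
    (Subgroup.inv_mem _ hk)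

open Classical in
theorem fun_mem [Finite Q] (hgen : Subgroup.closure (Set.range y) = ⊤)
    (hgen' : ∀ d : D, ∃ n : ℕ, g ^ n = d) (φ : Q ⧸ Subgroup.zpowers (y 0) → D) :
    base D Q (fun x => φ (x : Q ⧸ Subgroup.zpowers (y 0))) ∈
      Subgroup.closure (Set.range (b g y)) := by
  have : Fintype (Q ⧸ Subgroup.zpowers (y 0)) := Fintype.ofFinite _
  choose e he using hgen'
  have h1 : (fun x : Q => φ (x : Q ⧸ Subgroup.zpowers (y 0))) =
      ∏ C : Q ⧸ Subgroup.zpowers (y 0),
        (fun x : Q => if (C.out)⁻¹ * x ∈ Subgroup.zpowers (y 0) then g else 1) ^ e (φ C) := by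
    ext1 x
    rw [Finset.prod_apply, Finset.prod_eq_single (x : Q ⧸ Subgroup.zpowers (y 0))]
    · have h2 : ((x : Q ⧸ Subgroup.zpowers (y 0)).out)⁻¹ * x ∈ Subgroup.zpowers (y 0) := by
        rw [← QuotientGroup.eq, QuotientGroup.out_eq']
      simp only [Pi.pow_apply, if_pos h2]
      exact (he _).symm
    · intro C _ hC
      have h2 : ¬ ((C.out)⁻¹ * x ∈ Subgroup.zpowers (y 0)) := by
        rw [← QuotientGroup.eq, QuotientGroup.out_eq']
        exact hC
      simp only [Pi.pow_apply, if_neg h2, one_pow]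
    · simp
  rw [h1]
  change _ ∈ (Subgroup.closure (Set.range (b g y))).comap (base D Q)
  exact Subgroup.prod_mem _ fun C _ =>
    Subgroup.pow_mem ((Subgroup.closure (Set.range (b g y))).comap (base D Q))
      (Subgroup.mem_comap.2 (ind_mem g y hgen C.out)) _

theorem card_step [Finite D] [Finite Q] (hgen : Subgroup.closure (Set.range y) = ⊤)
    (hgen' : ∀ d : D, ∃ n : ℕ, g ^ n = d) :
    Nat.card D ^ Nat.card (Q ⧸ Subgroup.zpowers (y 0)) * Nat.card Q ≤
      Nat.card (Subgroup.closure (Set.range (b g y))) := by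
  choose k hkK hkr using surj g y hgen
  let Φ : (Q ⧸ Subgroup.zpowers (y 0) → D) × Q → Subgroup.closure (Set.range (b g y)) := fun z =>
    ⟨base D Q (fun x => z.1 (x : Q ⧸ Subgroup.zpowers (y 0))) * k z.2,
      Subgroup.mul_mem _ (fun_mem g y hgen hgen' z.1) (hkK z.2)⟩
  have hΦ : Function.Injective Φ := by
    rintro ⟨φ, q⟩ ⟨φ', q'⟩ h
    have h1 : base D Q (fun x => φ (x : Q ⧸ Subgroup.zpowers (y 0))) * k q =
        base D Q (fun x => φ' (x : Q ⧸ Subgroup.zpowers (y 0))) * k q' := congrArg Subtype.val h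
    have h2 : q = q' := by
      have := congrArg RegularWreathProduct.right h1
      simpa [base, hkr] using this
    subst h2
    have h3 := mul_right_cancel h1
    have h4 := congrArg RegularWreathProduct.left h3
    have h5 : φ = φ' := by
      ext1 C
      obtain ⟨x, rfl⟩ := QuotientGroup.mk_surjective C
      exact congrFun h4 x
    rw [h5]
  have h1 := Nat.card_le_card_of_injective Φ hΦ
  rwa [Nat.card_prod, Nat.card_fun] at h1

end gens

theorem step {s j T : ℕ} (hs : 2 ≤ s) (hT : s ≤ T) (Q : Type) [Group Q] [Finite Q] (y : Fin 2 → Q)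
    (hy : Function.Injective y) (hgen : Subgroup.closure (Set.range y) = ⊤)
    (hexp : ∀ q : Q, q ^ (s ^ j) = 1) (hord : orderOf (y 0) = s ^ j)
    (hcard : s ^ j * T ≤ Nat.card Q) :
    ∃ (Q' : Type) (_ : Group Q') (_ : Finite Q') (y' : Fin 2 → Q'),
      Function.Injective y' ∧ Subgroup.closure (Set.range y') = ⊤ ∧
      (∀ q : Q', q ^ (s ^ (j + 1)) = 1) ∧ orderOf (y' 0) = s ^ (j + 1) ∧
      s ^ (j + 1) * s ^ T ≤ Nat.card Q' := by
  classical
  have : NeZero s := ⟨by omega⟩
  have hD : ∀ d : Multiplicative (ZMod s), d ^ s = 1 := by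
    intro d
    change Multiplicative.ofAdd (s • (Multiplicative.toAdd d)) = 1
    simp
  obtain ⟨g, hg⟩ : ∃ g : Multiplicative (ZMod s), g = Multiplicative.ofAdd (1 : ZMod s) := ⟨_, rfl⟩
  have hg1 : ∀ e : ℕ, g ^ e = 1 → s ∣ e := by
    intro e he
    rw [hg] at he
    have h3 : (e : ℕ) • (1 : ZMod s) = 0 := congrArg Multiplicative.toAdd he
    rw [nsmul_eq_mul, mul_one, ZMod.natCast_eq_zero_iff] at h3
    exact h3
  have hg2 : ∀ d : Multiplicative (ZMod s), ∃ n : ℕ, g ^ n = d := by
    intro d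
    refine ⟨(Multiplicative.toAdd d).val, ?_⟩
    rw [hg]
    change Multiplicative.ofAdd ((Multiplicative.toAdd d).val • (1 : ZMod s)) = d
    rw [nsmul_eq_mul, mul_one, ZMod.natCast_zmod_val]
    rfl
  refine ⟨Subgroup.closure (Set.range (b g y)), inferInstance, inferInstance,
    fun i => ⟨b g y i, Subgroup.subset_closure ⟨i, rfl⟩⟩, ?_, closure_sub (b g y), ?_, ?_, ?_⟩
  · intro i j hij
    apply hy
    exact congrArg (fun z : Subgroup.closure (Set.range (b g y)) =>
      (z : Multiplicative (ZMod s) ≀ᵣ Q).right) hij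
  · intro x
    apply Subtype.ext
    rw [pow_succ]
    exact exp_step hD hexp _
  · rw [← Subgroup.orderOf_coe]
    change orderOf (b g y 0) = _
    rw [order_step g y hD hg1, hord, pow_succ]
  · have h1 := card_step g y hgen hg2
    have h2 : Nat.card (Multiplicative (ZMod s)) = s := by
      change Nat.card (ZMod s) = s
      exact Nat.card_zmod s
    have h3 : Nat.card (Subgroup.zpowers (y 0)) = s ^ j := by
      rw [← hord]; exact Nat.card_zpowers (y 0)
    have h4 : Nat.card (Subgroup.zpowers (y 0)) * Nat.card (Q ⧸ Subgroup.zpowers (y 0)) =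
        Nat.card Q := by
      rw [mul_comm]
      exact (Subgroup.card_eq_card_quotient_mul_card_subgroup _).symm
    rw [h3] at h4
    have h5 : T ≤ Nat.card (Q ⧸ Subgroup.zpowers (y 0)) := by
      have h6 : s ^ j * T ≤ s ^ j * Nat.card (Q ⧸ Subgroup.zpowers (y 0)) := by
        rw [h4]; exact hcard
      exact Nat.le_of_mul_le_mul_left h6 (Nat.pow_pos (by omega))
    rw [h2] at h1
    calc s ^ (j + 1) * s ^ T = s ^ T * (s ^ j * s) := by ring
      _ ≤ s ^ T * (s ^ j * T) := by gcongr
      _ ≤ s ^ Nat.card (Q ⧸ Subgroup.zpowers (y 0)) * Nat.card Q := by gcongr; omega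
      _ ≤ _ := h1

end Pool.Agent.H80.T4
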