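import Pool.Agent.H80.T4

/-! Tower-type lower bound for `N(2,n)`. -/

namespace Pool.Agent.H80.T5

open Pool.Agent.H80.E2 (CondC)
open Pool.Agent.H80.T4

theorem base_case (s : ℕ) (hs : 2 ≤ s) :
    ∃ (Q : Type) (_ : Group Q) (_ : Finite Q) (y : Fin 2 → Q),
      Function.Injective y ∧ Subgroup.closure (Set.range y) = ⊤ ∧
      (∀ q : Q, q ^ (s ^ 1) = 1) ∧ orderOf (y 0) = s ^ 1 ∧ s ^ 1 * s ≤ Nat.card Q := by
  classical
  have : NeZero s := ⟨by omega⟩
  let D := Multiplicative (ZMod s)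
  let g : D := Multiplicative.ofAdd (1 : ZMod s)
  have hD : ∀ d : D, d ^ s = 1 := by
    intro d
    change Multiplicative.ofAdd (s • (Multiplicative.toAdd d)) = 1
    simp
  have hg1 : ∀ e : ℕ, g ^ e = 1 → s ∣ e := by
    intro e he
    have h3 : (e : ℕ) • (1 : ZMod s) = 0 := congrArg Multiplicative.toAdd he
    rw [nsmul_eq_mul, mul_one, ZMod.natCast_eq_zero_iff] at h3
    exact h3
  have hg2 : ∀ d : D, ∃ n : ℕ, g ^ n = d := by
    intro d
    refine ⟨(Multiplicative.toAdd d).val, ?_⟩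
    change Multiplicative.ofAdd ((Multiplicative.toAdd d).val • (1 : ZMod s)) = d
    rw [nsmul_eq_mul, mul_one, ZMod.natCast_zmod_val]
    rfl
  have hg3 : g ≠ 1 := by
    intro h
    have h1 := hg1 1 (by rw [pow_one]; exact h)
    have := Nat.le_of_dvd one_pos h1
    omega
  refine ⟨D × D, inferInstance, inferInstance, ![(g, 1), (1, g)], ?_, ?_, ?_, ?_, ?_⟩
  · intro i j hij
    fin_cases i <;> fin_cases j
    · rfl
    · exact absurd (congrArg Prod.fst hij) hg3
    · exact absurd (congrArg Prod.snd hij) hg3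
    · rfl
  · rw [eq_top_iff]
    rintro ⟨d, d'⟩ -
    obtain ⟨n, rfl⟩ := hg2 d
    obtain ⟨n', rfl⟩ := hg2 d'
    have h1 : ((g, 1) : D × D) ∈ Subgroup.closure (Set.range ![((g, 1) : D × D), (1, g)]) :=
      Subgroup.subset_closure ⟨0, rfl⟩
    have h2 : ((1, g) : D × D) ∈ Subgroup.closure (Set.range ![((g, 1) : D × D), (1, g)]) :=
      Subgroup.subset_closure ⟨1, rfl⟩
    have h3 : ((g ^ n, g ^ n') : D × D) = (g, 1) ^ n * (1, g) ^ n' := by
      ext <;> simp
    rw [h3]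
    exact Subgroup.mul_mem _ (Subgroup.pow_mem _ h1 _) (Subgroup.pow_mem _ h2 _)
  · rintro ⟨d, d'⟩
    rw [pow_one]
    ext
    · exact hD d
    · exact hD d'
  · rw [pow_one]
    apply Nat.dvd_antisymm
    · apply orderOf_dvd_of_pow_eq_one
      ext
      · exact hD _
      · exact hD _
    · apply hg1
      have h1 : ((g, 1) : D × D) ^ orderOf ((g, 1) : D × D) = 1 := pow_orderOf_eq_one _
      exact congrArg Prod.fst h1
  · rw [Nat.card_prod, pow_one]
    have h2 : Nat.card D = s := by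
      change Nat.card (ZMod s) = s
      exact Nat.card_zmod s
    rw [h2]

theorem exists_big (s : ℕ) (hs : 2 ≤ s) (i : ℕ) :
    ∃ (Q : Type) (_ : Group Q) (_ : Finite Q) (y : Fin 2 → Q),
      Function.Injective y ∧ Subgroup.closure (Set.range y) = ⊤ ∧
      (∀ q : Q, q ^ (s ^ (i + 1)) = 1) ∧ orderOf (y 0) = s ^ (i + 1) ∧
      s ^ (i + 1) * tower s (i + 1) ≤ Nat.card Q := by
  induction i with
  | zero =>
    have h : tower s (0 + 1) = s := by simp [tower]
    rw [h]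
    exact base_case s hs
  | succ i ih =>
    obtain ⟨Q, _, _, y, h1, h2, h3, h4, h5⟩ := ih
    exact step hs (le_tower s hs i) Q y h1 h2 h3 h4 h5

theorem numeric (N : ℕ) : N ^ 2 * 3 ^ N + 1 ≤ 16 ^ N := by
  rcases Nat.eq_zero_or_pos N with rfl | hN
  · simp
  · have h1 : N ^ 2 ≤ 4 ^ N := by
      have : N < 2 ^ N := Nat.lt_two_pow_self
      calc N ^ 2 ≤ (2 ^ N) ^ 2 := Nat.pow_le_pow_left this.le 2
        _ = 4 ^ N := by rw [← pow_mul, mul_comm, pow_mul]; norm_num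
    have h2 : N ^ 2 * 3 ^ N ≤ 12 ^ N := by
      calc N ^ 2 * 3 ^ N ≤ 4 ^ N * 3 ^ N := Nat.mul_le_mul_right _ h1
        _ = 12 ^ N := by rw [← mul_pow]; norm_num
    have h3 : 12 ^ N < 16 ^ N := Nat.pow_lt_pow_left (by norm_num) (by omega)
    omega

theorem towerBound (m s i n : ℕ) (hm : 2 ≤ m) (hs : 2 ≤ s) (hn : 0 < n)
    (hdvd : m * s ^ (i + 1) ∣ n) :
    ∃ (G : Type) (_ : Group G) (_ : Finite G) (a : Fin 2 → G),
      Function.Injective a ∧ Subgroup.closure (Set.range a) = ⊤ ∧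
      CondC a (tower s i / 4) n ∧ n < Monoid.exponent G := by
  obtain ⟨Q, _, _, y, h1, h2, h3, h4, h5⟩ := exists_big s hs i
  have hpos : 0 < s ^ (i + 1) := Nat.pow_pos (by omega)
  have hcard : s ^ (i + 1) * (tower s i / 4) ^ 2 * (2 + 1) ^ (tower s i / 4) + 1 < Nat.card Q := by
    have h6 : (tower s i / 4) ^ 2 * 3 ^ (tower s i / 4) + 1 ≤ s ^ (tower s i) := by
      calc _ ≤ 16 ^ (tower s i / 4) := numeric _
        _ = 2 ^ (4 * (tower s i / 4)) := by rw [pow_mul]; norm_num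
        _ ≤ 2 ^ (tower s i) := Nat.pow_le_pow_right (by norm_num) (Nat.mul_div_le _ _)
        _ ≤ s ^ (tower s i) := Nat.pow_le_pow_left hs _
    have h7 : 2 ≤ s ^ (i + 1) := by
      calc 2 ≤ s := hs
        _ ≤ s ^ (i + 1) := Nat.le_self_pow (by omega) s
    have h8 : s ^ (i + 1) * ((tower s i / 4) ^ 2 * 3 ^ (tower s i / 4) + 1) ≤
        s ^ (i + 1) * tower s (i + 1) := Nat.mul_le_mul_left _ h6
    have h9 := h8.trans h5
    calc s ^ (i + 1) * (tower s i / 4) ^ 2 * (2 + 1) ^ (tower s i / 4) + 1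
        < s ^ (i + 1) * ((tower s i / 4) ^ 2 * 3 ^ (tower s i / 4) + 1) := by
          norm_num
          nlinarith
      _ ≤ _ := h9
  obtain ⟨G, _, _, a, g1, g2, g3, g4⟩ := T3.lower (L := n + 1) hm (by omega) hpos h3 y h1
    (le_refl 2) h2 hcard
  refine ⟨G, inferInstance, inferInstance, a, g1, g2, ?_, ?_⟩
  · intro l hl hx
    obtain ⟨c, rfl⟩ := hdvd
    rw [pow_mul, g3 l hl hx, one_pow]
  · have h6 : Monoid.exponent G ≠ 0 := Monoid.exponent_ne_zero_of_finite
    have := Nat.le_of_dvd (Nat.pos_of_ne_zero h6) g4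
    omega

end Pool.Agent.H80.T5
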