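import Pool.Agent.H80.T5

/-! Lower bound for `N(k,n)`: final form. -/

namespace Pool.Agent.H80.T6

open Pool.Agent.H80.E2 (CondC)

/-- `N` does not work for `(k,n)`: there is a finite group `G` generated by `k` distinct elements
which satisfies `C(N,n)` and whose exponent is greater than `n` and divisible by `L`. -/
def Fails (k n N L : ℕ) : Prop :=
  ∃ (G : Type) (_ : Group G) (_ : Finite G) (a : Fin k → G),
    Function.Injective a ∧ Subgroup.closure (Set.range a) = ⊤ ∧ CondC a N n ∧
      n < Monoid.exponent G ∧ L ∣ Monoid.exponent G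

theorem main (k m r N L : ℕ) (hk : 2 ≤ k) (hm : 2 ≤ m) (hr : 0 < r) (hL : 0 < L)
    (Q : Type) [Group Q] [Finite Q] (y : Fin k → Q) (hy : Function.Injective y)
    (hgen : Subgroup.closure (Set.range y) = ⊤) (hexp : ∀ q : Q, q ^ r = 1)
    (hcard : r * N ^ 2 * (k + 1) ^ N + 1 < Nat.card Q) : Fails k (m * r) N L := by
  obtain ⟨G, _, _, a, h1, h2, h3, h4⟩ := Pool.Agent.H80.T3.lower (L := L * (m * r + 1)) hm
    (Nat.mul_pos hL (by omega)) hr hexp y hy hk hgen hcard
  refine ⟨G, inferInstance, inferInstance, a, h1, h2, h3, ?_, (Dvd.intro _ rfl).trans h4⟩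
  have h5 : Monoid.exponent G ≠ 0 := Monoid.exponent_ne_zero_of_finite
  have h6 := Nat.le_of_dvd (Nat.pos_of_ne_zero h5) ((Dvd.intro_left L rfl).trans h4)
  omega

theorem abelian (k m r N L : ℕ) (hk : 2 ≤ k) (hm : 2 ≤ m) (hr : 0 < r) (hL : 0 < L)
    (hcard : r * N ^ 2 * (k + 1) ^ N + 1 < r ^ k) : Fails k (m * r) N L := by
  classical
  have hr2 : 2 ≤ r := by
    by_contra h
    have : r = 1 := by omega
    subst this
    simp at hcard
  have : NeZero r := ⟨by omega⟩
  let D := Multiplicative (ZMod r)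
  let g : D := Multiplicative.ofAdd (1 : ZMod r)
  have hD : ∀ d : D, d ^ r = 1 := by
    intro d
    change Multiplicative.ofAdd (r • (Multiplicative.toAdd d)) = 1
    simp
  have hg2 : ∀ d : D, ∃ n : ℕ, g ^ n = d := by
    intro d
    refine ⟨(Multiplicative.toAdd d).val, ?_⟩
    change Multiplicative.ofAdd ((Multiplicative.toAdd d).val • (1 : ZMod r)) = d
    rw [nsmul_eq_mul, mul_one, ZMod.natCast_zmod_val]
    rfl
  have hg3 : g ≠ 1 := by
    intro h
    have h1 : (1 : ZMod r) = 0 := congrArg Multiplicative.toAdd h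
    have h2 : ((1 : ℕ) : ZMod r) = 0 := by simpa using h1
    rw [ZMod.natCast_eq_zero_iff] at h2
    have := Nat.le_of_dvd one_pos h2
    omega
  refine main k m r N L hk hm hr hL (Fin k → D) (fun i => Pi.mulSingle i g) ?_ ?_ ?_ ?_
  · intro i j hij
    by_contra hne
    have h1 := congrFun hij i
    simp only [Pi.mulSingle_eq_same] at h1
    rw [Pi.mulSingle_eq_of_ne hne] at h1
    exact hg3 h1
  · rw [eq_top_iff]
    intro f _
    have h1 : f = ∏ i, Pi.mulSingle i (f i) := (Finset.univ_prod_mulSingle f).symm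
    rw [h1]
    refine Subgroup.prod_mem _ fun i _ => ?_
    obtain ⟨n, hn⟩ := hg2 (f i)
    have h2 : (Pi.mulSingle i g : Fin k → D) ∈
        Subgroup.closure (Set.range fun i => (Pi.mulSingle i g : Fin k → D)) :=
      Subgroup.subset_closure ⟨i, rfl⟩
    rw [← hn, Pi.mulSingle_pow]
    exact Subgroup.pow_mem _ h2 _
  · intro q
    ext1 i
    exact hD _
  · have h1 : Nat.card (Fin k → D) = r ^ k := by
      rw [Nat.card_fun, Nat.card_fin]
      change (Nat.card (ZMod r)) ^ k = r ^ k
      rw [Nat.card_zmod]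
    rw [h1]
    exact hcard

end Pool.Agent.H80.T6
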