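import Mathlib

/-! Changing the generating tuple of a presentation. -/

namespace Pool.Agent.H80.U1

variable {G : Type*} [Group G] {d : ℕ}

theorem lift_lift (M : Fin d → G) (N : Fin d → G) (v : Fin d → FreeGroup (Fin d))
    (hv : ∀ j, FreeGroup.lift M (v j) = N j) (f : FreeGroup (Fin d)) :
    FreeGroup.lift M (FreeGroup.lift v f) = FreeGroup.lift N f := by
  have : (FreeGroup.lift M).comp (FreeGroup.lift v) = FreeGroup.lift N := by
    ext j
    simp [hv]
  exact DFunLike.congr_fun this f

/-- Key lemma. -/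
theorem key (M N : Fin d → G) (R S : Set (FreeGroup (Fin d)))
    (hR : Subgroup.normalClosure R = (FreeGroup.lift N).ker)
    (v : Fin d → FreeGroup (Fin d)) (hv : ∀ j, FreeGroup.lift M (v j) = N j)
    (hS : S ⊆ (FreeGroup.lift M).ker)
    (α : FreeGroup (Fin d) ≃* FreeGroup (Fin d))
    (hgen : ∀ i, ∃ f, (α (FreeGroup.of i))⁻¹ * FreeGroup.lift v f ∈
      Subgroup.normalClosure (FreeGroup.lift v '' R ∪ S)) :
    Subgroup.normalClosure (FreeGroup.lift v '' R ∪ S) = (FreeGroup.lift M).ker := by
  set NC := Subgroup.normalClosure (FreeGroup.lift v '' R ∪ S) with hNC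
  have hle : NC ≤ (FreeGroup.lift M).ker := by
    apply Subgroup.normalClosure_le_normal
    rintro x (⟨ρ, hρ, rfl⟩ | hx)
    · show FreeGroup.lift M (FreeGroup.lift v ρ) = 1
      rw [lift_lift M N v hv]
      have : ρ ∈ (FreeGroup.lift N).ker := by
        rw [← hR]
        exact Subgroup.subset_normalClosure hρ
      exact this
    · exact hS hx
  apply le_antisymm hle
  -- the images of the `v j` generate the quotient
  have hkill : ∀ f ∈ (FreeGroup.lift N).ker, FreeGroup.lift v f ∈ NC := by
    intro f hf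
    rw [← hR] at hf
    have : Subgroup.normalClosure R ≤ NC.comap (FreeGroup.lift v) := by
      apply Subgroup.normalClosure_le_normal
      intro ρ hρ
      exact Subgroup.subset_normalClosure (Or.inl ⟨ρ, hρ, rfl⟩)
    exact this hf
  have hrange : ((QuotientGroup.mk' NC).comp (FreeGroup.lift v)).range = ⊤ := by
    rw [eq_top_iff]
    have h1 : ∀ x : FreeGroup (Fin d),
        QuotientGroup.mk' NC x ∈ ((QuotientGroup.mk' NC).comp (FreeGroup.lift v)).range := by
      have h2 : (⊤ : Subgroup (FreeGroup (Fin d))) ≤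
          (((QuotientGroup.mk' NC).comp (FreeGroup.lift v)).range.comap
            (QuotientGroup.mk' NC)).comap α.toMonoidHom := by
        rw [← FreeGroup.closure_range_of, Subgroup.closure_le]
        rintro _ ⟨i, rfl⟩
        obtain ⟨f, hf⟩ := hgen i
        refine ⟨f, ?_⟩
        exact (QuotientGroup.eq.2 hf).symm
      intro x
      have := h2 (Subgroup.mem_top (α.symm x))
      simpa using this
    intro y _
    obtain ⟨x, rfl⟩ := QuotientGroup.mk'_surjective NC y
    exact h1 x
  intro g hg
  have hgr : QuotientGroup.mk' NC g ∈ ((QuotientGroup.mk' NC).comp (FreeGroup.lift v)).range := by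
    rw [hrange]; exact Subgroup.mem_top _
  obtain ⟨f, hf⟩ := hgr
  have hf' : (FreeGroup.lift v f)⁻¹ * g ∈ NC := QuotientGroup.eq.1 hf
  have h1 : FreeGroup.lift M ((FreeGroup.lift v f)⁻¹ * g) = 1 := hle hf'
  have hg' : FreeGroup.lift M g = 1 := hg
  rw [map_mul, map_inv, hg', mul_one, inv_eq_one, lift_lift M N v hv] at h1
  have h2 : FreeGroup.lift v f ∈ NC := hkill f h1
  have := NC.mul_mem h2 hf'
  simpa using this

/-- changing the generating tuple costs at most `d - |I|` relators -/
theorem main (M N : Fin d → G) (hN : Subgroup.closure (Set.range N) = ⊤)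
    (R : Finset (FreeGroup (Fin d)))
    (hR : Subgroup.normalClosure (R : Set (FreeGroup (Fin d))) = (FreeGroup.lift N).ker)
    (v : Fin d → FreeGroup (Fin d)) (hv : ∀ j, FreeGroup.lift M (v j) = N j)
    (α : FreeGroup (Fin d) ≃* FreeGroup (Fin d)) (I : Finset (Fin d))
    (hI : ∀ i ∈ I, ∃ f, (α (FreeGroup.of i))⁻¹ * FreeGroup.lift v f ∈
      Subgroup.normalClosure (FreeGroup.lift v '' (R : Set (FreeGroup (Fin d))))) :
    ∃ R' : Finset (FreeGroup (Fin d)), R'.card ≤ R.card + (d - I.card) ∧
      Subgroup.normalClosure (R' : Set (FreeGroup (Fin d))) = (FreeGroup.lift M).ker := by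
  classical
  have hsurj : ∀ g : G, ∃ w : FreeGroup (Fin d), FreeGroup.lift N w = g := by
    intro g
    have : g ∈ (FreeGroup.lift N).range := by
      rw [FreeGroup.range_lift_eq_closure, hN]
      exact Subgroup.mem_top _
    exact this
  have hex : ∀ i : Fin d, ∃ w : FreeGroup (Fin d),
      FreeGroup.lift N w = FreeGroup.lift M (α (FreeGroup.of i)) := fun i => hsurj _
  choose w hw using hex
  obtain ⟨s, hs⟩ : ∃ s : Fin d → FreeGroup (Fin d),
      ∀ i, s i = (α (FreeGroup.of i))⁻¹ * FreeGroup.lift v (w i) := ⟨_, fun _ => rfl⟩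
  obtain ⟨S, hS⟩ : ∃ S : Finset (FreeGroup (Fin d)), S = (Iᶜ).image s := ⟨_, rfl⟩
  have hcard : S.card ≤ d - I.card := by
    rw [hS]
    refine Finset.card_image_le.trans ?_
    rw [Finset.card_compl, Fintype.card_fin]
  have hSsub : (S : Set (FreeGroup (Fin d))) ⊆ (FreeGroup.lift M).ker := by
    intro x hx
    rw [Finset.mem_coe, hS, Finset.mem_image] at hx
    obtain ⟨i, _, rfl⟩ := hx
    have : FreeGroup.lift M (s i) = 1 := by
      rw [hs i, map_mul, map_inv, lift_lift M N v hv, hw i, inv_mul_cancel]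
    exact this
  have hgen : ∀ i, ∃ f, (α (FreeGroup.of i))⁻¹ * FreeGroup.lift v f ∈
      Subgroup.normalClosure (FreeGroup.lift v '' (R : Set (FreeGroup (Fin d))) ∪
        (S : Set (FreeGroup (Fin d)))) := by
    intro i
    by_cases hi : i ∈ I
    · obtain ⟨f, hf⟩ := hI i hi
      exact ⟨f, Subgroup.normalClosure_mono Set.subset_union_left hf⟩
    · refine ⟨w i, ?_⟩
      rw [← hs i]
      refine Subgroup.subset_normalClosure (Or.inr ?_)
      rw [Finset.mem_coe, hS, Finset.mem_image]
      exact ⟨i, Finset.mem_compl.2 hi, rfl⟩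
  have hk := key M N (R : Set (FreeGroup (Fin d))) (S : Set (FreeGroup (Fin d))) hR v hv hSsub α
    hgen
  refine ⟨R.image (FreeGroup.lift v) ∪ S, ?_, ?_⟩
  · exact (Finset.card_union_le _ _).trans (Nat.add_le_add Finset.card_image_le hcard)
  · rw [Finset.coe_union, Finset.coe_image]
    exact hk

end Pool.Agent.H80.U1
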